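import Pool.Agent.Lib.MP_8607b9_lc.Vtx
import Pool.Agent.Lib.MP_0f8b55_lc.Code
import Pool.Agent.Lib.PolyTime.More

/-!
# The instance of Node Blocking is valid, is equivalent to the abstract game, and is computed in
polynomial time
-/

namespace Pool.Agent.Lib.MP_8607b9_lc

open Pool.Agent.Lib.MP_0f8b55_lc Pool.Agent.Lib.PolyTime

/-! ### The numbers of the vertices -/

theorem Vtx.num_injective : Function.Injective Vtx.num := by
  intro a b h
  cases a <;> cases b <;> simp only [Vtx.num] at h <;> first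
    | (exfalso; omega)
    | (congr 1; omega)
    | (rename_i x j x' j'
       have h1 : Nat.pair x j = Nat.pair x' j' := by omega
       obtain ⟨h2, h3⟩ := Nat.pair_eq_pair.mp h1
       rw [h2, h3])

/-! ### The lists describe the abstract game -/

theorem mem_edgesOf (n : ℕ) (H : List (List ℕ)) (u v : Vtx) :
    (u, v) ∈ edgesOf n H ↔ Edge n H u v := by
  simp only [edgesOf, edgesA, edgesB, edgesC, edgesD, edgesE, edgesF, List.mem_append,
    List.mem_flatMap, List.mem_map, List.mem_range, List.mem_cons, List.not_mem_nil, or_false,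
    Prod.mk.injEq, Prod.exists, List.mk_mem_zipIdx_iff_getElem?]
  constructor
  · rintro (⟨x, hx, ⟨rfl, rfl⟩ | ⟨rfl, rfl⟩ | ⟨rfl, rfl⟩⟩ | ⟨x, hx, j, hj, rfl, rfl⟩ |
      ⟨e, c, he, x, hx, j, hj, rfl, rfl⟩ | ⟨i, hi, rfl, rfl⟩ | ⟨c, hc, j, hj, rfl, rfl⟩ |
      ⟨i, hi, rfl, rfl⟩)
    · exact .lam x hx
    · exact .rho x hx
    · exact .mid x hx
    · exact .res x j hx hj
    · exact .que c j x e he hx hj
    · exact .tr i hi
    · exact .enter c j hc hj
    · exact .rsv i hi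
  · intro h
    cases h with
    | lam x hx => exact Or.inl ⟨x, hx, Or.inl ⟨rfl, rfl⟩⟩
    | rho x hx => exact Or.inl ⟨x, hx, Or.inr (Or.inl ⟨rfl, rfl⟩)⟩
    | mid x hx => exact Or.inl ⟨x, hx, Or.inr (Or.inr ⟨rfl, rfl⟩)⟩
    | res x j hx hj => exact Or.inr (Or.inl ⟨x, hx, j, hj, rfl, rfl⟩)
    | que c j x e he hx hj => exact Or.inr (Or.inr (Or.inl ⟨e, c, he, x, hx, j, hj, rfl, rfl⟩))
    | tr i hi => exact Or.inr (Or.inr (Or.inr (Or.inl ⟨i, hi, rfl, rfl⟩)))
    | enter c j hc hj => exact Or.inr (Or.inr (Or.inr (Or.inr (Or.inl ⟨c, hc, j, hj, rfl, rfl⟩))))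
    | rsv i hi => exact Or.inr (Or.inr (Or.inr (Or.inr (Or.inr ⟨i, hi, rfl, rfl⟩))))

theorem start_eq (n : ℕ) (H : List (List ℕ)) (a : Vtx) :
    start n H a = if a ∈ leftOf n H then some true
      else if a ∈ rightOf n H then some false else none := by
  cases a <;> simp [start, leftOf, rightOf, List.mem_flatMap]

theorem mem_edges_nbOf (I : ℕ × List (List ℕ)) (u v : ℕ) :
    (u, v) ∈ (nbOf I).edges ↔ ∃ a b, Edge I.1 I.2 a b ∧ a.num = u ∧ b.num = v := by
  simp only [nbOf, NBData.edges, List.mem_map, Prod.exists, mem_edgesOf, Prod.mk.injEq]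

theorem mem_left_nbOf (I : ℕ × List (List ℕ)) (a : Vtx) :
    a.num ∈ (nbOf I).left ↔ a ∈ leftOf I.1 I.2 := by
  simp only [nbOf, NBData.left]
  exact List.mem_map_of_injective Vtx.num_injective

theorem mem_right_nbOf (I : ℕ × List (List ℕ)) (a : Vtx) :
    a.num ∈ (nbOf I).right ↔ a ∈ rightOf I.1 I.2 := by
  simp only [nbOf, NBData.right]
  exact List.mem_map_of_injective Vtx.num_injective

theorem pos_nbOf (I : ℕ × List (List ℕ)) (a : Vtx) :
    (nbOf I).pos a.num = start I.1 I.2 a := by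
  rw [start_eq, NBData.pos]
  simp only [mem_left_nbOf, mem_right_nbOf]

/-! ### Validity -/

/-- A rank of the vertices, increasing along the edges. -/
def Vtx.rank (s : ℕ) : Vtx → ℕ
  | .lam _ => 0
  | .rho _ => 0
  | .mid _ => 1
  | .que _ => 2
  | .res _ _ => 0
  | .tr i => i
  | .rsv i => i
  | .gate _ _ => s + 3

theorem Edge.rank_lt {n : ℕ} {H : List (List ℕ)} {a b : Vtx} (h : Edge n H a b) :
    a.rank (gS n H) < b.rank (gS n H) := by
  cases h <;> simp only [Vtx.rank] <;> omega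

theorem transGen_rank (I : ℕ × List (List ℕ)) {u v : ℕ}
    (h : Relation.TransGen (fun u w => (u, w) ∈ (nbOf I).edges) u v) :
    ∃ a b : Vtx, a.num = u ∧ b.num = v ∧ a.rank (gS I.1 I.2) < b.rank (gS I.1 I.2) := by
  induction h with
  | single h =>
    obtain ⟨a, b, h1, h2, h3⟩ := (mem_edges_nbOf I _ _).mp h
    exact ⟨a, b, h2, h3, h1.rank_lt⟩
  | tail _ h ih =>
    obtain ⟨a, b, h1, h2, h3⟩ := ih
    obtain ⟨a', b', h4, h5, h6⟩ := (mem_edges_nbOf I _ _).mp h
    have h7 : b = a' := Vtx.num_injective (h2.trans h5.symm)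
    subst h7
    exact ⟨a, b', h1, h6, h3.trans h4.rank_lt⟩

theorem le_sum_of_mem {l : List ℕ} {x : ℕ} (h : x ∈ l) : x ≤ l.sum :=
  List.le_sum_of_mem h

theorem nbOf_valid (I : ℕ × List (List ℕ)) : (nbOf I).Valid where
  edges_lt := by
    intro e he
    have h : e.1 + e.2 ≤ ((nbOf I).edges.map (fun e => e.1 + e.2)).sum :=
      le_sum_of_mem (List.mem_map_of_mem he)
    have h1 : (nbOf I).1 = 1 + (((nbOf I).edges.map (fun e => e.1 + e.2)).sum +
        ((nbOf I).left.sum + (nbOf I).right.sum)) := rfl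
    omega
  left_lt := by
    intro v hv
    have h := le_sum_of_mem hv
    have h1 : (nbOf I).1 = 1 + (((nbOf I).edges.map (fun e => e.1 + e.2)).sum +
        ((nbOf I).left.sum + (nbOf I).right.sum)) := rfl
    omega
  right_lt := by
    intro v hv
    have h := le_sum_of_mem hv
    have h1 : (nbOf I).1 = 1 + (((nbOf I).edges.map (fun e => e.1 + e.2)).sum +
        ((nbOf I).left.sum + (nbOf I).right.sum)) := rfl
    omega
  disjoint := by
    intro v hv hv'
    have h1 : (nbOf I).left = (leftOf I.1 I.2).map Vtx.num := rfl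
    rw [h1, List.mem_map] at hv
    obtain ⟨a, ha, rfl⟩ := hv
    rw [mem_right_nbOf] at hv'
    simp only [leftOf, rightOf, List.mem_append, List.mem_map, List.mem_range, List.mem_cons,
      List.mem_flatMap] at ha hv'
    rcases ha with ⟨x, _, rfl⟩ | ⟨x, _, rfl⟩ <;> simp at hv'
  acyclic := by
    intro v hv
    obtain ⟨a, b, h1, h2, h3⟩ := transGen_rank I hv
    have h4 : a = b := Vtx.num_injective (h1.trans h2.symm)
    subst h4
    exact lt_irrefl _ h3

/-! ### Transfer of winning strategies -/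

section transfer

variable {V W : Type} [DecidableEq V] [DecidableEq W] {f : V → W} (hf : Function.Injective f)
  {E : V → V → Prop} {E' : W → W → Prop}
  (hE : ∀ u v, E' u v ↔ ∃ a b, E a b ∧ f a = u ∧ f b = v)

include hf hE

theorem move_push {c : Bool} {p q : Pos V} {p' : Pos W} (h : Move E c p q)
    (hp : ∀ a, p' (f a) = p a) : ∃ q', Move E' c p' q' ∧ ∀ a, q' (f a) = q a := by
  obtain ⟨u, v, h1, h2, h3, rfl⟩ := h
  refine ⟨step c p' (f u) (f v), ⟨f u, f v, (hE _ _).mpr ⟨u, v, h1, rfl, rfl⟩, ?_, ?_, rfl⟩,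
    fun a => ?_⟩
  · rw [hp, h2]
  · rw [hp, h3]
  · simp only [step, hf.eq_iff, hp]

theorem move_pull {c : Bool} {p : Pos V} {p' q' : Pos W} (h : Move E' c p' q')
    (hp : ∀ a, p' (f a) = p a) : ∃ q, Move E c p q ∧ ∀ a, q' (f a) = q a := by
  obtain ⟨u, v, h1, h2, h3, rfl⟩ := h
  obtain ⟨a, b, h4, rfl, rfl⟩ := (hE _ _).mp h1
  refine ⟨step c p a b, ⟨a, b, h4, ?_, ?_, rfl⟩, fun x => ?_⟩
  · rw [← hp, h2]
  · rw [← hp, h3]
  · simp only [step, hf.eq_iff, hp]

theorem wins_push {c : Bool} {p : Pos V} (h : Wins E c p) :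
    ∀ {p' : Pos W}, (∀ a, p' (f a) = p a) → Wins E' c p' := by
  induction h with
  | mk p q hm _ ih =>
    intro p' hp
    obtain ⟨q', h1, h2⟩ := move_push hf hE hm hp
    refine .mk p' q' h1 (fun r' hr' => ?_)
    obtain ⟨r, h3, h4⟩ := move_pull hf hE hr' h2
    exact ih r h3 h4

theorem wins_pull {c : Bool} {p' : Pos W} (h : Wins E' c p') :
    ∀ {p : Pos V}, (∀ a, p' (f a) = p a) → Wins E c p := by
  induction h with
  | mk p' q' hm _ ih =>
    intro p hp
    obtain ⟨q, h1, h2⟩ := move_pull hf hE hm hp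
    refine .mk p q h1 (fun r hr => ?_)
    obtain ⟨r', h3, h4⟩ := move_push hf hE hr h2
    exact ih r' h3 h4

theorem wins_iff {c : Bool} {p : Pos V} {p' : Pos W} (hp : ∀ a, p' (f a) = p a) :
    Wins E' c p' ↔ Wins E c p :=
  ⟨fun h => wins_pull hf hE h hp, fun h => wins_push hf hE h hp⟩

end transfer

theorem nbOf_yes (I : ℕ × List (List ℕ)) :
    Wins (fun u v => (u, v) ∈ (nbOf I).edges) (nbOf I).mover (nbOf I).pos ↔
      Wins (Edge I.1 I.2) true (start I.1 I.2) :=
  wins_iff Vtx.num_injective (mem_edges_nbOf I) (pos_nbOf I)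

/-! ### Polynomial time -/

section pt

variable {α : Type} [Enc α]

theorem PT.natPair {f g : α → ℕ} (hf : PT f) (hg : PT g) : PT (fun a => Nat.pair (f a) (g a)) := by
  refine (PT.ite (c := fun a => f a < g a) (PT.lt hf hg) ((hg.mul hg).add hf)
    (((hf.mul hf).add hf).add hg)).congr (fun a => ?_)
  rfl

theorem PT.listSum {f : α → List ℕ} (hf : PT f) : PT (fun a => (f a).sum) := by
  refine (PT.length (hf.flatMap (g := fun _ n => List.replicate n ())
    (PT.replicateUnit PT.snd))).congr (fun a => ?_)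
  simp [List.length_flatMap]

instance encVtx : Enc Vtx := Enc.ofInj Vtx.num Vtx.num_injective

theorem PT.vtxOf {f : α → Vtx} {g : α → ℕ} (hg : PT g) (h : ∀ a, g a = (f a).num) : PT f :=
  PT.congr_enc hg (fun a => by rw [h a]; rfl)

theorem PT.num {f : α → Vtx} (hf : PT f) : PT (fun a => (f a).num) :=
  PT.congr_enc hf (fun _ => rfl)

theorem PT.lam {f : α → ℕ} (hf : PT f) : PT (fun a => Vtx.lam (f a)) :=
  PT.vtxOf (hf.mulConst 8) (fun _ => rfl)

theorem PT.rho {f : α → ℕ} (hf : PT f) : PT (fun a => Vtx.rho (f a)) :=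
  PT.vtxOf ((hf.mulConst 8).addConst 1) (fun _ => rfl)

theorem PT.mid {f : α → ℕ} (hf : PT f) : PT (fun a => Vtx.mid (f a)) :=
  PT.vtxOf ((hf.mulConst 8).addConst 2) (fun _ => rfl)

theorem PT.que {f : α → ℕ} (hf : PT f) : PT (fun a => Vtx.que (f a)) :=
  PT.vtxOf ((hf.mulConst 8).addConst 3) (fun _ => rfl)

theorem PT.res {f g : α → ℕ} (hf : PT f) (hg : PT g) : PT (fun a => Vtx.res (f a) (g a)) :=
  PT.vtxOf (((PT.natPair hf hg).mulConst 8).addConst 4) (fun _ => rfl)

theorem PT.tr {f : α → ℕ} (hf : PT f) : PT (fun a => Vtx.tr (f a)) :=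
  PT.vtxOf ((hf.mulConst 8).addConst 5) (fun _ => rfl)

theorem PT.rsv {f : α → ℕ} (hf : PT f) : PT (fun a => Vtx.rsv (f a)) :=
  PT.vtxOf ((hf.mulConst 8).addConst 6) (fun _ => rfl)

theorem PT.gate {f g : α → ℕ} (hf : PT f) (hg : PT g) : PT (fun a => Vtx.gate (f a) (g a)) :=
  PT.vtxOf (((PT.natPair hf hg).mulConst 8).addConst 7) (fun _ => rfl)

theorem PT.gN {f : α → ℕ} (hf : PT f) : PT (fun a => gN (f a)) := (hf.mulConst 2).addConst 1

theorem PT.gK {f : α → ℕ} {g : α → List (List ℕ)} (hf : PT f) (hg : PT g) :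
    PT (fun a => gK (f a) (g a)) := hg.length.mul (PT.gN hf)

theorem PT.gW {f : α → ℕ} {g : α → List (List ℕ)} (hf : PT f) (hg : PT g) :
    PT (fun a => gW (f a) (g a)) :=
  ((hf.mulConst 6).addConst 2).add (((PT.gK hf hg).mul hf).mulConst 2)

theorem PT.gS {f : α → ℕ} {g : α → List (List ℕ)} (hf : PT f) (hg : PT g) :
    PT (fun a => gS (f a) (g a)) :=
  (PT.gW hf hg).add (hf.add ((PT.gK hf hg).mulConst 2))

theorem PT.gT {f : α → ℕ} {g : α → List (List ℕ)} (hf : PT f) (hg : PT g) :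
    PT (fun a => gT (f a) (g a)) :=
  (((PT.gW hf hg).mul ((hf.add ((PT.gK hf hg).mulConst 2)).addConst 1)).add
    (hf.mulConst 3)).addConst 1

theorem PT.edgesA {f : α → ℕ} (hf : PT f) : PT (fun a => edgesA (f a)) := by
  refine PT.flatMap hf.range (g := fun _ x => [(Vtx.lam x, Vtx.mid x), (Vtx.rho x, Vtx.mid x),
    (Vtx.mid x, Vtx.que x)]) ?_
  exact PT.cons ((PT.lam PT.snd).pair (PT.mid PT.snd)) (PT.cons ((PT.rho PT.snd).pair
    (PT.mid PT.snd)) (PT.cons ((PT.mid PT.snd).pair (PT.que PT.snd)) (PT.const [])))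

theorem PT.edgesB {f : α → ℕ} {g : α → List (List ℕ)} (hf : PT f) (hg : PT g) :
    PT (fun a => edgesB (f a) (g a)) := by
  refine PT.flatMap hf.range (g := fun a x => (List.range (MP_8607b9_lc.gK (f a) (g a))).map
    (fun j => (Vtx.res x j, Vtx.que x))) ?_
  exact PT.map (PT.range ((PT.gK hf hg).comp PT.fst)) (g := fun (x : α × ℕ) (j : ℕ) =>
    (Vtx.res x.2 j, Vtx.que x.2))
    ((PT.res PT.fst.snd' PT.snd).pair (PT.que PT.fst.snd'))

theorem PT.edgesC {f : α → ℕ} {g : α → List (List ℕ)} (hf : PT f) (hg : PT g) :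
    PT (fun a => edgesC (f a) (g a)) := by
  refine PT.flatMap hg.zipIdx (g := fun a (ec : List ℕ × ℕ) => ec.1.flatMap (fun x =>
    (List.range (MP_8607b9_lc.gN (f a))).map (fun j => (Vtx.que x, Vtx.gate ec.2 j)))) ?_
  refine PT.flatMap (f := fun x : α × (List ℕ × ℕ) => x.2.1) PT.snd.fst'
    (g := fun (y : α × (List ℕ × ℕ)) (x : ℕ) => (List.range (MP_8607b9_lc.gN (f y.1))).map
      (fun j => (Vtx.que x, Vtx.gate y.2.2 j))) ?_
  refine PT.map (f := fun z : (α × (List ℕ × ℕ)) × ℕ =>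
      List.range (MP_8607b9_lc.gN (f z.1.1)))
    (PT.range ((PT.gN hf).comp PT.fst.fst'))
    (g := fun (z : (α × (List ℕ × ℕ)) × ℕ) (j : ℕ) => (Vtx.que z.2, Vtx.gate z.1.2.2 j)) ?_
  exact (PT.que PT.fst.snd').pair (PT.gate PT.fst.fst'.snd'.snd' PT.snd)

theorem PT.edgesD {f : α → ℕ} {g : α → List (List ℕ)} (hf : PT f) (hg : PT g) :
    PT (fun a => edgesD (f a) (g a)) :=
  PT.map (PT.range (PT.gS hf hg)) (g := fun _ i => (Vtx.tr i, Vtx.tr (i + 1)))
    ((PT.tr PT.snd).pair (PT.tr (PT.snd.addConst 1)))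

theorem PT.edgesE {f : α → ℕ} {g : α → List (List ℕ)} (hf : PT f) (hg : PT g) :
    PT (fun a => edgesE (f a) (g a)) := by
  refine PT.flatMap (PT.range hg.length) (g := fun a c =>
    (List.range (MP_8607b9_lc.gN (f a))).map
      (fun j => (Vtx.tr (MP_8607b9_lc.gS (f a) (g a)), Vtx.gate c j))) ?_
  exact PT.map (f := fun z : α × ℕ => List.range (MP_8607b9_lc.gN (f z.1)))
    (PT.range ((PT.gN hf).comp PT.fst)) (g := fun (z : α × ℕ) (j : ℕ) =>
      (Vtx.tr (MP_8607b9_lc.gS (f z.1) (g z.1)), Vtx.gate z.2 j))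
    ((PT.tr ((PT.gS hf hg).comp PT.fst.fst')).pair (PT.gate PT.fst.snd' PT.snd))

theorem PT.edgesF {f : α → ℕ} {g : α → List (List ℕ)} (hf : PT f) (hg : PT g) :
    PT (fun a => edgesF (f a) (g a)) :=
  PT.map (PT.range (PT.gT hf hg)) (g := fun _ i => (Vtx.rsv i, Vtx.rsv (i + 1)))
    ((PT.rsv PT.snd).pair (PT.rsv (PT.snd.addConst 1)))

theorem PT.edgesOf {f : α → ℕ} {g : α → List (List ℕ)} (hf : PT f) (hg : PT g) :
    PT (fun a => edgesOf (f a) (g a)) :=
  (PT.edgesA hf).append ((PT.edgesB hf hg).append ((PT.edgesC hf hg).append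
    ((PT.edgesD hf hg).append ((PT.edgesE hf hg).append (PT.edgesF hf hg)))))

theorem PT.leftOf {f : α → ℕ} {g : α → List (List ℕ)} (hf : PT f) (hg : PT g) :
    PT (fun a => leftOf (f a) (g a)) :=
  (PT.map hf.range (g := fun _ x => Vtx.lam x) (PT.lam PT.snd)).append
    (PT.map (PT.range (PT.gW hf hg)) (g := fun _ x => Vtx.tr x) (PT.tr PT.snd))

theorem PT.rightOf {f : α → ℕ} {g : α → List (List ℕ)} (hf : PT f) (hg : PT g) :
    PT (fun a => rightOf (f a) (g a)) := by
  refine PT.cons (PT.const (Vtx.rsv 0)) ((PT.map hf.range (g := fun _ x => Vtx.rho x)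
    (PT.rho PT.snd)).append ?_)
  refine PT.flatMap hf.range (g := fun a x => (List.range (MP_8607b9_lc.gK (f a) (g a))).map
    (fun j => Vtx.res x j)) ?_
  exact PT.map (PT.range ((PT.gK hf hg).comp PT.fst)) (g := fun (x : α × ℕ) (j : ℕ) =>
    Vtx.res x.2 j) (PT.res PT.fst.snd' PT.snd)

theorem PT.nbOf {f : α → ℕ × List (List ℕ)} (hf : PT f) : PT (fun a => nbOf (f a)) := by
  have hE : PT (fun a => (MP_8607b9_lc.edgesOf (f a).1 (f a).2).map (fun e => (e.1.num, e.2.num))) :=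
    PT.map (PT.edgesOf hf.fst' hf.snd') (g := fun _ (e : Vtx × Vtx) => (e.1.num, e.2.num))
      ((PT.num PT.snd.fst').pair (PT.num PT.snd.snd'))
  have hL : PT (fun a => (MP_8607b9_lc.leftOf (f a).1 (f a).2).map Vtx.num) :=
    PT.map (PT.leftOf hf.fst' hf.snd') (g := fun _ (e : Vtx) => e.num) (PT.num PT.snd)
  have hR : PT (fun a => (MP_8607b9_lc.rightOf (f a).1 (f a).2).map Vtx.num) :=
    PT.map (PT.rightOf hf.fst' hf.snd') (g := fun _ (e : Vtx) => e.num) (PT.num PT.snd)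
  have hS : PT (fun a => ((MP_8607b9_lc.edgesOf (f a).1 (f a).2).map
      (fun e => (e.1.num, e.2.num))).map (fun e => e.1 + e.2)) :=
    PT.map hE (g := fun _ (e : ℕ × ℕ) => e.1 + e.2) (PT.snd.fst'.add PT.snd.snd')
  exact ((PT.const 1).add ((PT.listSum hS).add ((PT.listSum hL).add (PT.listSum hR)))).pair
    (hE.pair (hL.pair (hR.pair (PT.const true))))

/-! ### The Maker-Breaker game of a formula -/

theorem PT.spine {f : α → ℕ} (hf : PT f) : PT (fun a => spine (f a)) :=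
  PT.map hf.range (g := fun _ j => 4 * j + 2) ((PT.snd.mulConst 4).addConst 2)

theorem PT.litElt {f : α → ℕ × Bool} (hf : PT f) : PT (fun a => litElt (f a)) :=
  (hf.fst'.mulConst 4).add ((PT.ite (c := fun a => (f a).2 = true) (hf.snd'.congr (fun a => by simp))
    (PT.const 0) (PT.const 1)))

theorem PT.stageEdges {q : α → Bool} {i : α → ℕ} (hq : PT q) (hi : PT i) :
    PT (fun a => stageEdges (q a) (i a)) := by
  have h0 : PT (fun a => 4 * i a) := hi.mulConst 4
  have h1 : PT (fun a => 4 * i a + 1) := (hi.mulConst 4).addConst 1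
  have h2 : PT (fun a => 4 * i a + 2) := (hi.mulConst 4).addConst 2
  have h3 : PT (fun a => 4 * i a + 3) := (hi.mulConst 4).addConst 3
  refine PT.cons ((PT.spine hi).append (PT.ite (c := fun a => q a = true)
    (hq.congr (fun a => by simp)) (PT.cons h2 (PT.cons h0 (PT.cons h1 (PT.const []))))
      (PT.cons h0 (PT.cons h1 (PT.const []))))) (PT.cons ((PT.spine hi).append
    (PT.cons h2 (PT.cons h0 (PT.cons h3 (PT.const []))))) (PT.cons ((PT.spine hi).append
    (PT.cons h2 (PT.cons h1 (PT.cons h3 (PT.const []))))) (PT.const [])))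

theorem PT.hypOf {f : α → Formula} (hf : PT f) : PT (fun a => hypOf (f a)) := by
  refine (PT.flatMap hf.fst'.zipIdx (g := fun _ (qi : Bool × ℕ) =>
    MP_8607b9_lc.stageEdges qi.1 qi.2) (PT.stageEdges PT.snd.fst' PT.snd.snd')).append ?_
  refine PT.map hf.snd' (g := fun a (C : List (ℕ × Bool)) =>
    MP_8607b9_lc.spine (f a).1.length ++ C.map MP_8607b9_lc.litElt) ?_
  exact (PT.spine ((hf.fst'.length).comp PT.fst)).append
    (PT.map PT.snd (g := fun _ (l : ℕ × Bool) => MP_8607b9_lc.litElt l) (PT.litElt PT.snd))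

theorem PT.mbOf {f : α → Formula} (hf : PT f) : PT (fun a => mbOf (f a)) :=
  (hf.fst'.length.mulConst 4).pair (PT.hypOf hf)

end pt

/-! ### The codes -/

theorem codeBool_eq (b : Bool) : codeBool b = code b := by
  cases b <;> rfl

theorem code_tqbf (φ : {φ : Formula // φ.Closed}) : TQBF.enc φ = code φ :=
  codePair_eq (codeList_eq codeBool_eq) (codeList_eq (codeList_eq
    (codePair_eq codeNat_eq codeBool_eq))) φ.1

theorem code_nbdag (I : {I : NBData // I.Valid}) : NBDAG.enc I = code I :=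
  codePair_eq codeNat_eq (codePair_eq (codeList_eq (codePair_eq codeNat_eq codeNat_eq))
    (codePair_eq (codeList_eq codeNat_eq) (codePair_eq (codeList_eq codeNat_eq) codeBool_eq))) I.1

/-- The reduction. -/
theorem reduces_of (h : ∀ φ : Formula, φ.Closed → (Truth φ.2 [] φ.1 ↔
    Wins (Edge (mbOf φ).1 (mbOf φ).2) true (start (mbOf φ).1 (mbOf φ).2))) :
    Reduces TQBF NBDAG := by
  have hpt : PT (fun φ : {φ : Formula // φ.Closed} =>
      (⟨nbOf (mbOf φ.1), nbOf_valid _⟩ : {I : NBData // I.Valid})) :=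
    PT.congr_enc (PT.nbOf (PT.mbOf (PT.val (p := Formula.Closed)))) (fun _ => rfl)
  refine ⟨fun φ => ⟨nbOf (mbOf φ.1), nbOf_valid _⟩, ?_, fun φ => ?_⟩
  · have e1 : TQBF.enc = (code : {φ : Formula // φ.Closed} → List Bool) := funext code_tqbf
    have e2 : NBDAG.enc = (code : {I : NBData // I.Valid} → List Bool) := funext code_nbdag
    rw [e1, e2]
    exact hpt.computable
  · exact (h φ.1 φ.2).trans (nbOf_yes _).symm

end Pool.Agent.Lib.MP_8607b9_lc
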