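import Pool.Agent.Lib.MP_0f8b55_lc.Defs

/-!
# The decision problems: quantified Boolean formulas and Node Blocking on acyclic digraphs

All definitions used in the statement of the result are in this file and (decision problems,
reductions, codes of numbers, pairs and lists) in `Pool.Agent.Lib.MP_0f8b55_lc.Defs`.
-/

namespace Pool.Agent.Lib.MP_8607b9_lc

open Pool.Agent.Lib.MP_0f8b55_lc

/-- The code of a truth value. -/
def codeBool (b : Bool) : List Bool := codeNat (if b then 1 else 0)

theorem selfDelimiting_bool : SelfDelimiting codeBool := by
  intro a b s t h
  obtain ⟨h1, h2⟩ := selfDelimiting_nat _ _ _ _ h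
  refine ⟨?_, h2⟩
  cases a <;> cases b <;> simp_all

/-! ### Quantified Boolean formulas -/

/-- A prenex formula with matrix in conjunctive normal form: the list of the quantifiers (`true`
stands for `∃`, `false` for `∀`; the `i`-th quantifier binds the variable `i`) and the list of the
clauses. A clause is a list of literals; the literal `(i, true)` is the variable `i`, the literal
`(i, false)` is its negation. -/
abbrev Formula : Type := List Bool × List (List (ℕ × Bool))

/-- All variables of the formula are bound by a quantifier. -/
def Formula.Closed (φ : Formula) : Prop := ∀ C ∈ φ.2, ∀ l ∈ C, l.1 < φ.1.length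

/-- The truth of a formula with matrix `M`, when the first variables already have the values `a`
and the quantifiers `Q` are still to be evaluated. -/
def Truth (M : List (List (ℕ × Bool))) : List Bool → List Bool → Prop
  | a, [] => ∀ C ∈ M, ∃ l ∈ C, a[l.1]? = some l.2
  | a, true :: Q => ∃ b, Truth M (a ++ [b]) Q
  | a, false :: Q => ∀ b, Truth M (a ++ [b]) Q

/-- The problem `TQBF`: is a given closed prenex formula with matrix in conjunctive normal form
true? -/
def TQBF : Problem where
  Inst := {φ : Formula // φ.Closed}
  Letter := Bool
  fin := inferInstance
  enc := fun φ => codePair (codeList codeBool) (codeList (codeList (codePair codeNat codeBool))) φ.1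
  inj := ((selfDelimiting_bool.list.pair
    (selfDelimiting_nat.pair selfDelimiting_bool).list.list).injective).comp
      Subtype.val_injective
  Yes := fun φ => Truth φ.1.2 [] φ.1.1

/-! ### Node Blocking -/

/-- A position on the vertex set `V`: every vertex carries a token of Left (`some true`), a token
of Right (`some false`) or no token (`none`). -/
abbrev Pos (V : Type) : Type := V → Option Bool

/-- The position after moving a token of the player `c` from `u` to `v`. -/
def step {V : Type} [DecidableEq V] (c : Bool) (p : Pos V) (u v : V) : Pos V :=
  fun w => if w = v then some c else if w = u then none else p w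

/-- The player `c` can move from the position `p` to the position `p'`: he moves one of his tokens
along an edge of the graph `E` to a vertex without token. -/
def Move {V : Type} [DecidableEq V] (E : V → V → Prop) (c : Bool) (p p' : Pos V) : Prop :=
  ∃ u v, E u v ∧ p u = some c ∧ p v = none ∧ p' = step c p u v

/-- The player `c`, who is to move in the position `p`, has a winning strategy (a player who
cannot move loses): he has a move to a position `p'` such that after every answer of his opponent
he has a winning strategy again. -/
inductive Wins {V : Type} [DecidableEq V] (E : V → V → Prop) (c : Bool) : Pos V → Prop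
  | mk (p p' : Pos V) : Move E c p p' → (∀ p'', Move E (!c) p' p'' → Wins E c p'') → Wins E c p

/-- The data of an instance of Node Blocking: the number of vertices, the list of the edges, the
list of the vertices with a token of Left, the list of the vertices with a token of Right, and the
player to move (`true` stands for Left, `false` for Right). -/
abbrev NBData : Type := ℕ × List (ℕ × ℕ) × List ℕ × List ℕ × Bool

/-- The edges of the digraph. -/
abbrev NBData.edges (I : NBData) : List (ℕ × ℕ) := I.2.1

/-- The vertices with a token of Left. -/
abbrev NBData.left (I : NBData) : List ℕ := I.2.2.1

/-- The vertices with a token of Right. -/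
abbrev NBData.right (I : NBData) : List ℕ := I.2.2.2.1

/-- The player to move. -/
abbrev NBData.mover (I : NBData) : Bool := I.2.2.2.2

/-- The data describe an acyclic digraph with vertex set `{0, …, n - 1}`, where `n = I.1`, and two
disjoint sets of vertices (with tokens of Left and of Right). -/
structure NBData.Valid (I : NBData) : Prop where
  edges_lt : ∀ e ∈ I.edges, e.1 < I.1 ∧ e.2 < I.1
  left_lt : ∀ v ∈ I.left, v < I.1
  right_lt : ∀ v ∈ I.right, v < I.1
  disjoint : ∀ v ∈ I.left, v ∉ I.right
  acyclic : ∀ v, ¬ Relation.TransGen (fun u w => (u, w) ∈ I.edges) v v

/-- The position described by the data. -/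
def NBData.pos (I : NBData) : Pos ℕ :=
  fun v => if v ∈ I.left then some true else if v ∈ I.right then some false else none

/-- The problem `NB-DAG`: given an acyclic digraph, the positions and owners of all tokens and the
player to move, does the player to move have a winning strategy in Node Blocking? -/
def NBDAG : Problem where
  Inst := {I : NBData // I.Valid}
  Letter := Bool
  fin := inferInstance
  enc := fun I => codePair codeNat (codePair (codeList (codePair codeNat codeNat))
    (codePair (codeList codeNat) (codePair (codeList codeNat) codeBool))) I.1
  inj := ((selfDelimiting_nat.pair ((selfDelimiting_nat.pair selfDelimiting_nat).list.pair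
    (selfDelimiting_nat.list.pair (selfDelimiting_nat.list.pair
      selfDelimiting_bool)))).injective).comp Subtype.val_injective
  Yes := fun I => Wins (fun u v => (u, v) ∈ I.1.edges) I.1.mover I.1.pos

end Pool.Agent.Lib.MP_8607b9_lc
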