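import Pool.Agent.Lib.MP_8607b9_lc.Vtx

/-!
# Potentials of positions
-/

namespace Pool.Agent.Lib.MP_8607b9_lc

open Finset

section general

variable {V : Type} [DecidableEq V]

theorem step_target (c : Bool) (p : Pos V) (u v : V) : step c p u v v = some c := by
  simp [step]

theorem step_source (c : Bool) (p : Pos V) {u v : V} (h : u ≠ v) : step c p u v u = none := by
  simp [step, h]

theorem step_other (c : Bool) (p : Pos V) {u v w : V} (hu : w ≠ u) (hv : w ≠ v) :
    step c p u v w = p w := by
  simp [step, hu, hv]

omit [DecidableEq V] in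
theorem ne_of_pos {c : Bool} {p : Pos V} {u v : V} (hu : p u = some c) (hv : p v = none) :
    u ≠ v := by
  rintro rfl
  rw [hu] at hv
  exact absurd hv (by simp)

/-- A move of `c` does not touch the tokens of his opponent. -/
theorem step_opp {c d : Bool} {p : Pos V} {u v : V} (hu : p u = some c) (hv : p v = none)
    (hd : d ≠ c) (w : V) : step c p u v w = some d ↔ p w = some d := by
  by_cases h1 : w = v
  · subst h1
    rw [step_target, hv]
    simp [Ne.symm hd]
  · by_cases h2 : w = u
    · subst h2
      rw [step_source c p h1, hu]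
      simp [Ne.symm hd]
    · rw [step_other c p h2 h1]

/-- The sum of the weights of the vertices in state `o`. -/
def wpot (S : Finset V) (o : Option Bool) (w : V → ℕ) (p : Pos V) : ℕ :=
  ∑ v ∈ S, if p v = o then w v else 0

theorem pot_split (S : Finset V) (o : Option Bool) (w : V → ℕ) (p : Pos V) {u v : V} (hu : u ∈ S)
    (hv : v ∈ S) (h : u ≠ v) : wpot S o w p = (if p u = o then w u else 0) +
      ((if p v = o then w v else 0) + ∑ x ∈ (S.erase u).erase v, if p x = o then w x else 0) := by
  unfold wpot
  rw [← Finset.add_sum_erase S _ hu, ← Finset.add_sum_erase (S.erase u) _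
    (Finset.mem_erase.2 ⟨h.symm, hv⟩)]

theorem pot_rest (S : Finset V) (o : Option Bool) (w : V → ℕ) (c : Bool) (p : Pos V) (u v : V) :
    (∑ x ∈ (S.erase u).erase v, if step c p u v x = o then w x else 0) =
      ∑ x ∈ (S.erase u).erase v, if p x = o then w x else 0 := by
  refine Finset.sum_congr rfl (fun x hx => ?_)
  rw [Finset.mem_erase, Finset.mem_erase] at hx
  rw [step_other c p hx.2.1 hx.1]

theorem pot_step {S : Finset V} {w : V → ℕ} {c : Bool} {p : Pos V} {u v : V} (hu : u ∈ S)
    (hv : v ∈ S) (hpu : p u = some c) (hpv : p v = none) :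
    wpot S (some c) w (step c p u v) + w u = wpot S (some c) w p + w v := by
  have h := ne_of_pos hpu hpv
  rw [pot_split S _ w p hu hv h, pot_split S _ w _ hu hv h, pot_rest, step_target,
    step_source c p h, hpu, hpv]
  simp
  omega

theorem pot_step_none {S : Finset V} {w : V → ℕ} {c : Bool} {p : Pos V} {u v : V} (hu : u ∈ S)
    (hv : v ∈ S) (hpu : p u = some c) (hpv : p v = none) :
    wpot S none w (step c p u v) + w v = wpot S none w p + w u := by
  have h := ne_of_pos hpu hpv
  rw [pot_split S _ w p hu hv h, pot_split S _ w _ hu hv h, pot_rest, step_target,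
    step_source c p h, hpu, hpv]
  simp
  omega

theorem pot_step_opp {S : Finset V} {w : V → ℕ} {c d : Bool} {p : Pos V} {u v : V}
    (hpu : p u = some c) (hpv : p v = none) (hd : d ≠ c) :
    wpot S (some d) w (step c p u v) = wpot S (some d) w p := by
  unfold wpot
  refine Finset.sum_congr rfl (fun x _ => ?_)
  simp only [step_opp hpu hpv hd x]

omit [DecidableEq V] in
theorem pot_le_of_le {S : Finset V} {o : Option Bool} {w w' : V → ℕ} (h : ∀ v, w v ≤ w' v)
    (p : Pos V) : wpot S o w p ≤ wpot S o w' p := by
  unfold wpot
  refine Finset.sum_le_sum (fun x _ => ?_)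
  split
  · exact h x
  · exact le_refl _

omit [DecidableEq V] in
theorem pot_total (S : Finset V) (w : V → ℕ) (p : Pos V) :
    wpot S none w p + wpot S (some true) w p + wpot S (some false) w p = ∑ v ∈ S, w v := by
  unfold wpot
  rw [← Finset.sum_add_distrib, ← Finset.sum_add_distrib]
  refine Finset.sum_congr rfl (fun x _ => ?_)
  rcases h : p x with _ | b
  · simp
  · cases b <;> simp

omit [DecidableEq V] in
theorem exists_of_pot_pos {S : Finset V} {o : Option Bool} {w : V → ℕ} {p : Pos V}
    (h : 0 < wpot S o w p) : ∃ v ∈ S, p v = o ∧ 0 < w v := by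
  unfold wpot at h
  obtain ⟨v, hv, h'⟩ := Finset.exists_ne_zero_of_sum_ne_zero (Nat.pos_iff_ne_zero.1 h)
  refine ⟨v, hv, ?_⟩
  by_cases h2 : p v = o
  · exact ⟨h2, by rw [if_pos h2] at h'; omega⟩
  · rw [if_neg h2] at h'
    exact absurd rfl h'

omit [DecidableEq V] in
theorem le_pot {S : Finset V} {o : Option Bool} {w : V → ℕ} {p : Pos V} {v : V} (hv : v ∈ S)
    (h : p v = o) : w v ≤ wpot S o w p := by
  unfold wpot
  have := Finset.single_le_sum (f := fun v => if p v = o then w v else 0) (s := S)
    (fun i _ => Nat.zero_le _) hv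
  simpa [h] using this

/-- A player does not win if there is an invariant set of positions where he is to move: to each
of his moves there is an answer leading back to the set. -/
theorem not_wins_of_inv {E : V → V → Prop} {c : Bool} (I : Pos V → Prop)
    (h : ∀ p p', I p → Move E c p p' → ∃ p'', Move E (!c) p' p'' ∧ I p'') (p : Pos V)
    (hp : I p) : ¬ Wins E c p := by
  intro hw
  induction hw with
  | mk p p' hm _ ih =>
    obtain ⟨p'', h1, h2⟩ := h p p' hp hm
    exact ih p'' h1 h2

theorem Wins.of {E : V → V → Prop} {c : Bool} {p : Pos V} (u v : V) (he : E u v)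
    (hu : p u = some c) (hv : p v = none)
    (h : ∀ u' v', E u' v' → step c p u v u' = some (!c) → step c p u v v' = none →
      Wins E c (step (!c) (step c p u v) u' v')) : Wins E c p := by
  refine Wins.mk p _ ⟨u, v, he, hu, hv, rfl⟩ (fun p'' hp'' => ?_)
  obtain ⟨u', v', h1, h2, h3, rfl⟩ := hp''
  exact h u' v' h1 h2 h3

end general

/-! ### The vertices -/

/-- All vertices. -/
def verts (n : ℕ) (H : List (List ℕ)) : Finset Vtx :=
  (range n).image Vtx.lam ∪ ((range n).image Vtx.rho ∪ ((range n).image Vtx.mid ∪
    ((range n).image Vtx.que ∪ (((range n) ×ˢ (range (gK n H))).image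
      (fun a => Vtx.res a.1 a.2) ∪ ((range (gS n H + 1)).image Vtx.tr ∪
        ((range (gT n H + 1)).image Vtx.rsv ∪ ((range H.length) ×ˢ (range (gN n))).image
          (fun a => Vtx.gate a.1 a.2)))))))

variable {n : ℕ} {H : List (List ℕ)}

theorem sum_verts (f : Vtx → ℕ) : ∑ v ∈ verts n H, f v =
    ∑ x ∈ range n, f (.lam x) + (∑ x ∈ range n, f (.rho x) + (∑ x ∈ range n, f (.mid x) +
      (∑ x ∈ range n, f (.que x) + (∑ x ∈ range n, ∑ j ∈ range (gK n H), f (.res x j) +
        (∑ i ∈ range (gS n H + 1), f (.tr i) + (∑ i ∈ range (gT n H + 1), f (.rsv i) +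
          ∑ c ∈ range H.length, ∑ j ∈ range (gN n), f (.gate c j))))))) := by
  unfold verts
  rw [Finset.sum_union, Finset.sum_union, Finset.sum_union, Finset.sum_union, Finset.sum_union,
    Finset.sum_union, Finset.sum_union, Finset.sum_image, Finset.sum_image, Finset.sum_image,
    Finset.sum_image, Finset.sum_image, Finset.sum_image, Finset.sum_image, Finset.sum_image,
    Finset.sum_product, Finset.sum_product]
  all_goals first
    | (rw [Finset.disjoint_left]; intro a ha hb; simp at ha hb; obtain ⟨_, _, rfl⟩ := ha; simp at hb)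
    | (rw [Finset.disjoint_left]; intro a ha hb; simp at ha hb; obtain ⟨_, _, _, rfl⟩ := ha; simp at hb)
    | (intro a _ b _ h; simpa using h)
    | (intro a _ b _ h; simp at h; exact Prod.ext h.1 h.2)

theorem edge_mem {u v : Vtx} (h : Edge n H u v) (hH : ∀ e ∈ H, ∀ x ∈ e, x < n) :
    u ∈ verts n H ∧ v ∈ verts n H := by
  cases h with
  | que c j x e hc hx hj =>
    have h1 : x < n := hH e (List.mem_of_getElem? hc) x hx
    have h2 : c < H.length := (List.getElem?_eq_some_iff.1 hc).1
    simp [verts, h1, h2, hj]
  | lam x hx => simp [verts, hx]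
  | rho x hx => simp [verts, hx]
  | mid x hx => simp [verts, hx]
  | res x j hx hj => simp [verts, hx, hj]
  | tr i hi => simp [verts]; omega
  | enter c j hc hj => simp [verts, hc, hj]
  | rsv i hi => simp [verts]; omega

/-- The height of the vertices, for the tokens of Right. -/
def wR (n : ℕ) (H : List (List ℕ)) : Vtx → ℕ
  | .lam _ => 3
  | .rho _ => 3
  | .mid _ => 2
  | .que _ => 1
  | .res _ _ => 2
  | .tr i => gS n H - i + 1
  | .rsv i => gT n H - i
  | .gate _ _ => 0

theorem wR_edge {u v : Vtx} (h : Edge n H u v) : wR n H v + 1 ≤ wR n H u := by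
  cases h <;> simp [wR] <;> omega

/-- The height of the vertices, for the tokens of Left. -/
def wL (n : ℕ) (H : List (List ℕ)) : Vtx → ℕ
  | .lam _ => 3
  | .rho _ => 3
  | .mid _ => 2
  | .que _ => 1
  | .res _ _ => 2
  | .tr i => gS n H - i
  | .rsv i => gT n H - i
  | .gate _ _ => 0

/-- The height of the vertices of the path of the train. -/
def wA (n : ℕ) (H : List (List ℕ)) : Vtx → ℕ
  | .tr i => gS n H - i
  | _ => 0

/-- The indicator function of the path of the train. -/
def wC : Vtx → ℕ
  | .tr _ => 1
  | _ => 0

/-- The indicator function of the gates. -/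
def wG : Vtx → ℕ
  | .gate _ _ => 1
  | _ => 0

theorem pot_wA (p : Pos Vtx) : wpot (verts n H) (some true) (wA n H) p =
    ∑ i ∈ range (gS n H + 1), if p (.tr i) = some true then gS n H - i else 0 := by
  unfold wpot
  rw [sum_verts]
  simp [wA]

theorem pot_wC (p : Pos Vtx) : wpot (verts n H) (some true) wC p =
    ∑ i ∈ range (gS n H + 1), if p (.tr i) = some true then 1 else 0 := by
  unfold wpot
  rw [sum_verts]
  simp [wC]

theorem sum_wG : ∑ v ∈ verts n H, wG v = gK n H := by
  rw [sum_verts]
  simp [wG, gK]

/-- The sum of distinct numbers is smallest for an initial segment. -/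
theorem sum_range_card_le (s : Finset ℕ) : ∑ i ∈ range s.card, i ≤ ∑ i ∈ s, i := by
  induction s using Finset.strongInduction with
  | H s ih =>
    rcases s.eq_empty_or_nonempty with rfl | hs
    · simp
    · set a := s.max' hs
      have ha : a ∈ s := Finset.max'_mem s hs
      have h1 := ih (s.erase a) (Finset.erase_ssubset ha)
      rw [Finset.card_erase_of_mem ha] at h1
      have h2 : s ⊆ range (a + 1) := fun x hx => by
        have := Finset.le_max' s x hx
        simp only [mem_range]; omega
      have h3 : s.card ≤ a + 1 := by simpa using Finset.card_le_card h2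
      have h4 : 0 < s.card := Finset.card_pos.2 hs
      obtain ⟨k, hk⟩ : ∃ k, s.card = k + 1 := ⟨s.card - 1, by omega⟩
      rw [hk, Finset.sum_range_succ]
      rw [hk] at h1
      rw [← Finset.add_sum_erase s _ ha]
      simp only [Nat.add_sub_cancel] at h1
      omega

/-- A set of numbers closed under predecessors is an initial segment. -/
theorem eq_range_of_closed {s : Finset ℕ} (h : ∀ i, i + 1 ∈ s → i ∈ s) : s = range s.card := by
  have h1 : ∀ i ∈ s, ∀ j ≤ i, j ∈ s := by
    intro i
    induction i with
    | zero => intro hi j hj; obtain rfl : j = 0 := by omega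
              exact hi
    | succ i ih =>
      intro hi j hj
      rcases Nat.lt_or_ge j (i + 1) with hlt | hge
      · exact ih (h i hi) j (by omega)
      · obtain rfl : j = i + 1 := by omega
        exact hi
  have h2 : ∀ i ∈ s, i < s.card := by
    intro i hi
    have : range (i + 1) ⊆ s := fun j hj => h1 i hi j (by simp only [mem_range] at hj; omega)
    have := Finset.card_le_card this
    simp at this; omega
  exact Finset.eq_of_subset_of_card_le (fun i hi => by simpa using h2 i hi) (by simp)

/-- The reversed set of the train tokens. -/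
def trainSet (n : ℕ) (H : List (List ℕ)) (p : Pos Vtx) : Finset ℕ :=
  (range (gS n H + 1)).filter (fun k => p (.tr (gS n H - k)) = some true)

theorem card_trainSet (p : Pos Vtx) :
    (trainSet n H p).card = wpot (verts n H) (some true) wC p := by
  rw [pot_wC, trainSet, Finset.card_filter, ← Finset.sum_range_reflect]
  refine Finset.sum_congr rfl (fun i hi => ?_)
  simp only [mem_range] at hi
  have h1 : gS n H + 1 - 1 - i = gS n H - i := by omega
  have h2 : gS n H - (gS n H - i) = i := by omega
  simp only [h1, h2]

theorem sum_trainSet (p : Pos Vtx) :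
    ∑ k ∈ trainSet n H p, k = wpot (verts n H) (some true) (wA n H) p := by
  rw [pot_wA, trainSet, Finset.sum_filter, ← Finset.sum_range_reflect]
  refine Finset.sum_congr rfl (fun i hi => ?_)
  simp only [mem_range] at hi
  have h1 : gS n H + 1 - 1 - i = gS n H - i := by omega
  have h2 : gS n H - (gS n H - i) = i := by omega
  simp only [h1, h2]

/-- The potential of the train is at least that of a packed train. -/
theorem train_ge (p : Pos Vtx) : ∑ i ∈ range (wpot (verts n H) (some true) wC p), i ≤
    wpot (verts n H) (some true) (wA n H) p := by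
  rw [← card_trainSet, ← sum_trainSet]
  exact sum_range_card_le _

/-- If the train cannot move along its path, it is packed. -/
theorem train_packed {p : Pos Vtx} (h0 : ∀ i, p (.tr i) ≠ some false)
    (h : ∀ i < gS n H, p (.tr i) = some true → p (.tr (i + 1)) ≠ none) :
    wpot (verts n H) (some true) (wA n H) p = ∑ i ∈ range (wpot (verts n H) (some true) wC p), i ∧
      (0 < wpot (verts n H) (some true) wC p → p (.tr (gS n H)) = some true) := by
  have h1 : trainSet n H p = range (trainSet n H p).card := by
    refine eq_range_of_closed (fun k hk => ?_)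
    simp only [trainSet, mem_filter, mem_range] at hk ⊢
    refine ⟨by omega, ?_⟩
    have h2 := h (gS n H - (k + 1)) (by omega) hk.2
    have h3 : gS n H - (k + 1) + 1 = gS n H - k := by omega
    rw [h3] at h2
    have h4 := h0 (gS n H - k)
    rcases h5 : p (.tr (gS n H - k)) with _ | b
    · exact absurd h5 h2
    · cases b
      · exact absurd h5 h4
      · rfl
  constructor
  · rw [← card_trainSet, ← sum_trainSet, ← h1]
  · intro hpos
    rw [← card_trainSet] at hpos
    have : 0 ∈ trainSet n H p := by rw [h1]; simpa using hpos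
    simp only [trainSet, mem_filter] at this
    simpa using this.2

end Pool.Agent.Lib.MP_8607b9_lc
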