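import Pool.Agent.Lib.MP_8607b9_lc.NBLeft

/-!
# If Breaker wins, Right wins
-/

namespace Pool.Agent.Lib.MP_8607b9_lc

open Finset

variable {n : ℕ} {H : List (List ℕ)}

/-- The supply of tokens of Right for the element `x` (including the tokens on the gates). -/
def wS (x : ℕ) : Vtx → ℕ
  | .res y _ => if y = x then 1 else 0
  | .que y => if y = x then 1 else 0
  | .gate _ _ => 1
  | _ => 0

/-- The number of vacant gates. -/
def vac (n : ℕ) (H : List (List ℕ)) (p : Pos Vtx) : ℕ := wpot (verts n H) none wG p

/-- The unclaimed elements. -/
def unc (n : ℕ) (M B : Finset ℕ) : Finset ℕ := (range n).filter (fun x => x ∉ M ∧ x ∉ B)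

theorem mem_unc {M B : Finset ℕ} {x : ℕ} : x ∈ unc n M B ↔ x < n ∧ x ∉ M ∧ x ∉ B := by
  rw [unc, Finset.mem_filter, Finset.mem_range]

theorem unc_left (M B : Finset ℕ) (x : ℕ) : unc n (insert x M) B = (unc n M B).erase x := by
  ext y
  rw [Finset.mem_erase, mem_unc, mem_unc, Finset.mem_insert]
  tauto

theorem unc_right (M B : Finset ℕ) (x : ℕ) : unc n M (insert x B) = (unc n M B).erase x := by
  ext y
  rw [Finset.mem_erase, mem_unc, mem_unc, Finset.mem_insert]
  tauto

/-- All tokens of the train need at least `d` moves to enter a gate. -/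
def Front (n : ℕ) (H : List (List ℕ)) (p : Pos Vtx) (d : ℕ) : Prop :=
  ∀ i, p (.tr i) = some true → i + d ≤ gS n H + 1

/-- Some token of Right can move to a vacant gate. -/
def Transit (n : ℕ) (H : List (List ℕ)) (p : Pos Vtx) (B : Finset ℕ) : Prop :=
  ∃ x ∈ B, ∃ c j e, H[c]? = some e ∧ x ∈ e ∧ j < gN n ∧ p (.que x) = some false ∧
    p (.gate c j) = none

/-- The invariants of the strategy of Right. -/
structure RInv (n : ℕ) (H : List (List ℕ)) (p : Pos Vtx) (M B : Finset ℕ) (t s : ℕ) : Prop where
  hrho : ∀ x, p (.rho x) ≠ some true
  hres : ∀ x j, p (.res x j) ≠ some true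
  hrsv : ∀ i, p (.rsv i) = if i = t then some false else none
  hC : wpot (verts n H) (some true) wC p = gW n H
  hL : wpot (verts n H) (some true) (wL n H) p + t + s < gT n H + ∑ i ∈ range (gW n H), i
  hM : ∀ x, x ∉ M → p (.mid x) ≠ some true ∧ p (.que x) ≠ some true
  hBM : ∀ x ∈ B, x < n → x ∉ M
  hB : ∀ x ∈ B, x < n → p (.mid x) = some false
  hS : ∀ x < n, gK n H ≤ wpot (verts n H) (some false) (wS x) p

/-- The unclaimed elements are untouched. -/
def Unt (n : ℕ) (M B : Finset ℕ) (p : Pos Vtx) : Prop :=
  ∀ x ∈ unc n M B, p (.lam x) = some true ∧ p (.mid x) = none ∧ p (.rho x) = some false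

/-- Right answers by a move which is not a move of his spare token. -/
theorem RInv.right (hH : ∀ e ∈ H, ∀ x ∈ e, x < n) {p : Pos Vtx} {M B : Finset ℕ} {t s : ℕ}
    (h : RInv n H p M B t s) {u v : Vtx} (he : Edge n H u v) (hu : p u = some false)
    (hv : p v = none) (h1 : ∀ x, u ≠ .mid x) (h2 : ∀ i, u ≠ .rsv i) (h3 : ∀ i, v ≠ .rsv i)
    (hw : ∀ z, wS z u ≤ wS z v) : RInv n H (step false p u v) M B t s where
  hrho x := by rw [Ne, step_opp hu hv (by decide)]; exact h.hrho x
  hres x j := by rw [Ne, step_opp hu hv (by decide)]; exact h.hres x j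
  hrsv i := by rw [step_other _ _ (h2 i).symm (h3 i).symm]; exact h.hrsv i
  hC := by rw [pot_step_opp hu hv (by decide)]; exact h.hC
  hL := by rw [pot_step_opp hu hv (by decide)]; exact h.hL
  hM x hx := by
    rw [Ne, Ne, step_opp hu hv (by decide), step_opp hu hv (by decide)]
    exact h.hM x hx
  hBM := h.hBM
  hB x hx hxn := by
    have h4 := h.hB x hx hxn
    rw [step_other _ _ (h1 x).symm (fun h' => by rw [← h', h4] at hv; exact absurd hv (by simp))]
    exact h4
  hS x hx := by
    have h4 := edge_mem he hH
    have h5 := pot_step (w := wS x) h4.1 h4.2 hu hv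
    have h6 := h.hS x hx
    have h7 := hw x
    omega

/-- Right claims an element. -/
theorem RInv.claim {p : Pos Vtx} {M B : Finset ℕ} {t s : ℕ}
    (h : RInv n H p M B t s) {y : ℕ} (hy : y < n → p (.mid y) = some false) (hyM : y < n → y ∉ M) :
    RInv n H p M (insert y B) t s where
  hrho := h.hrho
  hres := h.hres
  hrsv := h.hrsv
  hC := h.hC
  hL := h.hL
  hM := h.hM
  hBM x hx hxn := by
    rcases Finset.mem_insert.1 hx with rfl | hx
    · exact hyM hxn
    · exact h.hBM x hx hxn
  hB x hx hxn := by
    rcases Finset.mem_insert.1 hx with rfl | hx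
    · exact hy hxn
    · exact h.hB x hx hxn
  hS := h.hS

/-- A move of Left other than entering a gate with the train. -/
theorem RInv.left (hH : ∀ e ∈ H, ∀ x ∈ e, x < n) {p : Pos Vtx} {M B : Finset ℕ} {t : ℕ}
    (h : RInv n H p M B t 0) {u v : Vtx} (he : Edge n H u v) (hu : p u = some true)
    (hv : p v = none) (hno : ∀ c j, ¬ (u = .tr (gS n H) ∧ v = .gate c j)) :
    (∃ x, x < n ∧ u = .lam x ∧ v = .mid x ∧ x ∉ B ∧
      RInv n H (step true p u v) (insert x M) B t 1) ∨
    ((∀ x, u ≠ .lam x) ∧ (∀ x, v ≠ .mid x) ∧ (∀ x, u ≠ .rho x) ∧
      RInv n H (step true p u v) M B t 1) := by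
  have h4 := edge_mem he hH
  have hwL : wL n H v + 1 ≤ wL n H u ∨ ∃ c j, u = .tr (gS n H) ∧ v = .gate c j := by
    cases he with
    | enter c j _ _ => exact Or.inr ⟨c, j, rfl, rfl⟩
    | lam x hx => left; simp [wL]
    | rho x hx => left; simp [wL]
    | mid x hx => left; simp [wL]
    | res x j hx hj => left; simp [wL]
    | que c j x e hc hx hj => left; simp [wL]
    | tr i hi => left; simp only [wL]; omega
    | rsv i hi => left; simp only [wL]; omega
  replace hwL := hwL.resolve_right (fun ⟨c, j, h'⟩ => hno c j h')
  have hL : wpot (verts n H) (some true) (wL n H) (step true p u v) + t + 1 <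
      gT n H + ∑ i ∈ range (gW n H), i := by
    have h5 := pot_step (w := wL n H) h4.1 h4.2 hu hv
    have h6 := h.hL
    omega
  have hC : wC u = wC v → wpot (verts n H) (some true) wC (step true p u v) = gW n H := by
    intro h'
    have h5 := pot_step (w := wC) h4.1 h4.2 hu hv
    have h6 := h.hC
    omega
  have hS : ∀ x < n, gK n H ≤ wpot (verts n H) (some false) (wS x) (step true p u v) := by
    intro x hx
    rw [pot_step_opp hu hv (by decide)]
    exact h.hS x hx
  have hB : ∀ x ∈ B, x < n → step true p u v (.mid x) = some false := by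
    intro x hx hxn
    rw [step_opp hu hv (by decide)]
    exact h.hB x hx hxn
  cases he with
  | lam x hx =>
    left
    have hxB : x ∉ B := fun h' => by rw [h.hB x h' hx] at hv; exact absurd hv (by simp)
    refine ⟨x, hx, rfl, rfl, hxB, ?_, ?_, ?_, hC rfl, hL, ?_, ?_, hB, hS⟩
    · intro y
      rw [step_other _ _ (by simp) (by simp)]
      exact h.hrho y
    · intro y j
      rw [step_other _ _ (by simp) (by simp)]
      exact h.hres y j
    · intro y
      rw [step_other _ _ (by simp) (by simp)]
      exact h.hrsv y
    · intro y hy
      rw [Finset.mem_insert, not_or] at hy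
      rw [step_other _ _ (by simp) (by simpa using hy.1), step_other _ _ (by simp) (by simp)]
      exact h.hM y hy.2
    · intro y hy hyn
      rw [Finset.mem_insert, not_or]
      exact ⟨fun h' => hxB (h' ▸ hy), h.hBM y hy hyn⟩
  | rho x hx => exact absurd hu (h.hrho x)
  | res x j hx hj => exact absurd hu (h.hres x j)
  | rsv i hi =>
    rw [h.hrsv i] at hu
    split at hu <;> simp at hu
  | enter c j _ _ => exact absurd ⟨rfl, rfl⟩ (hno c j)
  | mid x hx =>
    right
    have hxM : x ∈ M := by
      by_contra h'
      exact (h.hM x h').1 hu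
    refine ⟨by simp, by simp, by simp, ?_, ?_, ?_, hC rfl, hL, ?_, h.hBM, hB, hS⟩
    · intro y
      rw [step_other _ _ (by simp) (by simp)]
      exact h.hrho y
    · intro y j
      rw [step_other _ _ (by simp) (by simp)]
      exact h.hres y j
    · intro y
      rw [step_other _ _ (by simp) (by simp)]
      exact h.hrsv y
    · intro y hy
      have hyx : y ≠ x := fun h' => hy (h' ▸ hxM)
      rw [step_other _ _ (by simpa using hyx) (by simp), step_other _ _ (by simp)
        (by simpa using hyx)]
      exact h.hM y hy
  | que c j x e hc hx hj =>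
    right
    have hxM : x ∈ M := by
      by_contra h'
      exact (h.hM x h').2 hu
    refine ⟨by simp, by simp, by simp, ?_, ?_, ?_, hC rfl, hL, ?_, h.hBM, hB, hS⟩
    · intro y
      rw [step_other _ _ (by simp) (by simp)]
      exact h.hrho y
    · intro y j
      rw [step_other _ _ (by simp) (by simp)]
      exact h.hres y j
    · intro y
      rw [step_other _ _ (by simp) (by simp)]
      exact h.hrsv y
    · intro y hy
      have hyx : y ≠ x := fun h' => hy (h' ▸ hxM)
      rw [step_other _ _ (by simp) (by simp), step_other _ _ (by simpa using hyx)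
        (by simp)]
      exact h.hM y hy
  | tr i hi =>
    right
    refine ⟨by simp, by simp, by simp, ?_, ?_, ?_, hC rfl, hL, ?_, h.hBM, hB, hS⟩
    · intro y
      rw [step_other _ _ (by simp) (by simp)]
      exact h.hrho y
    · intro y j
      rw [step_other _ _ (by simp) (by simp)]
      exact h.hres y j
    · intro y
      rw [step_other _ _ (by simp) (by simp)]
      exact h.hrsv y
    · intro y hy
      rw [step_other _ _ (by simp) (by simp), step_other _ _ (by simp) (by simp)]
      exact h.hM y hy

/-- The number of vacant gates after a move. -/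
theorem vac_step (hH : ∀ e ∈ H, ∀ x ∈ e, x < n) {p : Pos Vtx} {c : Bool} {u v : Vtx}
    (he : Edge n H u v) (hu : p u = some c) (hv : p v = none) :
    vac n H (step c p u v) + wG v = vac n H p := by
  have h4 := edge_mem he hH
  have h5 := pot_step_none (w := wG) h4.1 h4.2 hu hv
  have h6 : wG u = 0 := by cases he <;> rfl
  unfold vac
  omega

theorem pot_le_of_le' {S : Finset Vtx} {o : Option Bool} {w w' : Vtx → ℕ} {p : Pos Vtx}
    (h : ∀ v ∈ S, p v = o → w v ≤ w' v) : wpot S o w p ≤ wpot S o w' p := by
  unfold wpot
  refine Finset.sum_le_sum (fun x hx => ?_)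
  split
  · next h' => exact h x hx h'
  · exact le_refl _

/-- The positions (with Left to move) of the strategy of Right. -/
def SInv (n : ℕ) (H : List (List ℕ)) (p : Pos Vtx) : Prop :=
  ∃ M B t, RInv n H p M B t 0 ∧ Unt n M B p ∧ BW n H M B ∧
    (Front n H p ((unc n M B).card + 2 * vac n H p + 1) ∨
      ((unc n M B).card = 0 ∧ (vac n H p = 0 ∨
        (Transit n H p B ∧ Front n H p (2 * vac n H p)))))

theorem RInv.weaken {p : Pos Vtx} {M B : Finset ℕ} {t s : ℕ} (h : RInv n H p M B t s) :
    RInv n H p M B t 0 :=
  { h with hL := by have := h.hL; omega }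

/-- The answer of Right when all elements are claimed. -/
theorem fill (hH : ∀ e ∈ H, ∀ x ∈ e, x < n) {p : Pos Vtx} {M B : Finset ℕ} {t : ℕ}
    (h : RInv n H p M B t 1) (hunc : unc n M B = ∅) (hBW : BW n H M B)
    (hfr : vac n H p = 0 ∨ Front n H p (2 * vac n H p) ∨
      (Transit n H p B ∧ ∀ i, p (.tr i) = some true → i + 2 * vac n H p ≤ gS n H + 2)) :
    ∃ p', Move (Edge n H) false p p' ∧ SInv n H p' := by
  have hunt : ∀ q, Unt n M B q := fun q x hx => by rw [hunc] at hx; exact absurd hx (by simp)
  rcases Nat.eq_zero_or_pos (vac n H p) with h0 | hpos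
  · -- all gates are filled
    have h1 : ∑ i ∈ range (gW n H), i ≤ wpot (verts n H) (some true) (wL n H) p := by
      have h2 := train_ge (n := n) (H := H) p
      rw [h.hC] at h2
      refine h2.trans (pot_le_of_le (fun v => ?_) p)
      cases v <;> simp [wA, wL]
    have h2 : t < gT n H := by have := h.hL; omega
    have he := Edge.rsv (n := n) (H := H) t h2
    have hu : p (.rsv t) = some false := by rw [h.hrsv t]; simp
    have hv : p (.rsv (t + 1)) = none := by rw [h.hrsv (t + 1)]; simp
    have h4 := edge_mem he hH
    refine ⟨_, ⟨_, _, he, hu, hv, rfl⟩, M, B, t + 1, ?_, hunt _, hBW, Or.inr ⟨by rw [hunc]; rfl,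
      Or.inl ?_⟩⟩
    · refine ⟨fun x => ?_, fun x j => ?_, fun i => ?_, ?_, ?_, fun x hx => ?_, h.hBM,
        fun x hx hxn => ?_, fun x hx => ?_⟩
      · rw [step_other _ _ (by simp) (by simp)]; exact h.hrho x
      · rw [step_other _ _ (by simp) (by simp)]; exact h.hres x j
      · by_cases h5 : i = t + 1
        · subst h5
          rw [step_target]
          simp
        · rw [if_neg h5]
          by_cases h6 : i = t
          · subst h6
            exact step_source _ _ (by simp)
          · rw [step_other _ _ (by simpa using h6) (by simpa using h5), h.hrsv i, if_neg h6]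
      · rw [pot_step_opp hu hv (by decide)]; exact h.hC
      · rw [pot_step_opp hu hv (by decide)]
        have := h.hL
        omega
      · rw [step_other _ _ (by simp) (by simp), step_other _ _ (by simp) (by simp)]
        exact h.hM x hx
      · rw [step_other _ _ (by simp) (by simp)]; exact h.hB x hx hxn
      · have h5 := pot_step (w := wS x) h4.1 h4.2 hu hv
        have h6 := h.hS x hx
        simp only [wS] at h5
        omega
    · have := vac_step hH he hu hv
      simp only [wG] at this
      omega
  · by_cases htr : Transit n H p B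
    · -- fill a gate
      obtain ⟨x, hxB, c, j, e, hc, hxe, hj, hq, hg⟩ := htr
      have he := Edge.que (n := n) (H := H) c j x e hc hxe hj
      have hvac := vac_step hH he hq hg
      simp only [wG] at hvac
      refine ⟨_, ⟨_, _, he, hq, hg, rfl⟩, M, B, t,
        (h.right hH he hq hg (by simp) (by simp) (by simp) (fun z => ?_)).weaken, hunt _, hBW,
        Or.inl (fun i hi => ?_)⟩
      · simp only [wS]
        split <;> omega
      · rw [step_opp hq hg (by decide)] at hi
        rw [hunc]
        simp only [Finset.card_empty]
        rcases hfr with hfr | hfr | hfr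
        · omega
        · have := hfr i hi
          omega
        · have := hfr.2 i hi
          omega
    · -- bring a new token
      have hfr' : Front n H p (2 * vac n H p) := by
        rcases hfr with hfr | hfr | hfr
        · omega
        · exact hfr
        · exact absurd hfr.1 htr
      obtain ⟨g, hgS, hg, hgw⟩ := exists_of_pot_pos (show 0 < wpot (verts n H) none wG p from hpos)
      obtain ⟨c, j, rfl⟩ : ∃ c j, g = .gate c j := by
        cases g <;> simp [wG] at hgw
        exact ⟨_, _, rfl⟩
      have hcj : c < H.length ∧ j < gN n := by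
        simpa [verts] using hgS
      obtain ⟨e, hc⟩ : ∃ e, H[c]? = some e := ⟨H[c]'hcj.1, by simp [hcj.1]⟩
      have heH : e ∈ H := List.mem_of_getElem? hc
      obtain ⟨x, hxe, hxB⟩ := hBW.hits hH (fun x hx => by
        by_contra h'
        rw [not_or] at h'
        have : x ∈ unc n M B := mem_unc.2 ⟨hx, h'⟩
        rw [hunc] at this
        exact absurd this (by simp)) e heH
      have hxn : x < n := hH e heH x hxe
      have hq : p (.que x) = none := by
        rcases h5 : p (.que x) with _ | b
        · rfl
        · cases b
          · exact absurd ⟨x, hxB, c, j, e, hc, hxe, hcj.2, h5, hg⟩ htr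
          · exact absurd h5 (h.hM x (h.hBM x hxB hxn)).2
      obtain ⟨j', hj', hres⟩ : ∃ j' < gK n H, p (.res x j') = some false := by
        by_contra h'
        push Not at h'
        have h5 : wpot (verts n H) (some false) (wS x) p ≤ wpot (verts n H) (some false) wG p := by
          refine pot_le_of_le' (fun v hv hpv => ?_)
          cases v with
          | res y j =>
            have h6 : y < n ∧ j < gK n H := by simpa [verts] using hv
            by_cases hyx : y = x
            · subst hyx
              exact absurd hpv (h' j h6.2)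
            · simp [wS, hyx]
          | que y =>
            by_cases hyx : y = x
            · subst hyx
              rw [hq] at hpv
              exact absurd hpv (by simp)
            · simp [wS, hyx]
          | gate c j => simp [wS, wG]
          | _ => simp [wS]
        have h6 := h.hS x hxn
        have h7 := pot_total (verts n H) wG p
        rw [sum_wG] at h7
        unfold vac at hpos
        omega
      have he := Edge.res (n := n) (H := H) x j' hxn hj'
      have hvac := vac_step hH he hres hq
      simp only [wG, add_zero] at hvac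
      refine ⟨_, ⟨_, _, he, hres, hq, rfl⟩, M, B, t,
        (h.right hH he hres hq (by simp) (by simp) (by simp) (fun z => ?_)).weaken, hunt _, hBW,
        Or.inr ⟨by rw [hunc]; rfl, Or.inr ⟨⟨x, hxB, c, j, e, hc, hxe, hcj.2, step_target _ _ _ _,
          ?_⟩, fun i hi => ?_⟩⟩⟩
      · simp [wS]
      · rw [step_other _ _ (by simp) (by simp)]
        exact hg
      · rw [step_opp hres hq (by decide)] at hi
        rw [hvac]
        exact hfr' i hi

/-- Right claims the unclaimed element `y`. -/
theorem claim_move (hH : ∀ e ∈ H, ∀ x ∈ e, x < n) {p : Pos Vtx} {M B : Finset ℕ} {t : ℕ}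
    (h : RInv n H p M B t 1) (hu : Unt n M B p) {y : ℕ} (hy : y ∈ unc n M B)
    (hBW : BW n H M (insert y B))
    (hfr : Front n H p ((unc n M B).card + 2 * vac n H p)) :
    ∃ p', Move (Edge n H) false p p' ∧ SInv n H p' := by
  obtain ⟨-, h1, h2⟩ := hu y hy
  have hyn : y < n := (mem_unc.1 hy).1
  have hyM : y ∉ M := (mem_unc.1 hy).2.1
  have he := Edge.rho (n := n) (H := H) y hyn
  have hvac := vac_step hH he h2 h1
  simp only [wG, add_zero] at hvac
  refine ⟨_, ⟨_, _, he, h2, h1, rfl⟩, M, insert y B, t,
    ((h.right hH he h2 h1 (by simp) (by simp) (by simp) (fun z => ?_)).claim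
      (fun _ => step_target _ _ _ _) (fun _ => hyM)).weaken, ?_, hBW, Or.inl (fun i hi => ?_)⟩
  · simp [wS]
  · intro x hx
    rw [unc_right, Finset.mem_erase] at hx
    obtain ⟨h3, h4, h5⟩ := hu x hx.2
    rw [step_other _ _ (by simp) (by simp), step_other _ _ (by simp) (by simpa using hx.1),
      step_other _ _ (by simpa using hx.1) (by simp)]
    exact ⟨h3, h4, h5⟩
  · rw [step_opp h2 h1 (by decide)] at hi
    rw [hvac, unc_right, Finset.card_erase_of_mem hy]
    have h6 := hfr i hi
    have h7 : 0 < (unc n M B).card := Finset.card_pos.2 ⟨y, hy⟩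
    omega

/-- The strategy of Right: every move of Left has an answer. -/
theorem sInv_step (hH : ∀ e ∈ H, ∀ x ∈ e, x < n) {p p' : Pos Vtx} (hp : SInv n H p)
    (hm : Move (Edge n H) true p p') : ∃ p'', Move (Edge n H) false p' p'' ∧ SInv n H p'' := by
  obtain ⟨M, B, t, hR, hU, hBW, hfr⟩ := hp
  obtain ⟨u, v, he, hu, hv, rfl⟩ := hm
  have hvac := vac_step hH he hu hv
  -- the train cannot enter a gate
  have hno : ∀ c j, ¬ (u = .tr (gS n H) ∧ v = .gate c j) := by
    rintro c j ⟨rfl, rfl⟩
    simp only [wG] at hvac
    rcases hfr with hfr | ⟨-, hfr | ⟨-, hfr⟩⟩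
    · have := hfr _ hu; omega
    · omega
    · have := hfr _ hu; omega
  -- the distance of the train decreases by at most one
  have hfront : ∀ d, Front n H p d → ∀ i, step true p u v (.tr i) = some true →
      i + d ≤ gS n H + 2 := by
    intro d hd i hi
    by_cases h1 : v = .tr i
    · subst h1
      cases he with
      | tr k hk =>
        have := hd k hu
        omega
    · by_cases h2 : u = .tr i
      · subst h2
        have := hd i hu
        omega
      · rw [step_other _ _ (Ne.symm h2) (Ne.symm h1)] at hi
        have := hd i hi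
        omega
  rcases hR.left hH he hu hv hno with ⟨x, hxn, rfl, rfl, hxB, hR'⟩ | ⟨hul, hvm, hur, hR'⟩
  · -- Left claims `x`
    simp only [wG, add_zero] at hvac
    have hfr0 : ∀ d, Front n H p d → Front n H (step true p (.lam x) (.mid x)) d := by
      intro d hd i hi
      rw [step_other _ _ (by simp) (by simp)] at hi
      exact hd i hi
    have hU' : Unt n (insert x M) B (step true p (.lam x) (.mid x)) := by
      intro z hz
      rw [unc_left, Finset.mem_erase] at hz
      obtain ⟨h3, h4, h5⟩ := hU z hz.2
      rw [step_other _ _ (by simpa using hz.1) (by simp), step_other _ _ (by simp)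
        (by simpa using hz.1), step_other _ _ (by simp) (by simp)]
      exact ⟨h3, h4, h5⟩
    by_cases hxM : x ∈ M
    · -- the element was already claimed by Left
      rw [Finset.insert_eq_self.2 hxM] at hR' hU'
      rcases Finset.eq_empty_or_nonempty (unc n M B) with hemp | ⟨y, hy⟩
      · refine fill hH hR' hemp hBW ?_
        rw [hvac]
        rcases hfr with hfr | ⟨-, hfr | ⟨htr, hfr⟩⟩
        · right; left
          intro i hi
          have := hfr0 _ hfr i hi
          rw [hvac] at *
          omega
        · exact Or.inl hfr
        · right; left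
          exact hfr0 _ hfr
      · have hcard : 0 < (unc n M B).card := Finset.card_pos.2 ⟨y, hy⟩
        refine claim_move hH hR' hU' hy (hBW.insert y) ?_
        rcases hfr with hfr | ⟨h0, -⟩
        · intro i hi
          have := hfr0 _ hfr i hi
          rw [hvac]
          omega
        · omega
    · -- a new element
      have hxu : x ∈ unc n M B := mem_unc.2 ⟨hxn, hxM, hxB⟩
      have hcard : 0 < (unc n M B).card := Finset.card_pos.2 ⟨x, hxu⟩
      have hcard' : (unc n (insert x M) B).card + 1 = (unc n M B).card := by
        rw [unc_left, Finset.card_erase_of_mem hxu]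
        omega
      have hfr1 : Front n H p ((unc n M B).card + 2 * vac n H p + 1) := by
        rcases hfr with hfr | ⟨h0, -⟩
        · exact hfr
        · omega
      obtain ⟨y, hy, hBW'⟩ := hBW.answer hxn hxM hxB
      by_cases hyu : y ∈ unc n (insert x M) B
      · refine claim_move hH hR' hU' hyu hBW' (fun i hi => ?_)
        have := hfr0 _ hfr1 i hi
        rw [hvac]
        omega
      · -- the answer is a pass
        have hunc : unc n (insert x M) (insert y B) = unc n (insert x M) B := by
          rw [unc_right, Finset.erase_eq_of_notMem hyu]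
        have hyB : y < n → y ∈ B := by
          intro hyn
          by_contra h'
          exact hyu (mem_unc.2 ⟨hyn, hy, h'⟩)
        have hR'' : RInv n H (step true p (.lam x) (.mid x)) (insert x M) (insert y B) t 1 :=
          hR'.claim (fun hyn => hR'.hB y (hyB hyn) hyn) (fun _ => hy)
        have hU'' : Unt n (insert x M) (insert y B) (step true p (.lam x) (.mid x)) := by
          intro z hz
          rw [hunc] at hz
          exact hU' z hz
        rcases Finset.eq_empty_or_nonempty (unc n (insert x M) B) with hemp | ⟨y', hy'⟩
        · refine fill hH hR'' (hunc.trans hemp) hBW' (Or.inr (Or.inl (fun i hi => ?_)))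
          have := hfr0 _ hfr1 i hi
          rw [hvac]
          omega
        · refine claim_move hH hR'' hU'' (y := y') (by rw [hunc]; exact hy') (hBW'.insert y')
            (fun i hi => ?_)
          have := hfr0 _ hfr1 i hi
          rw [hunc, hvac]
          omega
  · -- another move
    have hU' : Unt n M B (step true p u v) := by
      intro z hz
      obtain ⟨h3, h4, h5⟩ := hU z hz
      have hvl : ∀ x, v ≠ .lam x := by
        intro x hx
        subst hx
        cases he
      have hvr : ∀ x, v ≠ .rho x := by
        intro x hx
        subst hx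
        cases he
      rw [step_other _ _ (hul z).symm (hvl z).symm, step_other _ _ ?_ (hvm z).symm,
        step_other _ _ (hur z).symm (hvr z).symm]
      · exact ⟨h3, h4, h5⟩
      · rintro rfl
        rw [h4] at hu
        exact absurd hu (by simp)
    have hvle : vac n H (step true p u v) ≤ vac n H p := by omega
    rcases Finset.eq_empty_or_nonempty (unc n M B) with hemp | ⟨y, hy⟩
    · refine fill hH hR' hemp hBW ?_
      rcases hfr with hfr | ⟨-, hfr | ⟨htr, hfr⟩⟩
      · right; left
        intro i hi
        have := hfront _ hfr i hi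
        omega
      · left
        omega
      · by_cases hg : ∃ c j, v = .gate c j
        · obtain ⟨c, j, rfl⟩ := hg
          simp only [wG] at hvac
          right; left
          intro i hi
          have := hfront _ hfr i hi
          omega
        · by_cases hv0 : vac n H (step true p u v) = 0
          · exact Or.inl hv0
          · right; right
            have hvac' : vac n H (step true p u v) = vac n H p := by
              have h6 : wG v = 0 := by
                cases v <;> first | rfl | exact absurd ⟨_, _, rfl⟩ hg
              omega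
            refine ⟨?_, fun i hi => ?_⟩
            · obtain ⟨x, hxB, c, j, e, hc, hxe, hj, hq, hgv⟩ := htr
              refine ⟨x, hxB, c, j, e, hc, hxe, hj, ?_, ?_⟩
              · rw [step_opp hu hv (by decide)]
                exact hq
              · rw [step_other _ _ ?_ (fun h' => hg ⟨c, j, h'.symm⟩)]
                · exact hgv
                · rintro rfl
                  cases he
            · rw [hvac']
              exact hfront _ hfr i hi
    · have hcard : 0 < (unc n M B).card := Finset.card_pos.2 ⟨y, hy⟩
      refine claim_move hH hR' hU' hy (hBW.insert y) ?_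
      rcases hfr with hfr | ⟨h0, -⟩
      · intro i hi
        have := hfront _ hfr i hi
        omega
      · omega

/-! ### The initial position -/

theorem start_wL : wpot (verts n H) (some true) (wL n H) (start n H) =
    3 * n + wpot (verts n H) (some true) (wA n H) (start n H) := by
  unfold wpot
  rw [sum_verts, sum_verts]
  have h1 : ∑ x ∈ range n, (if start n H (.lam x) = some true then wL n H (.lam x) else 0) =
      ∑ x ∈ range n, 3 :=
    Finset.sum_congr rfl (fun x hx => by simp [start, Finset.mem_range.1 hx, wL])
  have h2 : ∑ x ∈ range n, (if start n H (.rho x) = some true then wL n H (.rho x) else 0) = 0 :=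
    Finset.sum_eq_zero (fun x hx => by simp [start, Finset.mem_range.1 hx])
  have h3 : ∑ x ∈ range n, ∑ j ∈ range (gK n H),
      (if start n H (.res x j) = some true then wL n H (.res x j) else 0) = 0 :=
    Finset.sum_eq_zero (fun x hx => Finset.sum_eq_zero (fun j hj => by
      simp [start, Finset.mem_range.1 hx, Finset.mem_range.1 hj]))
  have h4 : ∑ i ∈ range (gT n H + 1), (if start n H (.rsv i) = some true then wL n H (.rsv i)
      else 0) = 0 :=
    Finset.sum_eq_zero (fun x hx => by
      simp only [start]
      split <;> simp)
  rw [h1, h2, h3, h4]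
  simp [start, wA, wL]
  ring

theorem start_wS {x : ℕ} (hx : x < n) :
    wpot (verts n H) (some false) (wS x) (start n H) = gK n H := by
  unfold wpot
  rw [sum_verts]
  have h3 : ∑ y ∈ range n, ∑ j ∈ range (gK n H),
      (if start n H (.res y j) = some false then wS x (.res y j) else 0) = gK n H := by
    rw [Finset.sum_eq_single x]
    · have : ∀ j ∈ range (gK n H),
          (if start n H (.res x j) = some false then wS x (.res x j) else 0) = 1 := by
        intro j hj
        simp [start, hx, Finset.mem_range.1 hj, wS]
      rw [Finset.sum_congr rfl this]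
      simp
    · intro y _ hy
      refine Finset.sum_eq_zero (fun j _ => ?_)
      simp [wS, hy]
    · intro h
      exact absurd (Finset.mem_range.2 hx) h
  rw [h3]
  simp [start, wS]

theorem start_vac : vac n H (start n H) = gK n H := by
  unfold vac wpot
  rw [sum_verts]
  simp [start, wG, gK]
  all_goals (intro i _ j _; exact ite_self 0)

/-- **If Breaker wins the Maker-Breaker game (as second player), then Left, moving first, does
not win Node Blocking.** -/
theorem right_wins (hH : ∀ e ∈ H, ∀ x ∈ e, x < n) (h : BW n H ∅ ∅) :
    ¬ Wins (Edge n H) true (start n H) := by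
  refine not_wins_of_inv (SInv n H) (fun p p' hp hm => sInv_step hH hp hm) _ ?_
  have hunc : unc n ∅ ∅ = range n := by
    ext x
    rw [mem_unc, Finset.mem_range]
    simp
  refine ⟨∅, ∅, 0, ⟨fun x => ?_, fun x j => ?_, fun i => ?_, start_wC, ?_, fun x _ => ?_,
    by simp, by simp, fun x hx => (start_wS hx).ge⟩, fun x hx => ?_, h, Or.inl (fun i hi => ?_)⟩
  · simp only [start]
    split <;> simp
  · simp only [start]
    split <;> simp
  · simp only [start]
  · have h1 := start_wL (n := n) (H := H)
    have h3 := start_wA (n := n) (H := H)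
    have h4 := tri_two (gW n H)
    rw [h1]
    obtain ⟨w, hw⟩ : ∃ w, gW n H = w + 1 := ⟨gW n H - 1, by have := gW_pos (n := n) (H := H); omega⟩
    have h5 : gW n H = 6 * n + 2 + 2 * (gK n H * n) := rfl
    have h6 : gS n H = gW n H + (n + 2 * gK n H) := rfl
    have h7 : gT n H = gW n H * (n + 2 * gK n H + 1) + 3 * n + 1 := rfl
    generalize wpot (verts n H) (some true) (wA n H) (start n H) = A at *
    generalize ∑ i ∈ range (gW n H), i = s at *
    generalize gK n H * n = kn at *
    generalize gK n H = k at *
    rw [h7]
    rw [h6] at h3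
    rw [hw] at h3 h4 h5 ⊢
    simp only [Nat.add_sub_cancel] at h4
    nlinarith
  · simp [start]
  · rw [hunc, Finset.mem_range] at hx
    simp [start, hx]
  · rw [hunc, start_vac]
    simp only [start] at hi
    have h1 : i < gW n H := by
      by_contra h'
      rw [if_neg h'] at hi
      exact absurd hi (by simp)
    have h6 : gS n H = gW n H + (n + 2 * gK n H) := rfl
    rw [Finset.card_range]
    omega

end Pool.Agent.Lib.MP_8607b9_lc
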