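import Pool.Agent.Lib.MP_8607b9_lc.Build

/-!
# The negation of a formula

The negation of a closed prenex formula with matrix in conjunctive normal form is brought into the
same form by means of additional existential variables which select a clause all of whose literals
are false.
-/

namespace Pool.Agent.Lib.MP_8607b9_lc

open Pool.Agent.Lib.MP_0f8b55_lc

/-- The matrix of the negation: `n` is the number of variables of the formula and `M` its
matrix. -/
def negM (n : ℕ) (M : List (List (ℕ × Bool))) : List (List (ℕ × Bool)) :=
  M.zipIdx.map (fun Cc => (n + Cc.2, true)) ::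
    M.zipIdx.flatMap (fun Cc => Cc.1.map (fun l => [(n + Cc.2, false), (l.1, !l.2)]))

/-- The negation of a formula. -/
def negF (φ : Formula) : Formula :=
  (φ.1.map (fun q => !q) ++ φ.2.map (fun _ => true), negM φ.1.length φ.2)

theorem negF_closed {φ : Formula} (hφ : φ.Closed) : (negF φ).Closed := by
  intro C hC l hl
  simp only [negF, List.length_append, List.length_map]
  simp only [negF, negM, List.mem_cons, List.mem_flatMap, List.mem_map, Prod.exists,
    List.mem_zipIdx_iff_getElem?] at hC
  rcases hC with rfl | ⟨D, c, hc, l1, l2, hl', rfl⟩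
  · simp only [List.mem_map, Prod.exists, List.mem_zipIdx_iff_getElem?] at hl
    obtain ⟨D, c, hc, rfl⟩ := hl
    have := (List.getElem?_eq_some_iff.1 hc).1
    simp only
    omega
  · have h1 := (List.getElem?_eq_some_iff.1 hc).1
    have h2 := hφ D (List.mem_of_getElem? hc) _ hl'
    simp only at h2
    simp only [List.mem_cons, List.not_mem_nil, or_false] at hl
    rcases hl with rfl | rfl
    · simp only
      omega
    · simp only
      omega

theorem truth_exists (M : List (List (ℕ × Bool))) (T : List Bool) : ∀ (a : List Bool),
    (∀ b ∈ T, b = true) → (Truth M a T ↔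
      ∃ s : List Bool, s.length = T.length ∧ ∀ C ∈ M, ∃ l ∈ C, (a ++ s)[l.1]? = some l.2) := by
  induction T with
  | nil =>
    intro a _
    simp only [Truth, List.length_nil, List.length_eq_zero_iff]
    constructor
    · intro h
      exact ⟨[], rfl, by simpa using h⟩
    · rintro ⟨s, rfl, h⟩
      simpa using h
  | cons b T ih =>
    intro a hT
    obtain rfl : b = true := hT b (by simp)
    simp only [Truth]
    constructor
    · rintro ⟨b, hb⟩
      obtain ⟨s, hs, h⟩ := (ih (a ++ [b]) (fun c hc => hT c (by simp [hc]))).1 hb
      exact ⟨b :: s, by simp [hs], by simpa using h⟩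
    · rintro ⟨s, hs, h⟩
      cases s with
      | nil => simp at hs
      | cons b s =>
        refine ⟨b, (ih (a ++ [b]) (fun c hc => hT c (by simp [hc]))).2 ⟨s, by simpa using hs, ?_⟩⟩
        simpa using h

/-- The selectors find a clause all of whose literals are false. -/
theorem truth_sel {M : List (List (ℕ × Bool))} {a : List Bool}
    (hM : ∀ C ∈ M, ∀ l ∈ C, l.1 < a.length) :
    Truth (negM a.length M) a (M.map (fun _ => true)) ↔ ¬ Truth M a [] := by
  rw [truth_exists _ _ _ (by simp)]
  simp only [Truth, List.length_map]
  push Not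
  constructor
  · rintro ⟨s, hs, h⟩
    obtain ⟨l, hl, h1⟩ := h _ (List.mem_cons_self ..)
    simp only [List.mem_map, Prod.exists, List.mem_zipIdx_iff_getElem?] at hl
    obtain ⟨D, c, hc, rfl⟩ := hl
    refine ⟨D, List.mem_of_getElem? hc, fun l hl => ?_⟩
    have h2 : [(a.length + c, false), (l.1, !l.2)] ∈ negM a.length M := by
      simp only [negM, List.mem_cons, List.mem_flatMap, List.mem_map, Prod.exists,
        List.mem_zipIdx_iff_getElem?]
      exact Or.inr ⟨D, c, hc, l.1, l.2, hl, rfl⟩
    obtain ⟨l', hl', h3⟩ := h _ h2
    simp only [List.mem_cons, List.not_mem_nil, or_false] at hl'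
    rcases hl' with rfl | rfl
    · rw [h1] at h3
      simp at h3
    · have h4 := hM D (List.mem_of_getElem? hc) l hl
      rw [List.getElem?_append_left h4] at h3
      rw [h3]
      cases l.2 <;> simp
  · rintro ⟨C, hC, h⟩
    obtain ⟨c, hc⟩ := List.getElem?_of_mem hC
    have hcM := (List.getElem?_eq_some_iff.1 hc).1
    refine ⟨(List.range M.length).map (fun d => decide (d = c)), by simp, fun D hD => ?_⟩
    have hs : ∀ d < M.length, (a ++ (List.range M.length).map (fun d => decide (d = c)))[
        a.length + d]? = some (decide (d = c)) := by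
      intro d hd
      rw [List.getElem?_append_right (by omega)]
      simp [hd]
    simp only [negM, List.mem_cons, List.mem_flatMap, List.mem_map, Prod.exists,
      List.mem_zipIdx_iff_getElem?] at hD
    rcases hD with rfl | ⟨E, d, hd, l1, l2, hl, rfl⟩
    · refine ⟨(a.length + c, true), ?_, ?_⟩
      · simp only [List.mem_map, Prod.exists, List.mem_zipIdx_iff_getElem?]
        exact ⟨C, c, hc, rfl⟩
      · rw [hs c hcM]
        simp
    · by_cases hdc : d = c
      · subst hdc
        rw [hc] at hd
        obtain rfl : C = E := by simpa using hd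
        refine ⟨(l1, !l2), by simp, ?_⟩
        have h4 := hM C hC _ hl
        have h5 := h _ hl
        simp only at h4 h5 ⊢
        rw [List.getElem?_append_left h4, List.getElem?_eq_getElem h4]
        rw [List.getElem?_eq_getElem h4] at h5
        simp only [Option.some.injEq]
        cases h6 : a[l1] <;> cases h7 : l2 <;> simp_all
      · have h6 := (List.getElem?_eq_some_iff.1 hd).1
        refine ⟨(a.length + d, false), by simp, ?_⟩
        rw [hs d h6]
        simp [hdc]

theorem truth_neg_aux {n : ℕ} {M : List (List (ℕ × Bool))} (hM : ∀ C ∈ M, ∀ l ∈ C, l.1 < n) :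
    ∀ (Q a : List Bool), a.length + Q.length = n →
      (Truth (negM n M) a (Q.map (fun q => !q) ++ M.map (fun _ => true)) ↔ ¬ Truth M a Q) := by
  intro Q
  induction Q with
  | nil =>
    intro a ha
    simp only [List.length_nil, Nat.add_zero] at ha
    subst ha
    simpa using truth_sel hM
  | cons q Q ih =>
    intro a ha
    have h : ∀ b, Truth (negM n M) (a ++ [b]) (Q.map (fun q => !q) ++ M.map (fun _ => true)) ↔
        ¬ Truth M (a ++ [b]) Q := by
      intro b
      refine ih (a ++ [b]) ?_
      simp at ha ⊢
      omega
    cases q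
    · simp only [List.map_cons, Bool.not_false, List.cons_append, Truth]
      push Not
      exact exists_congr h
    · simp only [List.map_cons, Bool.not_true, List.cons_append, Truth]
      push Not
      exact forall_congr' h

/-- The negation of a closed formula is true if and only if the formula is false. -/
theorem truth_neg {φ : Formula} (hφ : φ.Closed) :
    Truth (negF φ).2 [] (negF φ).1 ↔ ¬ Truth φ.2 [] φ.1 :=
  truth_neg_aux hφ φ.1 [] (by simp)

open Pool.Agent.Lib.PolyTime in
theorem PT.negF {α : Type} [Enc α] {f : α → Formula} (hf : PT f) : PT (fun a => negF (f a)) := by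
  have h1 : PT (fun a => (f a).1.map (fun q => !q) ++ (f a).2.map (fun _ => true)) :=
    (PT.map hf.fst' (g := fun _ (q : Bool) => !q) (PT.not PT.snd)).append
      (PT.map hf.snd' (g := fun _ _ => true) (PT.const true))
  have h2 : PT (fun a => (f a).2.zipIdx) := hf.snd'.zipIdx
  have h3 : PT (fun a => (f a).1.length) := hf.fst'.length
  have h4 : PT (fun a => (f a).2.zipIdx.map (fun Cc => ((f a).1.length + Cc.2, true))) :=
    PT.map h2 (g := fun a (Cc : List (ℕ × Bool) × ℕ) => ((f a).1.length + Cc.2, true))
      (((h3.comp PT.fst).add PT.snd.snd').pair (PT.const true))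
  have h5 : PT (fun a => (f a).2.zipIdx.flatMap (fun Cc => Cc.1.map (fun l =>
      [((f a).1.length + Cc.2, false), (l.1, !l.2)]))) := by
    refine PT.flatMap h2 (g := fun a (Cc : List (ℕ × Bool) × ℕ) => Cc.1.map (fun l =>
      [((f a).1.length + Cc.2, false), (l.1, !l.2)])) ?_
    refine PT.map PT.snd.fst' (g := fun (x : α × (List (ℕ × Bool) × ℕ)) (l : ℕ × Bool) =>
      [((f x.1).1.length + x.2.2, false), (l.1, !l.2)]) ?_
    refine PT.cons ?_ (PT.cons ?_ (PT.const []))
    · exact ((h3.comp PT.fst.fst').add PT.fst.snd'.snd').pair (PT.const false)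
    · exact PT.snd.fst'.pair (PT.not PT.snd.snd')
  exact h1.pair (PT.cons h4 h5)

end Pool.Agent.Lib.MP_8607b9_lc
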