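import Pool.Agent.Lib.MP_8607b9_lc.QBF
import Pool.Agent.Lib.MP_8607b9_lc.Neg
import Pool.Agent.Lib.MP_8607b9_lc.NBRight

/-!
# The reduction of `TQBF` to `NB-DAG`
-/

namespace Pool.Agent.Lib.MP_8607b9_lc

open Pool.Agent.Lib.MP_0f8b55_lc Pool.Agent.Lib.PolyTime

/-- A closed formula is false if and only if Left, moving first, wins the Node Blocking game of the
Maker-Breaker game of the formula. -/
theorem wins_iff_not_truth {φ : Formula} (hφ : φ.Closed) :
    Wins (Edge (mbOf φ).1 (mbOf φ).2) true (start (mbOf φ).1 (mbOf φ).2) ↔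
      ¬ Truth φ.2 [] φ.1 := by
  constructor
  · intro h hT
    exact right_wins (mbOf_lt φ hφ) (breaker_of_true φ hφ hT) h
  · intro h
    exact left_wins (mbOf_lt φ hφ) (maker_of_false φ hφ h)

/-- A closed formula is true if and only if Left, moving first, wins the Node Blocking game of its
negation. -/
theorem truth_iff_wins {φ : Formula} (hφ : φ.Closed) : Truth φ.2 [] φ.1 ↔
    Wins (Edge (mbOf (negF φ)).1 (mbOf (negF φ)).2) true
      (start (mbOf (negF φ)).1 (mbOf (negF φ)).2) := by
  rw [wins_iff_not_truth (negF_closed hφ), truth_neg hφ, not_not]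

/-- **`TQBF` is reducible to `NB-DAG` in polynomial time.** -/
theorem tqbf_reduces_nbdag : Reduces TQBF NBDAG := by
  have hpt : PT (fun φ : {φ : Formula // φ.Closed} =>
      (⟨nbOf (mbOf (negF φ.1)), nbOf_valid _⟩ : {I : NBData // I.Valid})) :=
    PT.congr_enc (PT.nbOf (PT.mbOf (PT.negF (PT.val (p := Formula.Closed))))) (fun _ => rfl)
  refine ⟨fun φ => ⟨nbOf (mbOf (negF φ.1)), nbOf_valid _⟩, ?_, fun φ => ?_⟩
  · have e1 : TQBF.enc = (code : {φ : Formula // φ.Closed} → List Bool) := funext code_tqbf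
    have e2 : NBDAG.enc = (code : {I : NBData // I.Valid} → List Bool) := funext code_nbdag
    rw [e1, e2]
    exact hpt.computable
  · exact (truth_iff_wins φ.2).trans (nbOf_yes _).symm

end Pool.Agent.Lib.MP_8607b9_lc
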