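import Mathlib.Data.Finset.Card
import Mathlib.Data.Fintype.EquivFin
import Mathlib.Tactic

/-!
# Maker-Breaker games

The elements are `0, …, n - 1` and the winning sets of Maker are the lists in `H`. Maker moves
first. `M` is the set of the elements of Maker, `B` the set of the elements of Breaker (possibly
together with some junk).
-/

namespace Pool.Agent.Lib.MP_8607b9_lc

/-- Maker, who is to move, has a winning strategy. -/
inductive MW (n : ℕ) (H : List (List ℕ)) : Finset ℕ → Finset ℕ → Prop
  | win (M B : Finset ℕ) (e : List ℕ) : e ∈ H → (∀ x ∈ e, x ∈ M) → MW n H M B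
  | move (M B : Finset ℕ) (x : ℕ) : x < n → x ∉ M → x ∉ B →
      (∀ y, y ∉ insert x M → MW n H (insert x M) (insert y B)) → MW n H M B

/-- Maker is to move and Breaker has a strategy preventing Maker from owning a winning set (Breaker
answers `x` by `f x`; he may pass, by choosing an element of `B` or an element `≥ n`). -/
inductive BW (n : ℕ) (H : List (List ℕ)) : Finset ℕ → Finset ℕ → Prop
  | mk (M B : Finset ℕ) (f : ℕ → ℕ) : (∀ e ∈ H, ∃ x ∈ e, x ∉ M) →
      (∀ x, x < n → x ∉ M → x ∉ B → f x ∉ insert x M) →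
      (∀ x, x < n → x ∉ M → x ∉ B → BW n H (insert x M) (insert (f x) B)) →
      BW n H M B

variable {n : ℕ} {H : List (List ℕ)}

theorem MW.mono {M B : Finset ℕ} (h : MW n H M B) : ∀ {B' : Finset ℕ}, B' ⊆ B → MW n H M B' := by
  induction h with
  | win M B e he h => exact fun _ => MW.win _ _ e he h
  | move M B x hx hM hB _ ih =>
    intro B' hB'
    exact MW.move _ _ x hx hM (fun h => hB (hB' h))
      (fun y hy => ih y hy (Finset.insert_subset_insert _ hB'))

/-- The situation after a pass of Breaker. -/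
theorem MW.pass {M B : Finset ℕ} {x : ℕ}
    (h : ∀ y, y ∉ insert x M → MW n H (insert x M) (insert y B)) : MW n H (insert x M) B := by
  obtain ⟨y, hy⟩ := Infinite.exists_notMem_finset (insert x M)
  exact (h y hy).mono (Finset.subset_insert _ _)

theorem BW.not_full {M B : Finset ℕ} (h : BW n H M B) : ∀ e ∈ H, ∃ x ∈ e, x ∉ M := by
  cases h with
  | mk M B f hH _ _ => exact hH

theorem BW.answer {M B : Finset ℕ} (h : BW n H M B) {x : ℕ} (hx : x < n) (hM : x ∉ M)
    (hB : x ∉ B) : ∃ y, y ∉ insert x M ∧ BW n H (insert x M) (insert y B) := by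
  cases h with
  | mk M B f _ h1 h2 => exact ⟨f x, h1 x hx hM hB, h2 x hx hM hB⟩

theorem BW.of {M B : Finset ℕ} (hH : ∀ e ∈ H, ∃ x ∈ e, x ∉ M)
    (h : ∀ x, x < n → x ∉ M → x ∉ B → ∃ y, y ∉ insert x M ∧ BW n H (insert x M) (insert y B)) :
    BW n H M B := by
  classical
  refine BW.mk M B (fun x => if h' : x < n ∧ x ∉ M ∧ x ∉ B then
    (h x h'.1 h'.2.1 h'.2.2).choose else 0) hH (fun x h1 h2 h3 => ?_) (fun x h1 h2 h3 => ?_)
  · rw [dif_pos ⟨h1, h2, h3⟩]
    exact (h x h1 h2 h3).choose_spec.1
  · rw [dif_pos ⟨h1, h2, h3⟩]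
    exact (h x h1 h2 h3).choose_spec.2

/-- The situation of Breaker gets better if he owns more elements. -/
theorem BW.mono {M B : Finset ℕ} (h : BW n H M B) :
    ∀ {B' : Finset ℕ}, B ⊆ B' → BW n H M B' := by
  induction h with
  | mk M B f hH h1 _ ih =>
    intro B' hB'
    refine BW.mk _ _ f hH (fun x hx hM hB => h1 x hx hM (fun h => hB (hB' h)))
      (fun x hx hM hB => ?_)
    exact ih x hx hM (fun h => hB (hB' h)) (Finset.insert_subset_insert _ hB')

/-- The situation after a pass of Breaker followed by the choice of any element. -/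
theorem BW.insert {M B : Finset ℕ} (h : BW n H M B) (y : ℕ) : BW n H M (insert y B) :=
  h.mono (Finset.subset_insert _ _)

/-- If all elements are taken, Breaker owns an element of every winning set. -/
theorem BW.hits {M B : Finset ℕ} (h : BW n H M B) (hn : ∀ e ∈ H, ∀ x ∈ e, x < n)
    (hall : ∀ x < n, x ∈ M ∨ x ∈ B) : ∀ e ∈ H, ∃ x ∈ e, x ∈ B := by
  intro e he
  obtain ⟨x, hx, hxM⟩ := h.not_full e he
  exact ⟨x, hx, (hall x (hn e he x hx)).resolve_left hxM⟩

end Pool.Agent.Lib.MP_8607b9_lc
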