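import Pool.Agent.Lib.MP_8607b9_lc.Game
import Pool.Agent.Lib.MP_8607b9_lc.MB

/-!
# If Maker wins, Left wins
-/

namespace Pool.Agent.Lib.MP_8607b9_lc

open Finset

variable {n : ℕ} {H : List (List ℕ)}

theorem Wins.left {p : Pos Vtx} (u v : Vtx) (he : Edge n H u v)
    (hu : p u = some true) (hv : p v = none)
    (h : ∀ u' v', Edge n H u' v' → step true p u v u' = some false → step true p u v v' = none →
      Wins (Edge n H) true (step false (step true p u v) u' v')) : Wins (Edge n H) true p :=
  Wins.of u v he hu hv h

/-- Tokens of Right never reach the path of the train. -/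
theorem noR_tr {p : Pos Vtx} {u v : Vtx} (h0 : ∀ i, p (.tr i) ≠ some false)
    (he : Edge n H u v) (hu : p u = some false) (hv : p v = none) (i : ℕ) :
    step false p u v (.tr i) ≠ some false := by
  by_cases h1 : Vtx.tr i = v
  · subst h1
    cases he with
    | tr j hj => exact absurd hu (h0 _)
  · by_cases h2 : Vtx.tr i = u
    · subst h2
      exact absurd hu (h0 _)
    · rw [step_other _ _ h2 h1]
      exact h0 i

/-- The effect of a move of Left followed by a move of Right on the potentials. -/
theorem two_moves (hH : ∀ e ∈ H, ∀ x ∈ e, x < n) {p : Pos Vtx} {u v u' v' : Vtx}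
    (he : Edge n H u v) (hu : p u = some true) (hv : p v = none) (he' : Edge n H u' v')
    (hu' : step true p u v u' = some false) (hv' : step true p u v v' = none) :
    (wpot (verts n H) (some false) (wR n H) (step false (step true p u v) u' v') + 1 ≤
      wpot (verts n H) (some false) (wR n H) p) ∧
    (∀ w : Vtx → ℕ, wpot (verts n H) (some true) w (step false (step true p u v) u' v') + w u =
      wpot (verts n H) (some true) w p + w v) ∧
    (∀ w : Vtx → ℕ, wpot (verts n H) (some false) w (step false (step true p u v) u' v') + w u' =
      wpot (verts n H) (some false) w p + w v') := by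
  have h1 := edge_mem he hH
  have h2 := edge_mem he' hH
  have h3 : ∀ w : Vtx → ℕ, wpot (verts n H) (some true) w (step false (step true p u v) u' v') +
      w u = wpot (verts n H) (some true) w p + w v := by
    intro w
    rw [pot_step_opp hu' hv' (by decide)]
    exact pot_step h1.1 h1.2 hu hv
  have h4 : ∀ w : Vtx → ℕ, wpot (verts n H) (some false) w (step false (step true p u v) u' v') +
      w u' = wpot (verts n H) (some false) w p + w v' := by
    intro w
    rw [pot_step h2.1 h2.2 hu' hv', pot_step_opp hu hv (by decide)]
  refine ⟨?_, h3, h4⟩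
  have h5 := h4 (wR n H)
  have h6 := wR_edge he'
  omega

/-- After a token of the train has entered a gate: Left wins by moving the train. -/
theorem wins3 (hH : ∀ e ∈ H, ∀ x ∈ e, x < n) : ∀ (N : ℕ) (p : Pos Vtx),
    wpot (verts n H) (some false) (wR n H) p ≤ N → (∀ i, p (.tr i) ≠ some false) →
    wpot (verts n H) (some false) (wR n H) p + ∑ i ∈ range (wpot (verts n H) (some true) wC p), i <
      wpot (verts n H) (some true) (wA n H) p → Wins (Edge n H) true p := by
  intro N
  induction N with
  | zero =>
    intro p hN h0 hlt
    by_cases h : ∃ i < gS n H, p (.tr i) = some true ∧ p (.tr (i + 1)) = none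
    · obtain ⟨i, hi, h1, h2⟩ := h
      refine Wins.left (.tr i) (.tr (i + 1)) (Edge.tr i hi) h1 h2 (fun u' v' he' hu' hv' => ?_)
      have := (two_moves hH (Edge.tr i hi) h1 h2 he' hu' hv').1
      omega
    · push Not at h
      have := (train_packed h0 h).1
      omega
  | succ N ih =>
    intro p hN h0 hlt
    by_cases h : ∃ i < gS n H, p (.tr i) = some true ∧ p (.tr (i + 1)) = none
    · obtain ⟨i, hi, h1, h2⟩ := h
      refine Wins.left (.tr i) (.tr (i + 1)) (Edge.tr i hi) h1 h2 (fun u' v' he' hu' hv' => ?_)
      obtain ⟨h3, h4, -⟩ := two_moves hH (Edge.tr i hi) h1 h2 he' hu' hv'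
      have h5 := h4 wC
      have h6 := h4 (wA n H)
      simp only [wC] at h5
      simp only [wA] at h6
      refine ih _ (by omega) (noR_tr (fun j => ?_) he' hu' hv') ?_
      · rw [Ne, step_opp h1 h2 (by decide)]
        exact h0 j
      · have h7 : wpot (verts n H) (some true) wC (step false (step true p (.tr i) (.tr (i + 1)))
          u' v') = wpot (verts n H) (some true) wC p := by omega
        rw [h7]
        omega
    · push Not at h
      have := (train_packed h0 h).1
      omega

/-- The tokens of Right that count against Left. -/
def wZ (e : List ℕ) (c0 : ℕ) : Vtx → ℕ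
  | .que x => if x ∈ e then 1 else 0
  | .gate c _ => if c = c0 then 1 else 0
  | _ => 0

/-- The plugs of Left. -/
def wQ (e : List ℕ) : Vtx → ℕ
  | .que x => if x ∈ e then 1 else 0
  | _ => 0

theorem wZ_le (e : List ℕ) (c0 : ℕ) (v : Vtx) : wZ e c0 v ≤ 1 := by
  cases v <;> simp only [wZ] <;> first | omega | (split <;> omega)

theorem pot_wQ_le (e : List ℕ) (p : Pos Vtx) : wpot (verts n H) (some true) (wQ e) p ≤ n := by
  have h1 : wpot (verts n H) (some true) (wQ e) p ≤ ∑ v ∈ verts n H, wQ e v := by
    unfold wpot
    refine Finset.sum_le_sum (fun v _ => ?_)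
    split <;> omega
  refine h1.trans ?_
  rw [sum_verts]
  simp only [wQ, Finset.sum_const_zero, zero_add, add_zero]
  calc ∑ x ∈ range n, (if x ∈ e then 1 else 0) ≤ ∑ x ∈ range n, 1 := by
        refine Finset.sum_le_sum (fun v _ => ?_)
        split <;> omega
    _ = n := by simp

theorem gates_le {e : List ℕ} {c0 : ℕ} (hc : c0 < H.length) {p : Pos Vtx}
    (h : ∀ j < gN n, p (.gate c0 j) = some false) :
    gN n ≤ wpot (verts n H) (some false) (wZ e c0) p := by
  unfold wpot
  rw [sum_verts]
  have h1 : gN n ≤ ∑ c ∈ range H.length, ∑ j ∈ range (gN n),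
      (if p (.gate c j) = some false then wZ e c0 (.gate c j) else 0) := by
    have h2 := Finset.single_le_sum (f := fun c => ∑ j ∈ range (gN n),
      (if p (.gate c j) = some false then wZ e c0 (.gate c j) else 0)) (s := range H.length)
      (fun i _ => Nat.zero_le _) (Finset.mem_range.2 hc)
    refine le_trans ?_ h2
    have h3 : ∀ j ∈ range (gN n),
        (if p (.gate c0 j) = some false then wZ e c0 (.gate c0 j) else 0) = 1 := by
      intro j hj
      rw [if_pos (h j (Finset.mem_range.1 hj))]
      simp [wZ]
    simp only [Finset.sum_congr rfl h3]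
    simp
  omega

/-- After Maker has completed the winning set `e`. -/
theorem wins2 (hH : ∀ e ∈ H, ∀ x ∈ e, x < n) {e : List ℕ} {c0 : ℕ} (hc : H[c0]? = some e) :
    ∀ (N : ℕ) (p : Pos Vtx),
    wpot (verts n H) (some false) (wR n H) p ≤ N → (∀ i, p (.tr i) ≠ some false) →
    (∀ x ∈ e, p (.que x) = some true ∨ p (.mid x) = some true) →
    (∀ j, p (.gate c0 j) ≠ some true) →
    wpot (verts n H) (some false) (wZ e c0) p ≤ n + wpot (verts n H) (some true) (wQ e) p →
    wpot (verts n H) (some false) (wR n H) p + ∑ i ∈ range (wpot (verts n H) (some true) wC p), i <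
      wpot (verts n H) (some true) (wA n H) p + wpot (verts n H) (some true) wC p →
    0 < wpot (verts n H) (some true) wC p → Wins (Edge n H) true p := by
  have hc0 : c0 < H.length := (List.getElem?_eq_some_iff.1 hc).1
  have heH : e ∈ H := List.mem_of_getElem? hc
  intro N
  induction N with
  | zero =>
    intro p hN h0 hm hg hZ hlt hC
    -- any move wins, because Right cannot answer
    have key : ∀ u v, Edge n H u v → p u = some true → p v = none → Wins (Edge n H) true p := by
      intro u v he hu hv
      refine Wins.left u v he hu hv (fun u' v' he' hu' hv' => ?_)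
      have := (two_moves hH he hu hv he' hu' hv').1
      omega
    by_cases hq : ∃ x ∈ e, p (.que x) = none
    · obtain ⟨x, hx, hqx⟩ := hq
      have h1 : p (.mid x) = some true := (hm x hx).resolve_left (by rw [hqx]; simp)
      exact key _ _ (Edge.mid x (hH e heH x hx)) h1 hqx
    · by_cases h : ∃ i < gS n H, p (.tr i) = some true ∧ p (.tr (i + 1)) = none
      · obtain ⟨i, hi, h1, h2⟩ := h
        exact key _ _ (Edge.tr i hi) h1 h2
      · push Not at h
        obtain ⟨h1, h2⟩ := train_packed h0 h
        have h3 := pot_wQ_le (n := n) (H := H) e p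
        by_cases hj : ∃ j < gN n, p (.gate c0 j) = none
        · obtain ⟨j, hj, hj'⟩ := hj
          exact key _ _ (Edge.enter c0 j hc0 hj) (h2 hC) hj'
        · push Not at hj
          have h4 := gates_le (e := e) hc0 (p := p) (fun j hj' => by
            rcases h5 : p (.gate c0 j) with _ | b
            · exact absurd h5 (hj j hj')
            · cases b
              · rfl
              · exact absurd h5 (hg j))
          simp only [gN] at h4
          omega
  | succ N ih =>
    intro p hN h0 hm hg hZ hlt hC
    have hnoR : ∀ {u v u' v'}, Edge n H u v → p u = some true → p v = none → Edge n H u' v' →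
        step true p u v u' = some false → step true p u v v' = none →
        ∀ i, step false (step true p u v) u' v' (.tr i) ≠ some false := by
      intro u v u' v' he hu hv he' hu' hv'
      exact noR_tr (fun j => by rw [Ne, step_opp hu hv (by decide)]; exact h0 j) he' hu' hv'
    by_cases hq : ∃ x ∈ e, p (.que x) = none
    · -- plug
      obtain ⟨x, hx, hqx⟩ := hq
      have h1 : p (.mid x) = some true := (hm x hx).resolve_left (by rw [hqx]; simp)
      have he := Edge.mid (n := n) (H := H) x (hH e heH x hx)
      refine Wins.left _ _ he h1 hqx (fun u' v' he' hu' hv' => ?_)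
      obtain ⟨h3, h4, h5⟩ := two_moves hH he h1 hqx he' hu' hv'
      have h6 := h4 wC
      have h7 := h4 (wA n H)
      have h8 := h4 (wQ e)
      have h9 := h5 (wZ e c0)
      have h10 := wZ_le e c0 v'
      simp only [wC, add_zero] at h6
      simp only [wA, add_zero] at h7
      simp only [wQ, hx, if_true] at h8
      refine ih _ (by omega) (hnoR he h1 hqx he' hu' hv') (fun y hy => ?_) (fun j => ?_)
        (by omega) (by rw [h6]; omega) (by omega)
      · rw [step_opp hu' hv' (by decide), step_opp hu' hv' (by decide)]
        by_cases hxy : y = x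
        · subst hxy
          left
          exact step_target _ _ _ _
        · rw [step_other _ _ (by simp) (by simpa using hxy),
            step_other _ _ (by simpa using hxy) (by simp)]
          exact hm y hy
      · rw [Ne, step_opp hu' hv' (by decide), step_other _ _ (by simp) (by simp)]
        exact hg j
    · push Not at hq
      by_cases h : ∃ i < gS n H, p (.tr i) = some true ∧ p (.tr (i + 1)) = none
      · -- move the train
        obtain ⟨i, hi, h1, h2⟩ := h
        have he := Edge.tr (n := n) (H := H) i hi
        refine Wins.left _ _ he h1 h2 (fun u' v' he' hu' hv' => ?_)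
        obtain ⟨h3, h4, h5⟩ := two_moves hH he h1 h2 he' hu' hv'
        have h6 := h4 wC
        have h7 := h4 (wA n H)
        have h8 := h4 (wQ e)
        have h9 := h5 (wZ e c0)
        simp only [wC] at h6
        simp only [wA] at h7
        simp only [wQ, add_zero] at h8
        have h6' : wpot (verts n H) (some true) wC (step false (step true p (.tr i) (.tr (i + 1)))
          u' v') = wpot (verts n H) (some true) wC p := by omega
        have h10 : wZ e c0 v' ≤ wZ e c0 u' := by
          cases he' with
          | lam x hx => simp [wZ]
          | rho x hx => simp [wZ]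
          | tr i hi => simp [wZ]
          | rsv i hi => simp [wZ]
          | enter c j hc hj =>
            exact absurd hu' (by
              rw [step_opp h1 h2 (by decide)]
              exact h0 _)
          | mid x hx =>
            by_cases hxe : x ∈ e
            · rw [step_other _ _ (by simp) (by simp)] at hv'
              exact absurd hv' (hq x hxe)
            · simp [wZ, hxe]
          | res x j hx hj =>
            by_cases hxe : x ∈ e
            · rw [step_other _ _ (by simp) (by simp)] at hv'
              exact absurd hv' (hq x hxe)
            · simp [wZ, hxe]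
          | que c j x e' hc' hx' hj =>
            by_cases hcc : c = c0
            · subst hcc
              rw [hc] at hc'
              obtain rfl : e = e' := by simpa using hc'
              simp [wZ, hx']
            · simp [wZ, hcc]
        refine ih _ (by omega) (hnoR he h1 h2 he' hu' hv') (fun y hy => ?_) (fun j => ?_)
          (by omega) (by rw [h6']; omega) (by omega)
        · rw [step_opp hu' hv' (by decide), step_opp hu' hv' (by decide),
            step_other _ _ (by simp) (by simp), step_other _ _ (by simp) (by simp)]
          exact hm y hy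
        · rw [Ne, step_opp hu' hv' (by decide), step_other _ _ (by simp) (by simp)]
          exact hg j
      · -- enter a gate
        push Not at h
        obtain ⟨h1, h2⟩ := train_packed h0 h
        have h3 := pot_wQ_le (n := n) (H := H) e p
        have hj : ∃ j < gN n, p (.gate c0 j) = none := by
          by_contra hj
          push Not at hj
          have h4 := gates_le (e := e) hc0 (p := p) (fun j hj' => by
            rcases h5 : p (.gate c0 j) with _ | b
            · exact absurd h5 (hj j hj')
            · cases b
              · rfl
              · exact absurd h5 (hg j))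
          simp only [gN] at h4
          omega
        obtain ⟨j, hj, hj'⟩ := hj
        have he := Edge.enter (n := n) (H := H) c0 j hc0 hj
        refine Wins.left _ _ he (h2 hC) hj' (fun u' v' he' hu' hv' => ?_)
        obtain ⟨h3, h4, h5⟩ := two_moves hH he (h2 hC) hj' he' hu' hv'
        have h6 := h4 wC
        have h7 := h4 (wA n H)
        simp only [wC] at h6
        simp only [wA] at h7
        refine wins3 hH _ _ (le_refl _) (hnoR he (h2 hC) hj' he' hu' hv') ?_
        obtain ⟨k, hk⟩ : ∃ k, wpot (verts n H) (some true) wC p = k + 1 := ⟨_, by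
          rw [Nat.sub_add_cancel hC]⟩
        have h8 : wpot (verts n H) (some true) wC (step false (step true p (.tr (gS n H))
          (.gate c0 j)) u' v') = k := by omega
        rw [h8]
        rw [hk, Finset.sum_range_succ] at h1 hlt
        omega

/-- While Maker has not completed a winning set. -/
theorem wins1 (hH : ∀ e ∈ H, ∀ x ∈ e, x < n) {M B : Finset ℕ} (hMB : MW n H M B) :
    ∀ (p : Pos Vtx), M ⊆ range n → (∀ i, p (.tr i) ≠ some false) →
    (∀ x ∈ M, p (.mid x) = some true) →
    (∀ x < n, x ∉ M → x ∉ B → p (.lam x) = some true ∧ p (.mid x) = none) →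
    (∀ c j, p (.gate c j) ≠ some true) →
    (∀ c e, H[c]? = some e → wpot (verts n H) (some false) (wZ e c) p ≤ M.card) →
    wpot (verts n H) (some false) (wR n H) p + ∑ i ∈ range (wpot (verts n H) (some true) wC p), i <
      wpot (verts n H) (some true) (wA n H) p + wpot (verts n H) (some true) wC p →
    0 < wpot (verts n H) (some true) wC p → Wins (Edge n H) true p := by
  induction hMB with
  | win M B e he hM =>
    intro p hn h0 hm _ hg hZ hlt hC
    obtain ⟨c, hc⟩ := List.getElem?_of_mem he
    have h1 := hZ c e hc
    have h2 := Finset.card_le_card hn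
    simp only [card_range] at h2
    exact wins2 hH hc _ p (le_refl _) h0 (fun x hx => Or.inr (hm x (hM x hx))) (hg c) (by omega)
      hlt hC
  | move M B x hx hM hB _ ih =>
    intro p hn h0 hm hu hg hZ hlt hC
    obtain ⟨hl, hmx⟩ := hu x hx hM hB
    have he := Edge.lam (n := n) (H := H) x hx
    refine Wins.left _ _ he hl hmx (fun u' v' he' hu' hv' => ?_)
    obtain ⟨h3, h4, h5⟩ := two_moves hH he hl hmx he' hu' hv'
    have h6 := h4 wC
    have h7 := h4 (wA n H)
    simp only [wC, add_zero] at h6
    simp only [wA, add_zero] at h7
    have hmid : ∀ z ∈ insert x M, step true p (.lam x) (.mid x) (.mid z) = some true := by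
      intro z hz
      by_cases hzx : z = x
      · subst hzx
        exact step_target _ _ _ _
      · rw [step_other _ _ (by simp) (by simpa using hzx)]
        exact hm z ((Finset.mem_insert.1 hz).resolve_left hzx)
    -- the answer in the Maker-Breaker game
    obtain ⟨y, hy, hyv⟩ : ∃ y, y ∉ insert x M ∧ ∀ z, v' = .mid z → z = y := by
      by_cases h : ∃ z, v' = .mid z
      · obtain ⟨z, rfl⟩ := h
        refine ⟨z, fun hz => ?_, fun z' hz' => by simpa using hz'.symm⟩
        rw [hmid z hz] at hv'
        exact absurd hv' (by simp)
      · obtain ⟨y, hy⟩ := Infinite.exists_notMem_finset (insert x M)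
        exact ⟨y, hy, fun z hz => absurd ⟨z, hz⟩ h⟩
    refine ih y hy _ (Finset.insert_subset (Finset.mem_range.2 hx) hn)
      (noR_tr (fun j => by rw [Ne, step_opp hl hmx (by decide)]; exact h0 j) he' hu' hv')
      (fun z hz => ?_) (fun z hzn hzM hzB => ?_) (fun c j => ?_) (fun c e hc => ?_)
      (by rw [h6]; omega) (by omega)
    · rw [step_opp hu' hv' (by decide)]
      exact hmid z hz
    · have hzx : z ≠ x := fun h => hzM (by rw [h]; exact Finset.mem_insert_self _ _)
      obtain ⟨h8, h9⟩ := hu z hzn (fun h => hzM (Finset.mem_insert_of_mem h))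
        (fun h => hzB (Finset.mem_insert_of_mem h))
      have h10 : step true p (.lam x) (.mid x) (.mid z) = none := by
        rw [step_other _ _ (by simp) (by simpa using hzx)]
        exact h9
      refine ⟨?_, ?_⟩
      · rw [step_opp hu' hv' (by decide), step_other _ _ (by simpa using hzx) (by simp)]
        exact h8
      · rw [step_other _ _ ?_ ?_]
        · exact h10
        · rintro rfl
          rw [h10] at hu'
          exact absurd hu' (by simp)
        · intro h
          exact hzB (by rw [hyv z h.symm]; exact Finset.mem_insert_self _ _)
    · rw [Ne, step_opp hu' hv' (by decide), step_other _ _ (by simp) (by simp)]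
      exact hg c j
    · have h8 := h5 (wZ e c)
      have h9 := wZ_le e c v'
      have h10 := hZ c e hc
      rw [Finset.card_insert_of_notMem hM]
      omega

/-! ### The initial position -/

theorem start_wR : wpot (verts n H) (some false) (wR n H) (start n H) =
    3 * n + 2 * (gK n H * n) + gT n H := by
  unfold wpot
  rw [sum_verts]
  have h1 : ∑ x ∈ range n, (if start n H (.lam x) = some false then wR n H (.lam x) else 0) = 0 :=
    Finset.sum_eq_zero (fun x hx => by simp [start, Finset.mem_range.1 hx])
  have h2 : ∑ x ∈ range n, (if start n H (.rho x) = some false then wR n H (.rho x) else 0) =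
      ∑ x ∈ range n, 3 :=
    Finset.sum_congr rfl (fun x hx => by simp [start, Finset.mem_range.1 hx, wR])
  have h3 : ∑ x ∈ range n, ∑ j ∈ range (gK n H),
      (if start n H (.res x j) = some false then wR n H (.res x j) else 0) =
      ∑ x ∈ range n, ∑ j ∈ range (gK n H), 2 :=
    Finset.sum_congr rfl (fun x hx => Finset.sum_congr rfl (fun j hj => by
      simp [start, Finset.mem_range.1 hx, Finset.mem_range.1 hj, wR]))
  have h4 : ∑ i ∈ range (gS n H + 1), (if start n H (.tr i) = some false then wR n H (.tr i)
      else 0) = 0 :=
    Finset.sum_eq_zero (fun x hx => by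
      simp only [start]
      split <;> simp)
  have h5 : ∑ i ∈ range (gT n H + 1), (if start n H (.rsv i) = some false then wR n H (.rsv i)
      else 0) = gT n H := by
    rw [Finset.sum_eq_single 0]
    · simp [start, wR]
    · intro i _ hi
      simp [start, hi]
    · simp
  rw [h1, h2, h3, h4, h5]
  simp [start]
  ring

theorem start_wC : wpot (verts n H) (some true) wC (start n H) = gW n H := by
  have hle : gW n H ≤ gS n H + 1 := by unfold gS; omega
  rw [pot_wC, ← Finset.sum_filter]
  have h1 : (range (gS n H + 1)).filter (fun i => start n H (.tr i) = some true) =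
      range (gW n H) := by
    ext i
    rw [Finset.mem_filter, Finset.mem_range, Finset.mem_range]
    simp only [start]
    constructor
    · rintro ⟨-, h⟩
      by_contra h'
      rw [if_neg h'] at h
      exact absurd h (by simp)
    · intro h
      exact ⟨by omega, by rw [if_pos h]⟩
  rw [h1]
  simp

theorem start_wA : wpot (verts n H) (some true) (wA n H) (start n H) +
    ∑ i ∈ range (gW n H), i = gW n H * gS n H := by
  have hle : gW n H ≤ gS n H + 1 := by unfold gS; omega
  rw [pot_wA, ← Finset.sum_filter]
  have h1 : (range (gS n H + 1)).filter (fun i => start n H (.tr i) = some true) =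
      range (gW n H) := by
    ext i
    rw [Finset.mem_filter, Finset.mem_range, Finset.mem_range]
    simp only [start]
    constructor
    · rintro ⟨-, h⟩
      by_contra h'
      rw [if_neg h'] at h
      exact absurd h (by simp)
    · intro h
      exact ⟨by omega, by rw [if_pos h]⟩
  rw [h1, ← Finset.sum_add_distrib]
  have h2 : ∀ i ∈ range (gW n H), gS n H - i + i = gS n H := by
    intro i hi
    have := Finset.mem_range.1 hi
    omega
  rw [Finset.sum_congr rfl h2]
  simp

theorem gW_pos : 0 < gW n H := by unfold gW; omega

theorem tri_two (k : ℕ) : (∑ i ∈ range k, i) * 2 = k * (k - 1) := Finset.sum_range_id_mul_two k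

/-- **If Maker wins the Maker-Breaker game, then Left, moving first, wins Node Blocking.** -/
theorem left_wins (hH : ∀ e ∈ H, ∀ x ∈ e, x < n) (h : MW n H ∅ ∅) :
    Wins (Edge n H) true (start n H) := by
  refine wins1 hH h _ (by simp) (fun i => ?_) (by simp) (fun x hx _ _ => ?_) (fun c j => ?_)
    (fun c e _ => ?_) ?_ (by rw [start_wC]; exact gW_pos)
  · simp only [start]
    split <;> simp
  · simp [start, hx]
  · simp [start]
  · have : wpot (verts n H) (some false) (wZ e c) (start n H) = 0 := by
      unfold wpot
      refine Finset.sum_eq_zero (fun v _ => ?_)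
      cases v <;> simp [start, wZ]
    rw [this]
    exact Nat.zero_le _
  · have h1 := start_wR (n := n) (H := H)
    have h2 := start_wC (n := n) (H := H)
    have h3 := start_wA (n := n) (H := H)
    have h4 := tri_two (gW n H)
    rw [h1, h2]
    obtain ⟨w, hw⟩ : ∃ w, gW n H = w + 1 := ⟨gW n H - 1, by have := gW_pos (n := n) (H := H); omega⟩
    have h5 : gW n H = 6 * n + 2 + 2 * (gK n H * n) := rfl
    have h6 : gS n H = gW n H + (n + 2 * gK n H) := rfl
    have h7 : gT n H = gW n H * (n + 2 * gK n H + 1) + 3 * n + 1 := rfl
    generalize wpot (verts n H) (some true) (wA n H) (start n H) = A at *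
    generalize ∑ i ∈ range (gW n H), i = s at *
    generalize gK n H * n = kn at *
    generalize gK n H = k at *
    rw [h7]
    rw [h6] at h3
    rw [hw] at h3 h4 h5 ⊢
    simp only [Nat.add_sub_cancel] at h4
    nlinarith

end Pool.Agent.Lib.MP_8607b9_lc
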