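import Pool.Agent.Lib.MP_8607b9_lc.Defs

/-!
# The Maker-Breaker game of a formula and the Node Blocking position of a Maker-Breaker game
-/

namespace Pool.Agent.Lib.MP_8607b9_lc

/-! ### From formulas to Maker-Breaker games

The variable `i` has the elements `4 i` (positive literal), `4 i + 1` (negative literal),
`4 i + 2` (spine), `4 i + 3` (auxiliary). -/

/-- The spine elements of the first `i` variables. -/
def spine (i : ℕ) : List ℕ := (List.range i).map (fun j => 4 * j + 2)

/-- The element of a literal. -/
def litElt (l : ℕ × Bool) : ℕ := 4 * l.1 + (if l.2 then 0 else 1)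

/-- The winning sets of a variable. -/
def stageEdges (q : Bool) (i : ℕ) : List (List ℕ) :=
  [spine i ++ (if q then [4 * i + 2, 4 * i, 4 * i + 1] else [4 * i, 4 * i + 1]),
   spine i ++ [4 * i + 2, 4 * i, 4 * i + 3],
   spine i ++ [4 * i + 2, 4 * i + 1, 4 * i + 3]]

/-- The winning sets of Maker in the game of a formula. -/
def hypOf (φ : Formula) : List (List ℕ) :=
  φ.1.zipIdx.flatMap (fun qi => stageEdges qi.1 qi.2) ++
    φ.2.map (fun C => spine φ.1.length ++ C.map litElt)

/-- The number of the elements and the winning sets of Maker in the game of a formula. -/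
def mbOf (φ : Formula) : ℕ × List (List ℕ) := (4 * φ.1.length, hypOf φ)

/-! ### From Maker-Breaker games to Node Blocking -/

/-- The vertices. -/
inductive Vtx where
  /-- start of the token of Left for the element `x` -/
  | lam (x : ℕ)
  /-- start of the token of Right for the element `x` -/
  | rho (x : ℕ)
  /-- the vertex for which the two tokens of `x` compete -/
  | mid (x : ℕ)
  /-- the vertex behind `mid x` -/
  | que (x : ℕ)
  /-- starts of further tokens of Right -/
  | res (x j : ℕ)
  /-- the path of the train of Left -/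
  | tr (i : ℕ)
  /-- the path of the spare moves of Right -/
  | rsv (i : ℕ)
  /-- the `j`-th gate of the winning set `c` -/
  | gate (c j : ℕ)
  deriving DecidableEq

/-- The number of gates of each winning set. -/
def gN (n : ℕ) : ℕ := 2 * n + 1

/-- The number of all gates; also the number of `res` tokens for each element. -/
def gK (n : ℕ) (H : List (List ℕ)) : ℕ := H.length * gN n

/-- The length of the train. -/
def gW (n : ℕ) (H : List (List ℕ)) : ℕ := 6 * n + 2 + 2 * (gK n H * n)

/-- The last vertex of the path of the train. -/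
def gS (n : ℕ) (H : List (List ℕ)) : ℕ := gW n H + (n + 2 * gK n H)

/-- The number of spare moves of Right. -/
def gT (n : ℕ) (H : List (List ℕ)) : ℕ := gW n H * (n + 2 * gK n H + 1) + 3 * n + 1

/-- The edges at the vertices `mid x`. -/
def edgesA (n : ℕ) : List (Vtx × Vtx) :=
  (List.range n).flatMap (fun x => [(Vtx.lam x, Vtx.mid x), (Vtx.rho x, Vtx.mid x),
    (Vtx.mid x, Vtx.que x)])

/-- The edges from `res x j` to `que x`. -/
def edgesB (n : ℕ) (H : List (List ℕ)) : List (Vtx × Vtx) :=
  (List.range n).flatMap (fun x => (List.range (gK n H)).map (fun j => (Vtx.res x j, Vtx.que x)))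

/-- The edges from `que x` to the gates. -/
def edgesC (n : ℕ) (H : List (List ℕ)) : List (Vtx × Vtx) :=
  H.zipIdx.flatMap (fun ec => ec.1.flatMap (fun x => (List.range (gN n)).map
    (fun j => (Vtx.que x, Vtx.gate ec.2 j))))

/-- The edges of the path of the train. -/
def edgesD (n : ℕ) (H : List (List ℕ)) : List (Vtx × Vtx) :=
  (List.range (gS n H)).map (fun i => (Vtx.tr i, Vtx.tr (i + 1)))

/-- The edges from the end of the path of the train to the gates. -/
def edgesE (n : ℕ) (H : List (List ℕ)) : List (Vtx × Vtx) :=
  (List.range H.length).flatMap (fun c => (List.range (gN n)).map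
    (fun j => (Vtx.tr (gS n H), Vtx.gate c j)))

/-- The edges of the path of the spare moves. -/
def edgesF (n : ℕ) (H : List (List ℕ)) : List (Vtx × Vtx) :=
  (List.range (gT n H)).map (fun i => (Vtx.rsv i, Vtx.rsv (i + 1)))

/-- The edges. -/
def edgesOf (n : ℕ) (H : List (List ℕ)) : List (Vtx × Vtx) :=
  edgesA n ++ (edgesB n H ++ (edgesC n H ++ (edgesD n H ++ (edgesE n H ++ edgesF n H))))

/-- The vertices with a token of Left. -/
def leftOf (n : ℕ) (H : List (List ℕ)) : List Vtx :=
  (List.range n).map Vtx.lam ++ (List.range (gW n H)).map Vtx.tr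

/-- The vertices with a token of Right. -/
def rightOf (n : ℕ) (H : List (List ℕ)) : List Vtx :=
  Vtx.rsv 0 :: ((List.range n).map Vtx.rho ++
    (List.range n).flatMap (fun x => (List.range (gK n H)).map (fun j => Vtx.res x j)))

/-- The number of a vertex. -/
def Vtx.num : Vtx → ℕ
  | lam x => 8 * x
  | rho x => 8 * x + 1
  | mid x => 8 * x + 2
  | que x => 8 * x + 3
  | res x j => 8 * Nat.pair x j + 4
  | tr i => 8 * i + 5
  | rsv i => 8 * i + 6
  | gate c j => 8 * Nat.pair c j + 7

/-- The position as an instance of Node Blocking (Left moves first). -/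
def nbOf (I : ℕ × List (List ℕ)) : NBData :=
  let E := (edgesOf I.1 I.2).map (fun e => (e.1.num, e.2.num))
  let L := (leftOf I.1 I.2).map Vtx.num
  let R := (rightOf I.1 I.2).map Vtx.num
  (1 + ((E.map (fun e => e.1 + e.2)).sum + (L.sum + R.sum)), E, L, R, true)

/-! ### The abstract game -/

/-- The edges of the graph. -/
inductive Edge (n : ℕ) (H : List (List ℕ)) : Vtx → Vtx → Prop
  | lam (x : ℕ) : x < n → Edge n H (.lam x) (.mid x)
  | rho (x : ℕ) : x < n → Edge n H (.rho x) (.mid x)
  | mid (x : ℕ) : x < n → Edge n H (.mid x) (.que x)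
  | res (x j : ℕ) : x < n → j < gK n H → Edge n H (.res x j) (.que x)
  | que (c j : ℕ) (x : ℕ) (e : List ℕ) : H[c]? = some e → x ∈ e → j < gN n →
      Edge n H (.que x) (.gate c j)
  | tr (i : ℕ) : i < gS n H → Edge n H (.tr i) (.tr (i + 1))
  | enter (c j : ℕ) : c < H.length → j < gN n → Edge n H (.tr (gS n H)) (.gate c j)
  | rsv (i : ℕ) : i < gT n H → Edge n H (.rsv i) (.rsv (i + 1))

/-- The initial position. -/
def start (n : ℕ) (H : List (List ℕ)) : Pos Vtx
  | .lam x => if x < n then some true else none
  | .rho x => if x < n then some false else none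
  | .mid _ => none
  | .que _ => none
  | .res x j => if x < n ∧ j < gK n H then some false else none
  | .tr i => if i < gW n H then some true else none
  | .rsv i => if i = 0 then some false else none
  | .gate _ _ => none

end Pool.Agent.Lib.MP_8607b9_lc
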