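import Pool.Agent.Lib.MP_8607b9_lc.MB
import Pool.Agent.Lib.MP_8607b9_lc.Vtx

/-!
# The Maker-Breaker game of a formula

Maker wins the game of a false formula, Breaker holds the game of a true formula.
-/

namespace Pool.Agent.Lib.MP_8607b9_lc

/-! ### The winning sets -/

theorem mem_spine {i x : ℕ} : x ∈ spine i ↔ ∃ j < i, x = 4 * j + 2 := by
  simp [spine, eq_comm]

theorem litElt_true (i : ℕ) : litElt (i, true) = 4 * i := by simp [litElt]

theorem litElt_false (i : ℕ) : litElt (i, false) = 4 * i + 1 := by simp [litElt]

theorem litElt_lt {i : ℕ} (b : Bool) {m : ℕ} (h : i < m) : litElt (i, b) < 4 * m := by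
  cases b
  · rw [litElt_false]; omega
  · rw [litElt_true]; omega

theorem mem_hypOf {φ : Formula} {e : List ℕ} : e ∈ hypOf φ ↔
    (∃ i q, φ.1[i]? = some q ∧ e ∈ stageEdges q i) ∨
    ∃ C ∈ φ.2, e = spine φ.1.length ++ C.map litElt := by
  simp only [hypOf, List.mem_append, List.mem_flatMap, List.mem_map, Prod.exists,
    List.mem_zipIdx_iff_getElem?]
  constructor
  · rintro (⟨q, i, h, h'⟩ | ⟨C, hC, rfl⟩)
    · exact Or.inl ⟨i, q, h, h'⟩
    · exact Or.inr ⟨C, hC, rfl⟩
  · rintro (⟨i, q, h, h'⟩ | ⟨C, hC, rfl⟩)
    · exact Or.inl ⟨q, i, h, h'⟩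
    · exact Or.inr ⟨C, hC, rfl⟩

theorem mbOf_lt (φ : Formula) (hφ : φ.Closed) : ∀ e ∈ (mbOf φ).2, ∀ x ∈ e, x < (mbOf φ).1 := by
  intro e he x hx
  rw [mbOf, mem_hypOf] at he
  show x < 4 * φ.1.length
  rcases he with ⟨i, q, hi, he⟩ | ⟨C, hC, rfl⟩
  · have him : i < φ.1.length := (List.getElem?_eq_some_iff.1 hi).1
    simp only [stageEdges, List.mem_cons, List.not_mem_nil, or_false] at he
    rcases he with rfl | rfl | rfl
    · rw [List.mem_append, mem_spine] at hx
      rcases hx with ⟨j, hj, rfl⟩ | hx
      · omega
      · split_ifs at hx <;> simp only [List.mem_cons, List.not_mem_nil, or_false] at hx <;> omega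
    · rw [List.mem_append, mem_spine] at hx
      rcases hx with ⟨j, hj, rfl⟩ | hx
      · omega
      · simp only [List.mem_cons, List.not_mem_nil, or_false] at hx; omega
    · rw [List.mem_append, mem_spine] at hx
      rcases hx with ⟨j, hj, rfl⟩ | hx
      · omega
      · simp only [List.mem_cons, List.not_mem_nil, or_false] at hx; omega
  · rw [List.mem_append, mem_spine, List.mem_map] at hx
    rcases hx with ⟨j, hj, rfl⟩ | ⟨l, hl, rfl⟩
    · omega
    · exact litElt_lt l.2 (hφ C hC l hl)

/-! ### Maker -/

section Maker

variable {n : ℕ} {H : List (List ℕ)}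

/-- Maker wins at once. -/
theorem MW.now {M B : Finset ℕ} {e : List ℕ} {x : ℕ} (he : e ∈ H) (hx : x < n) (hM : x ∉ M)
    (hB : x ∉ B) (h : ∀ z ∈ e, z = x ∨ z ∈ M) : MW n H M B :=
  MW.move M B x hx hM hB (fun y _ => MW.win _ _ e he (fun z hz => by
    rw [Finset.mem_insert]; exact h z hz))

theorem stage_mem {φ : Formula} {i : ℕ} {q : Bool} (hi : φ.1[i]? = some q) {e : List ℕ}
    (he : e ∈ stageEdges q i) : e ∈ hypOf φ := mem_hypOf.2 (Or.inl ⟨i, q, hi, he⟩)

theorem maker_state (φ : Formula) (hφ : φ.Closed) : ∀ (Q a : List Bool) (M B : Finset ℕ),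
    φ.1.drop a.length = Q → a.length + Q.length = φ.1.length → ¬ Truth φ.2 a Q →
    (∀ j < a.length, 4 * j + 2 ∈ M) →
    (∀ j b, a[j]? = some b → litElt (j, !b) ∈ M) →
    (∀ x, 4 * a.length ≤ x → x ∉ M ∧ x ∉ B) →
    MW (4 * φ.1.length) (hypOf φ) M B := by
  intro Q
  induction Q with
  | nil =>
    intro a M B _ hlen hT hsp hlit _
    rw [Truth] at hT
    push Not at hT
    obtain ⟨C, hC, hCl⟩ := hT
    refine MW.win M B (spine φ.1.length ++ C.map litElt) (mem_hypOf.2 (Or.inr ⟨C, hC, rfl⟩)) ?_
    intro x hx
    rw [List.mem_append, mem_spine, List.mem_map] at hx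
    simp only [List.length_nil, add_zero] at hlen
    rcases hx with ⟨j, hj, rfl⟩ | ⟨l, hl, rfl⟩
    · exact hsp j (by omega)
    · have h1 : l.1 < a.length := by rw [hlen]; exact hφ C hC l hl
      have h2 : a[l.1]? = some a[l.1] := List.getElem?_eq_getElem h1
      have h3 := hCl l hl
      have h4 := hlit l.1 _ h2
      rw [h2] at h3
      have h5 : (!a[l.1]) = l.2 := by
        cases h : a[l.1] <;> cases h' : l.2 <;> simp_all
      rw [h5] at h4
      exact h4
  | cons q Q ih =>
    intro a M B hdrop hlen hT hsp hlit hfree
    have hi : φ.1[a.length]? = some q := by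
      rw [← List.head?_drop, hdrop]; rfl
    have him : a.length < φ.1.length := (List.getElem?_eq_some_iff.1 hi).1
    have hdrop' : ∀ b : Bool, φ.1.drop (a ++ [b]).length = Q := by
      intro b
      rw [List.length_append, List.length_singleton, ← List.drop_drop, hdrop]; rfl
    have hlen' : ∀ b : Bool, (a ++ [b]).length + Q.length = φ.1.length := by
      intro b
      simp only [List.length_append, List.length_cons, List.length_nil] at hlen ⊢; omega
    have hspine : ∀ z ∈ spine a.length, z ∈ M := by
      intro z hz
      obtain ⟨j, hj, rfl⟩ := mem_spine.1 hz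
      exact hsp j hj
    -- the next state
    have next : ∀ (b : Bool) (M' B' : Finset ℕ), ¬ Truth φ.2 (a ++ [b]) Q → M ⊆ M' →
        4 * a.length + 2 ∈ M' → litElt (a.length, !b) ∈ M' →
        (∀ x, 4 * a.length + 4 ≤ x → x ∉ M' ∧ x ∉ B') → 
        MW (4 * φ.1.length) (hypOf φ) M' B' := by
      intro b M' B' hT' hM' h2 hl hf
      refine ih (a ++ [b]) M' B' (hdrop' b) (hlen' b) hT' ?_ ?_ ?_
      · intro j hj
        rw [List.length_append, List.length_singleton] at hj
        rcases Nat.lt_or_ge j a.length with h | h
        · exact hM' (hsp j h)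
        · obtain rfl : j = a.length := by omega
          exact h2
      · intro j c hj
        rcases Nat.lt_or_ge j a.length with h | h
        · rw [List.getElem?_append_left h] at hj
          exact hM' (hlit j c hj)
        · have hj' : j < (a ++ [b]).length := (List.getElem?_eq_some_iff.1 hj).1
          rw [List.length_append, List.length_singleton] at hj'
          obtain rfl : j = a.length := by omega
          simp only [List.getElem?_concat_length, Option.some.injEq] at hj
          subst hj
          exact hl
      · intro x hx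
        rw [List.length_append, List.length_singleton] at hx
        exact hf x (by omega)
    have f : ∀ x, 4 * a.length ≤ x → x ∉ M := fun x hx => (hfree x hx).1
    have g : ∀ x, 4 * a.length ≤ x → x ∉ B := fun x hx => (hfree x hx).2
    generalize hk : a.length = i at *
    -- a threat has to be answered
    have forced : ∀ (l : List ℕ) (x : ℕ) (M' B' : Finset ℕ), l ∈ stageEdges q i →
        x < 4 * φ.1.length → x ∉ M' → x ∉ B' → (∀ z ∈ l, z = x ∨ z ∈ M') →
        ∀ y, (y = x → MW (4 * φ.1.length) (hypOf φ) M' (insert y B')) →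
        MW (4 * φ.1.length) (hypOf φ) M' (insert y B') := by
      intro l x M' B' hl hx hM' hB' hz y hy
      by_cases hyx : y = x
      · exact hy hyx
      · refine MW.now (stage_mem hi hl) hx hM' ?_ hz
        rw [Finset.mem_insert, not_or]
        exact ⟨fun h => hyx h.symm, hB'⟩
    have e1 : q = true → spine i ++ [4 * i + 2, 4 * i, 4 * i + 1] ∈ stageEdges q i := by
      rintro rfl; simp [stageEdges]
    have e1' : q = false → spine i ++ [4 * i, 4 * i + 1] ∈ stageEdges q i := by
      rintro rfl; simp [stageEdges]
    have e2 : spine i ++ [4 * i + 2, 4 * i, 4 * i + 3] ∈ stageEdges q i := by simp [stageEdges]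
    have e3 : spine i ++ [4 * i + 2, 4 * i + 1, 4 * i + 3] ∈ stageEdges q i := by
      simp [stageEdges]
    cases q with
    | false =>
      rw [Truth] at hT
      push Not at hT
      obtain ⟨b, hb⟩ := hT
      cases b with
      | false =>
        refine MW.move _ _ (4 * i) (by omega) (f _ (by omega)) (g _ (by omega)) (fun y _ => ?_)
        refine forced _ (4 * i + 1) _ _ (e1' rfl) (by omega) ?_ (g _ (by omega)) ?_ y ?_
        · rw [Finset.mem_insert, not_or]; exact ⟨by omega, f _ (by omega)⟩
        · intro z hz
          rw [List.mem_append] at hz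
          rcases hz with hz | hz
          · exact Or.inr (Finset.mem_insert_of_mem (hspine z hz))
          · simp only [List.mem_cons, List.not_mem_nil, or_false] at hz
            rcases hz with rfl | rfl
            · exact Or.inr (Finset.mem_insert_self _ _)
            · exact Or.inl rfl
        · rintro rfl
          refine MW.move _ _ (4 * i + 2) (by omega) ?_ ?_ (fun y _ => ?_)
          · rw [Finset.mem_insert, not_or]; exact ⟨by omega, f _ (by omega)⟩
          · rw [Finset.mem_insert, not_or]; exact ⟨by omega, g _ (by omega)⟩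
          refine forced _ (4 * i + 3) _ _ e2 (by omega) ?_ ?_ ?_ y ?_
          · simp only [Finset.mem_insert, not_or]; exact ⟨by omega, by omega, f _ (by omega)⟩
          · simp only [Finset.mem_insert, not_or]; exact ⟨by omega, g _ (by omega)⟩
          · intro z hz
            rw [List.mem_append] at hz
            rcases hz with hz | hz
            · exact Or.inr (Finset.mem_insert_of_mem (Finset.mem_insert_of_mem (hspine z hz)))
            · simp only [List.mem_cons, List.not_mem_nil, or_false] at hz
              rcases hz with rfl | rfl | rfl <;> simp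
          · rintro rfl
            refine next false _ _ hb ?_ ?_ ?_ ?_
            · intro z hz; simp [hz]
            · simp
            · rw [Bool.not_false, litElt_true]; simp
            · intro x hx
              simp only [Finset.mem_insert, not_or]
              exact ⟨⟨by omega, by omega, f _ (by omega)⟩, ⟨by omega, by omega, g _ (by omega)⟩⟩
      | true =>
        refine MW.move _ _ (4 * i + 1) (by omega) (f _ (by omega)) (g _ (by omega)) (fun y _ => ?_)
        refine forced _ (4 * i) _ _ (e1' rfl) (by omega) ?_ (g _ (by omega)) ?_ y ?_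
        · rw [Finset.mem_insert, not_or]; exact ⟨by omega, f _ (by omega)⟩
        · intro z hz
          rw [List.mem_append] at hz
          rcases hz with hz | hz
          · exact Or.inr (Finset.mem_insert_of_mem (hspine z hz))
          · simp only [List.mem_cons, List.not_mem_nil, or_false] at hz
            rcases hz with rfl | rfl
            · exact Or.inl rfl
            · exact Or.inr (Finset.mem_insert_self _ _)
        · rintro rfl
          refine MW.move _ _ (4 * i + 2) (by omega) ?_ ?_ (fun y _ => ?_)
          · rw [Finset.mem_insert, not_or]; exact ⟨by omega, f _ (by omega)⟩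
          · rw [Finset.mem_insert, not_or]; exact ⟨by omega, g _ (by omega)⟩
          refine forced _ (4 * i + 3) _ _ e3 (by omega) ?_ ?_ ?_ y ?_
          · simp only [Finset.mem_insert, not_or]; exact ⟨by omega, by omega, f _ (by omega)⟩
          · simp only [Finset.mem_insert, not_or]; exact ⟨by omega, g _ (by omega)⟩
          · intro z hz
            rw [List.mem_append] at hz
            rcases hz with hz | hz
            · exact Or.inr (Finset.mem_insert_of_mem (Finset.mem_insert_of_mem (hspine z hz)))
            · simp only [List.mem_cons, List.not_mem_nil, or_false] at hz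
              rcases hz with rfl | rfl | rfl <;> simp
          · rintro rfl
            refine next true _ _ hb ?_ ?_ ?_ ?_
            · intro z hz; simp [hz]
            · simp
            · rw [Bool.not_true, litElt_false]; simp
            · intro x hx
              simp only [Finset.mem_insert, not_or]
              exact ⟨⟨by omega, by omega, f _ (by omega)⟩, ⟨by omega, by omega, g _ (by omega)⟩⟩
    | true =>
      rw [Truth] at hT
      push Not at hT
      refine MW.move _ _ (4 * i + 2) (by omega) (f _ (by omega)) (g _ (by omega)) (fun y _ => ?_)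
      by_cases hy0 : y = 4 * i
      · subst hy0
        refine MW.move _ _ (4 * i + 1) (by omega) ?_ ?_ (fun y _ => ?_)
        · rw [Finset.mem_insert, not_or]; exact ⟨by omega, f _ (by omega)⟩
        · rw [Finset.mem_insert, not_or]; exact ⟨by omega, g _ (by omega)⟩
        refine forced _ (4 * i + 3) _ _ e3 (by omega) ?_ ?_ ?_ y ?_
        · simp only [Finset.mem_insert, not_or]; exact ⟨by omega, by omega, f _ (by omega)⟩
        · simp only [Finset.mem_insert, not_or]; exact ⟨by omega, g _ (by omega)⟩
        · intro z hz
          rw [List.mem_append] at hz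
          rcases hz with hz | hz
          · exact Or.inr (Finset.mem_insert_of_mem (Finset.mem_insert_of_mem (hspine z hz)))
          · simp only [List.mem_cons, List.not_mem_nil, or_false] at hz
            rcases hz with rfl | rfl | rfl <;> simp
        · rintro rfl
          refine next true _ _ (hT true) ?_ ?_ ?_ ?_
          · intro z hz; simp [hz]
          · simp
          · rw [Bool.not_true, litElt_false]; simp
          · intro x hx
            simp only [Finset.mem_insert, not_or]
            exact ⟨⟨by omega, by omega, f _ (by omega)⟩, ⟨by omega, by omega, g _ (by omega)⟩⟩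
      by_cases hy1 : y = 4 * i + 1
      · subst hy1
        refine MW.move _ _ (4 * i) (by omega) ?_ ?_ (fun y _ => ?_)
        · rw [Finset.mem_insert, not_or]; exact ⟨by omega, f _ (by omega)⟩
        · rw [Finset.mem_insert, not_or]; exact ⟨by omega, g _ (by omega)⟩
        refine forced _ (4 * i + 3) _ _ e2 (by omega) ?_ ?_ ?_ y ?_
        · simp only [Finset.mem_insert, not_or]; exact ⟨by omega, by omega, f _ (by omega)⟩
        · simp only [Finset.mem_insert, not_or]; exact ⟨by omega, g _ (by omega)⟩
        · intro z hz
          rw [List.mem_append] at hz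
          rcases hz with hz | hz
          · exact Or.inr (Finset.mem_insert_of_mem (Finset.mem_insert_of_mem (hspine z hz)))
          · simp only [List.mem_cons, List.not_mem_nil, or_false] at hz
            rcases hz with rfl | rfl | rfl <;> simp
        · rintro rfl
          refine next false _ _ (hT false) ?_ ?_ ?_ ?_
          · intro z hz; simp [hz]
          · simp
          · rw [Bool.not_false, litElt_true]; simp
          · intro x hx
            simp only [Finset.mem_insert, not_or]
            exact ⟨⟨by omega, by omega, f _ (by omega)⟩, ⟨by omega, by omega, g _ (by omega)⟩⟩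
      -- Breaker plays another element
      refine MW.move _ _ (4 * i) (by omega) ?_ ?_ (fun y' _ => ?_)
      · rw [Finset.mem_insert, not_or]; exact ⟨by omega, f _ (by omega)⟩
      · rw [Finset.mem_insert, not_or]; exact ⟨fun h => hy0 h.symm, g _ (by omega)⟩
      refine forced _ (4 * i + 1) _ _ (e1 rfl) (by omega) ?_ ?_ ?_ y' ?_
      · simp only [Finset.mem_insert, not_or]; exact ⟨by omega, by omega, f _ (by omega)⟩
      · simp only [Finset.mem_insert, not_or]; exact ⟨fun h => hy1 h.symm, g _ (by omega)⟩
      · intro z hz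
        rw [List.mem_append] at hz
        rcases hz with hz | hz
        · exact Or.inr (Finset.mem_insert_of_mem (Finset.mem_insert_of_mem (hspine z hz)))
        · simp only [List.mem_cons, List.not_mem_nil, or_false] at hz
          rcases hz with rfl | rfl | rfl <;> simp
      · rintro rfl
        by_cases hy3 : y = 4 * i + 3
        · subst hy3
          refine next false _ _ (hT false) ?_ ?_ ?_ ?_
          · intro z hz; simp [hz]
          · simp
          · rw [Bool.not_false, litElt_true]; simp
          · intro x hx
            simp only [Finset.mem_insert, not_or]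
            exact ⟨⟨by omega, by omega, f _ (by omega)⟩, ⟨by omega, by omega, g _ (by omega)⟩⟩
        · refine MW.now (stage_mem hi e2) (x := 4 * i + 3) (by omega) ?_ ?_ ?_
          · simp only [Finset.mem_insert, not_or]; exact ⟨by omega, by omega, f _ (by omega)⟩
          · simp only [Finset.mem_insert, not_or]
            exact ⟨by omega, fun h => hy3 h.symm, g _ (by omega)⟩
          · intro z hz
            rw [List.mem_append] at hz
            rcases hz with hz | hz
            · exact Or.inr (Finset.mem_insert_of_mem (Finset.mem_insert_of_mem (hspine z hz)))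
            · simp only [List.mem_cons, List.not_mem_nil, or_false] at hz
              rcases hz with rfl | rfl | rfl <;> simp

theorem maker_of_false (φ : Formula) (hφ : φ.Closed) (h : ¬ Truth φ.2 [] φ.1) :
    MW (mbOf φ).1 (mbOf φ).2 ∅ ∅ := by
  refine maker_state φ hφ φ.1 [] ∅ ∅ rfl (by simp) h ?_ ?_ ?_
  · intro j hj; simp at hj
  · intro j b hj; simp at hj
  · intro x _; simp

end Maker

/-! ### Breaker -/

section Breaker

theorem card_sdiff_lt {n x : ℕ} {M : Finset ℕ} (hx : x < n) (hM : x ∉ M) :
    (Finset.range n \ insert x M).card < (Finset.range n \ M).card := by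
  refine Finset.card_lt_card ?_
  rw [Finset.ssubset_iff_of_subset
    (Finset.sdiff_subset_sdiff (Finset.Subset.refl _) (Finset.subset_insert _ _))]
  exact ⟨x, by simp [hx, hM], by simp⟩

theorem disj_insert {M B : Finset ℕ} {x y : ℕ} (hd : ∀ z ∈ M, z ∉ B) (hxB : x ∉ B)
    (hy : y ∉ insert x M) : ∀ z ∈ insert x M, z ∉ insert y B := by
  intro z hz
  rw [Finset.mem_insert, not_or]
  refine ⟨fun h => hy (h ▸ hz), ?_⟩
  rw [Finset.mem_insert] at hz
  rcases hz with rfl | hz
  · exact hxB
  · exact hd z hz

/-- A pairing strategy of Breaker. -/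
theorem BW.pairing {n : ℕ} {H : List (List ℕ)} (P : ℕ → ℕ → Prop) (hs : ∀ x y, P x y → P y x)
    (hi : ∀ x, ¬ P x x) (hf : ∀ x y z, P x y → P x z → y = z) :
    ∀ (k : ℕ) (M B : Finset ℕ), (Finset.range n \ M).card = k → (∀ x ∈ M, x ∉ B) →
      (∀ x y, P x y → x ∈ M → y ∈ B) →
      (∀ e ∈ H, (∃ x ∈ e, x ∈ B) ∨ (∃ x ∈ e, ∃ y ∈ e, P x y)) → BW n H M B := by
  intro k
  induction k using Nat.strong_induction_on with
  | _ k ih =>
    intro M B hk hd hP hH
    refine BW.of ?_ ?_
    · intro e he
      rcases hH e he with ⟨x, hx, hxB⟩ | ⟨x, hx, y, hy, hxy⟩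
      · exact ⟨x, hx, fun h => hd x h hxB⟩
      · by_cases h : x ∈ M
        · exact ⟨y, hy, fun h' => hd y h' (hP x y hxy h)⟩
        · exact ⟨x, hx, h⟩
    · intro x hx hxM hxB
      have key : ∀ y, y ∉ Insert.insert x M → (∀ z, P x z → z = y) →
          BW n H (Insert.insert x M) (Insert.insert y B) := by
        intro y hy hxy
        refine ih _ ?_ _ _ rfl (disj_insert hd hxB hy) ?_ ?_
        · rw [← hk]; exact card_sdiff_lt hx hxM
        · intro u v huv hu
          rw [Finset.mem_insert] at hu ⊢
          rcases hu with rfl | hu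
          · exact Or.inl (hxy v huv)
          · exact Or.inr (hP u v huv hu)
        · intro e he
          rcases hH e he with ⟨z, hz, hzB⟩ | h
          · exact Or.inl ⟨z, hz, Finset.mem_insert_of_mem hzB⟩
          · exact Or.inr h
      by_cases hp : ∃ y, P x y
      · obtain ⟨y, hy⟩ := hp
        have hy' : y ∉ Insert.insert x M := by
          rw [Finset.mem_insert, not_or]
          refine ⟨fun h => hi x (h ▸ hy), fun h => hxB (hP y x (hs x y hy) h)⟩
        exact ⟨y, hy', key y hy' (fun z hz => hf x z y hz hy)⟩
      · obtain ⟨y, hy⟩ := Infinite.exists_notMem_finset (Insert.insert x M)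
        exact ⟨y, hy, key y hy (fun z hz => absurd ⟨z, hz⟩ hp)⟩

/-- The situation at the variables which have a value already. -/
def Pre (a : List Bool) (M B : Finset ℕ) : Prop :=
  ∀ j b, a[j]? = some b → 4 * j + 2 ∈ M ∧ litElt (j, b) ∈ B ∧
    (litElt (j, !b) ∈ M → 4 * j + 3 ∈ B) ∧ (4 * j + 3 ∈ M → litElt (j, !b) ∈ B)

theorem Pre.other {a : List Bool} {M B : Finset ℕ} (h : Pre a M B) {x : ℕ}
    (hx : 4 * a.length ≤ x) (y : ℕ) : Pre a (insert x M) (insert y B) := by
  intro j b hj
  have hja : j < a.length := (List.getElem?_eq_some_iff.1 hj).1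
  obtain ⟨h1, h2, h3, h4⟩ := h j b hj
  refine ⟨Finset.mem_insert_of_mem h1, Finset.mem_insert_of_mem h2, fun h5 => ?_, fun h5 => ?_⟩
  · rw [Finset.mem_insert] at h5
    rcases h5 with h5 | h5
    · have := litElt_lt (!b) hja; omega
    · exact Finset.mem_insert_of_mem (h3 h5)
  · rw [Finset.mem_insert] at h5
    rcases h5 with h5 | h5
    · omega
    · exact Finset.mem_insert_of_mem (h4 h5)

theorem litElt_div (j : ℕ) (b : Bool) : litElt (j, b) / 4 = j := by
  cases b
  · rw [litElt_false]; omega
  · rw [litElt_true]; omega

theorem litElt_ne (j k : ℕ) (b : Bool) : litElt (j, b) ≠ 4 * k + 3 := by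
  cases b
  · rw [litElt_false]; omega
  · rw [litElt_true]; omega

/-- Maker plays in a pair and Breaker answers. -/
theorem Pre.answer {a : List Bool} {M B : Finset ℕ} (h : Pre a M B) {x : ℕ}
    (hx : x < 4 * a.length) (hM : x ∉ M) (hB : x ∉ B) :
    ∃ y, y ∉ insert x M ∧ Pre a (insert x M) (insert y B) := by
  have hj : x / 4 < a.length := by omega
  obtain ⟨b, hb⟩ : ∃ b, a[x / 4]? = some b := ⟨_, List.getElem?_eq_getElem hj⟩
  obtain ⟨h1, h2, h3, h4⟩ := h _ b hb
  have hx4 : x = 4 * (x / 4) ∨ x = 4 * (x / 4) + 1 ∨ x = 4 * (x / 4) + 2 ∨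
      x = 4 * (x / 4) + 3 := by omega
  have hcase : x = litElt (x / 4, !b) ∨ x = 4 * (x / 4) + 3 := by
    rcases hx4 with h' | h' | h' | h'
    · cases b
      · left; rw [Bool.not_false, litElt_true]; exact h'
      · rw [litElt_true, ← h'] at h2; exact absurd h2 hB
    · cases b
      · rw [litElt_false, ← h'] at h2; exact absurd h2 hB
      · left; rw [Bool.not_true, litElt_false]; exact h'
    · rw [← h'] at h1; exact absurd h1 hM
    · exact Or.inr h'
  rcases hcase with h' | h'
  · refine ⟨4 * (x / 4) + 3, ?_, ?_⟩
    · rw [Finset.mem_insert, not_or]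
      refine ⟨fun h5 => ?_, fun h5 => hB ?_⟩
      · rw [h'] at h5
        exact litElt_ne _ _ _ (by rw [litElt_div] at h5; exact h5.symm)
      · have := h4 h5
        rw [← h'] at this
        exact this
    · intro k c hk
      obtain ⟨g1, g2, g3, g4⟩ := h k c hk
      refine ⟨Finset.mem_insert_of_mem g1, Finset.mem_insert_of_mem g2, fun h5 => ?_, fun h5 => ?_⟩
      · rw [Finset.mem_insert] at h5 ⊢
        rcases h5 with h5 | h5
        · left
          rw [← h5, litElt_div]
        · exact Or.inr (g3 h5)
      · rw [Finset.mem_insert] at h5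
        rcases h5 with h5 | h5
        · exfalso
          rw [h'] at h5
          exact litElt_ne _ _ _ h5.symm
        · exact Finset.mem_insert_of_mem (g4 h5)
  · refine ⟨litElt (x / 4, !b), ?_, ?_⟩
    · rw [Finset.mem_insert, not_or]
      refine ⟨fun h5 => ?_, fun h5 => hB ?_⟩
      · rw [h'] at h5
        exact litElt_ne _ _ _ h5
      · have := h3 h5
        rw [← h'] at this
        exact this
    · intro k c hk
      obtain ⟨g1, g2, g3, g4⟩ := h k c hk
      refine ⟨Finset.mem_insert_of_mem g1, Finset.mem_insert_of_mem g2, fun h5 => ?_, fun h5 => ?_⟩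
      · rw [Finset.mem_insert] at h5
        rcases h5 with h5 | h5
        · exfalso
          rw [h'] at h5
          exact litElt_ne _ _ _ h5
        · exact Finset.mem_insert_of_mem (g3 h5)
      · rw [Finset.mem_insert] at h5 ⊢
        rcases h5 with h5 | h5
        · left
          have hkx : k = x / 4 := by omega
          subst hkx
          rw [hb, Option.some.injEq] at hk
          rw [hk]
        · exact Or.inr (g4 h5)

theorem Pre.snoc {a : List Bool} {M B : Finset ℕ} (h : Pre a M B) {b : Bool}
    (h1 : 4 * a.length + 2 ∈ M) (h2 : litElt (a.length, b) ∈ B)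
    (h3 : litElt (a.length, !b) ∈ M → 4 * a.length + 3 ∈ B)
    (h4 : 4 * a.length + 3 ∈ M → litElt (a.length, !b) ∈ B) : Pre (a ++ [b]) M B := by
  intro j c hj
  rcases Nat.lt_or_ge j a.length with h' | h'
  · rw [List.getElem?_append_left h'] at hj
    exact h j c hj
  · have hj' : j < (a ++ [b]).length := (List.getElem?_eq_some_iff.1 hj).1
    rw [List.length_append, List.length_singleton] at hj'
    obtain rfl : j = a.length := by omega
    simp only [List.getElem?_concat_length, Option.some.injEq] at hj
    subst hj
    exact ⟨h1, h2, h3, h4⟩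

theorem edge_cases {φ : Formula} {a : List Bool} (ha : a.length ≤ φ.1.length) {e : List ℕ}
    (he : e ∈ hypOf φ) :
    (∃ j b, a[j]? = some b ∧ (litElt (j, b) ∈ e ∨ (litElt (j, !b) ∈ e ∧ 4 * j + 3 ∈ e))) ∨
    (a.length < φ.1.length ∧ 4 * a.length + 2 ∈ e) ∨
    (φ.1[a.length]? = some false ∧ 4 * a.length ∈ e ∧ 4 * a.length + 1 ∈ e) ∨
    (a.length = φ.1.length ∧ ∃ C ∈ φ.2, e = spine φ.1.length ++ C.map litElt) := by
  rcases mem_hypOf.1 he with ⟨i, q, hi, he⟩ | ⟨C, hC, rfl⟩
  · have him : i < φ.1.length := (List.getElem?_eq_some_iff.1 hi).1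
    simp only [stageEdges, List.mem_cons, List.not_mem_nil, or_false] at he
    rcases Nat.lt_trichotomy i a.length with h | h | h
    · obtain ⟨b, hb⟩ : ∃ b, a[i]? = some b := ⟨_, List.getElem?_eq_getElem h⟩
      refine Or.inl ⟨i, b, hb, ?_⟩
      rcases he with rfl | rfl | rfl
      · left
        cases b <;> cases q <;> simp [litElt_true, litElt_false]
      · cases b <;> simp [litElt_true, litElt_false]
      · cases b <;> simp [litElt_true, litElt_false]
    · subst h
      rcases he with rfl | rfl | rfl
      · cases q with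
        | true => right; left; exact ⟨him, by simp⟩
        | false => right; right; left; exact ⟨hi, by simp, by simp⟩
      · right; left; exact ⟨him, by simp⟩
      · right; left; exact ⟨him, by simp⟩
    · right; left
      refine ⟨by omega, ?_⟩
      have hs : 4 * a.length + 2 ∈ spine i := mem_spine.2 ⟨a.length, h, rfl⟩
      rcases he with rfl | rfl | rfl <;> exact List.mem_append_left _ hs
  · rcases Nat.lt_or_ge a.length φ.1.length with h | h
    · right; left
      exact ⟨h, List.mem_append_left _ (mem_spine.2 ⟨a.length, h, rfl⟩)⟩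
    · right; right; right
      exact ⟨le_antisymm ha h, C, hC, rfl⟩

/-- Breaker has destroyed all later winning sets. -/
theorem won {φ : Formula} {a : List Bool} {M B : Finset ℕ}
    (ha : a.length ≤ φ.1.length) (hd : ∀ x ∈ M, x ∉ B) (hp : Pre a M B) (o : Prop)
    (ho : o → 4 * a.length ∉ M ∧ 4 * a.length + 1 ∉ M)
    (h1 : a.length < φ.1.length → 4 * a.length + 2 ∈ B)
    (h2 : φ.1[a.length]? = some false → o ∨ 4 * a.length ∈ B ∨ 4 * a.length + 1 ∈ B)
    (h3 : a.length = φ.1.length → ∀ C ∈ φ.2, ∃ l ∈ C, a[l.1]? = some l.2) :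
    BW (4 * φ.1.length) (hypOf φ) M B := by
  have hlt : ∀ (j : ℕ) (b : Bool), a[j]? = some b → j < a.length := fun j b h =>
    (List.getElem?_eq_some_iff.1 h).1
  refine BW.pairing (fun x y => (∃ j b, a[j]? = some b ∧ ((x = litElt (j, !b) ∧ y = 4 * j + 3) ∨
      (x = 4 * j + 3 ∧ y = litElt (j, !b)))) ∨
    (o ∧ ((x = 4 * a.length ∧ y = 4 * a.length + 1) ∨
      (x = 4 * a.length + 1 ∧ y = 4 * a.length)))) ?_ ?_ ?_ _ M B rfl hd ?_ ?_
  · rintro x y (⟨j, b, hj, h | h⟩ | ⟨h0, h | h⟩)
    · exact Or.inl ⟨j, b, hj, Or.inr h.symm⟩
    · exact Or.inl ⟨j, b, hj, Or.inl h.symm⟩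
    · exact Or.inr ⟨h0, Or.inr h.symm⟩
    · exact Or.inr ⟨h0, Or.inl h.symm⟩
  · rintro x (⟨j, b, hj, h | h⟩ | ⟨h0, h | h⟩)
    · exact litElt_ne _ _ _ (h.1.symm.trans h.2)
    · exact litElt_ne _ _ _ (h.2.symm.trans h.1)
    · omega
    · omega
  · rintro x y z (⟨j, b, hj, h | h⟩ | ⟨h0, h | h⟩) (⟨k, c, hk, g | g⟩ | ⟨g0, g | g⟩)
    · have := litElt_div j (!b)
      have := litElt_div k (!c)
      have hjk : j = k := by rw [← h.1] at *; rw [← g.1] at *; omega
      rw [h.2, g.2, hjk]
    · exact absurd (h.1.symm.trans g.1) (litElt_ne _ _ _)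
    · have := litElt_lt (!b) (hlt j b hj); omega
    · have := litElt_lt (!b) (hlt j b hj); omega
    · exact absurd (g.1.symm.trans h.1) (litElt_ne _ _ _)
    · have hjk : j = k := by omega
      subst hjk
      rw [hj, Option.some.injEq] at hk
      rw [h.2, g.2, hk]
    · have := hlt j b hj; omega
    · have := hlt j b hj; omega
    · have := litElt_lt (!c) (hlt k c hk); omega
    · have := hlt k c hk; omega
    · omega
    · omega
    · have := litElt_lt (!c) (hlt k c hk); omega
    · have := hlt k c hk; omega
    · omega
    · omega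
  · rintro x y (⟨j, b, hj, h | h⟩ | ⟨h0, h | h⟩) hx
    · rw [h.2]; rw [h.1] at hx; exact (hp j b hj).2.2.1 hx
    · rw [h.2]; rw [h.1] at hx; exact (hp j b hj).2.2.2 hx
    · rw [h.1] at hx; exact absurd hx (ho h0).1
    · rw [h.1] at hx; exact absurd hx (ho h0).2
  · intro e he
    rcases edge_cases ha he with ⟨j, b, hj, h | h⟩ | h | h | ⟨h, C, hC, rfl⟩
    · exact Or.inl ⟨_, h, (hp j b hj).2.1⟩
    · exact Or.inr ⟨_, h.1, _, h.2, Or.inl ⟨j, b, hj, Or.inl ⟨rfl, rfl⟩⟩⟩
    · exact Or.inl ⟨_, h.2, h1 h.1⟩
    · rcases h2 h.1 with h0 | h0 | h0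
      · exact Or.inr ⟨_, h.2.1, _, h.2.2, Or.inr ⟨h0, Or.inl ⟨rfl, rfl⟩⟩⟩
      · exact Or.inl ⟨_, h.2.1, h0⟩
      · exact Or.inl ⟨_, h.2.2, h0⟩
    · obtain ⟨l, hl, hl'⟩ := h3 h C hC
      exact Or.inl ⟨litElt l, List.mem_append_right _ (List.mem_map_of_mem hl),
        (hp _ _ hl').2.1⟩

theorem breaker_state (φ : Formula) : ∀ (k : ℕ) (a Q : List Bool) (M B : Finset ℕ),
    (Finset.range (4 * φ.1.length) \ M).card = k → φ.1.drop a.length = Q →
    a.length + Q.length = φ.1.length → (∀ x ∈ M, x ∉ B) → Pre a M B →
    ((∀ x, 4 * a.length ≤ x → x ∉ M) ∧ Truth φ.2 a Q) ∨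
    (∃ b Q', Q = false :: Q' ∧ Truth φ.2 (a ++ [b]) Q' ∧ litElt (a.length, b) ∈ B ∧
      litElt (a.length, !b) ∈ M ∧ ∀ x, 4 * a.length ≤ x → x ≠ litElt (a.length, !b) → x ∉ M) →
    BW (4 * φ.1.length) (hypOf φ) M B := by
  intro k
  induction k using Nat.strong_induction_on with
  | _ k ih =>
    intro a Q M B hk hdrop hlen hd hp hst
    rcases Q with _ | ⟨q, Q⟩
    · rcases hst with ⟨hfree, hT⟩ | ⟨b, Q', h, _⟩
      · simp only [List.length_nil, add_zero] at hlen
        refine won hlen.le hd hp False (fun h => h.elim) (fun h => by omega) (fun h => ?_)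
          (fun _ => by rw [Truth] at hT; exact hT)
        have := (List.getElem?_eq_some_iff.1 h).1
        omega
      · simp at h
    have hi : φ.1[a.length]? = some q := by
      rw [← List.head?_drop, hdrop]; rfl
    have him : a.length < φ.1.length := (List.getElem?_eq_some_iff.1 hi).1
    have hdrop' : ∀ b : Bool, φ.1.drop (a ++ [b]).length = Q := by
      intro b
      rw [List.length_append, List.length_singleton, ← List.drop_drop, hdrop]; rfl
    have hlen' : ∀ b : Bool, (a ++ [b]).length + Q.length = φ.1.length := by
      intro b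
      simp only [List.length_append, List.length_cons, List.length_nil] at hlen ⊢; omega
    have h2M : 4 * a.length + 2 ∉ M := by
      rcases hst with ⟨hfree, _⟩ | ⟨b, Q', _, _, _, _, h⟩
      · exact hfree _ (by omega)
      · refine h _ (by omega) ?_
        cases b
        · rw [Bool.not_false, litElt_true]; omega
        · rw [Bool.not_true, litElt_false]; omega
    refine BW.of ?_ ?_
    · intro e he
      rcases edge_cases him.le he with ⟨j, b, hj, h | h⟩ | h | h | h
      · exact ⟨_, h, fun h' => hd _ h' (hp j b hj).2.1⟩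
      · by_cases h' : litElt (j, !b) ∈ M
        · exact ⟨_, h.2, fun h'' => hd _ h'' ((hp j b hj).2.2.1 h')⟩
        · exact ⟨_, h.1, h'⟩
      · exact ⟨_, h.2, h2M⟩
      · rcases hst with ⟨hfree, _⟩ | ⟨b, Q', _, _, hB, _, _⟩
        · exact ⟨_, h.2.1, hfree _ (by omega)⟩
        · cases b
          · rw [litElt_false] at hB
            exact ⟨_, h.2.2, fun h' => hd _ h' hB⟩
          · rw [litElt_true] at hB
            exact ⟨_, h.2.1, fun h' => hd _ h' hB⟩
      · omega
    intro x hx hxM hxB
    have hcard := card_sdiff_lt hx hxM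
    rw [hk] at hcard
    -- Maker plays at an old variable
    rcases Nat.lt_or_ge x (4 * a.length) with hxa | hxa
    · obtain ⟨y, hy, hy'⟩ := hp.answer hxa hxM hxB
      refine ⟨y, hy, ih _ hcard a (q :: Q) _ _ rfl hdrop hlen (disj_insert hd hxB hy) hy' ?_⟩
      rcases hst with ⟨hfree, hT⟩ | ⟨b, Q', h1, hT, h2, h3, h4⟩
      · left
        refine ⟨fun z hz => ?_, hT⟩
        rw [Finset.mem_insert, not_or]
        exact ⟨by omega, hfree z hz⟩
      · right
        refine ⟨b, Q', h1, hT, Finset.mem_insert_of_mem h2, Finset.mem_insert_of_mem h3,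
          fun z hz hz' => ?_⟩
        rw [Finset.mem_insert, not_or]
        exact ⟨by omega, h4 z hz hz'⟩
    -- Breaker takes the spine element
    have hwon : ∀ o : Prop, x ≠ 4 * a.length + 2 →
        (o → 4 * a.length ∉ insert x M ∧ 4 * a.length + 1 ∉ insert x M) →
        (q = false → o ∨ 4 * a.length ∈ B ∨ 4 * a.length + 1 ∈ B) →
        ∃ y, y ∉ insert x M ∧ BW (4 * φ.1.length) (hypOf φ) (insert x M) (insert y B) := by
      intro o hx2 ho hq
      have hy : 4 * a.length + 2 ∉ insert x M := by
        rw [Finset.mem_insert, not_or]; exact ⟨fun h => hx2 h.symm, h2M⟩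
      refine ⟨4 * a.length + 2, hy, won him.le (disj_insert hd hxB hy) (hp.other hxa _) o ho
        (fun _ => Finset.mem_insert_self _ _) (fun h => ?_) (fun h => by omega)⟩
      rw [hi, Option.some.injEq] at h
      rcases hq h with h | h | h
      · exact Or.inl h
      · exact Or.inr (Or.inl (Finset.mem_insert_of_mem h))
      · exact Or.inr (Or.inr (Finset.mem_insert_of_mem h))
    rcases hst with ⟨hfree, hT⟩ | ⟨b, Q', h1, hT, h2, h3, h4⟩
    · -- the variable is untouched
      have hnext : ∀ b : Bool, Truth φ.2 (a ++ [b]) Q → x = 4 * a.length + 2 →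
          ∃ y, y ∉ insert x M ∧ BW (4 * φ.1.length) (hypOf φ) (insert x M) (insert y B) := by
        intro b hT' hx2
        have hne : litElt (a.length, b) ≠ x := by
          rw [hx2]
          cases b
          · rw [litElt_false]; omega
          · rw [litElt_true]; omega
        have hge : ∀ c, 4 * a.length ≤ litElt (a.length, c) := by
          intro c
          cases c
          · rw [litElt_false]; omega
          · rw [litElt_true]
        have hy : litElt (a.length, b) ∉ insert x M := by
          rw [Finset.mem_insert, not_or]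
          exact ⟨hne, hfree _ (hge b)⟩
        refine ⟨litElt (a.length, b), hy, ih _ hcard (a ++ [b]) Q _ _ rfl (hdrop' b) (hlen' b)
          (disj_insert hd hxB hy) ?_ (Or.inl ⟨fun z hz => ?_, hT'⟩)⟩
        · refine (hp.other hxa _).snoc ?_ (Finset.mem_insert_self _ _) (fun h => ?_) (fun h => ?_)
          · rw [hx2]; exact Finset.mem_insert_self _ _
          · exfalso
            rw [Finset.mem_insert] at h
            rcases h with h | h
            · rw [hx2] at h
              revert h
              cases b
              · rw [Bool.not_false, litElt_true]; omega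
              · rw [Bool.not_true, litElt_false]; omega
            · exact hfree _ (hge _) h
          · exfalso
            rw [Finset.mem_insert] at h
            rcases h with h | h
            · omega
            · exact hfree _ (by omega) h
        · rw [List.length_append, List.length_singleton] at hz
          rw [Finset.mem_insert, not_or]
          exact ⟨by omega, hfree z (by omega)⟩
      cases q with
      | true =>
        rw [Truth] at hT
        obtain ⟨b, hT⟩ := hT
        by_cases hx2 : x = 4 * a.length + 2
        · exact hnext b hT hx2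
        · exact hwon False hx2 (fun h => h.elim) (fun h => by simp at h)
      | false =>
        rw [Truth] at hT
        by_cases hx2 : x = 4 * a.length + 2
        · exact hnext true (hT true) hx2
        by_cases hx0 : x = 4 * a.length
        · have hy : 4 * a.length + 1 ∉ insert x M := by
            rw [Finset.mem_insert, not_or]
            exact ⟨by omega, hfree _ (by omega)⟩
          refine ⟨4 * a.length + 1, hy, ih _ hcard a (false :: Q) _ _ rfl hdrop hlen
            (disj_insert hd hxB hy) (hp.other hxa _) (Or.inr ⟨false, Q, rfl, hT false, ?_, ?_,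
              fun z hz hz' => ?_⟩)⟩
          · rw [litElt_false]; exact Finset.mem_insert_self _ _
          · rw [Bool.not_false, litElt_true, hx0]; exact Finset.mem_insert_self _ _
          · rw [Bool.not_false, litElt_true] at hz'
            rw [Finset.mem_insert, not_or, hx0]
            exact ⟨hz', hfree z hz⟩
        by_cases hx1 : x = 4 * a.length + 1
        · have hy : 4 * a.length ∉ insert x M := by
            rw [Finset.mem_insert, not_or]
            exact ⟨by omega, hfree _ (by omega)⟩
          refine ⟨4 * a.length, hy, ih _ hcard a (false :: Q) _ _ rfl hdrop hlen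
            (disj_insert hd hxB hy) (hp.other hxa _) (Or.inr ⟨true, Q, rfl, hT true, ?_, ?_,
              fun z hz hz' => ?_⟩)⟩
          · rw [litElt_true]; exact Finset.mem_insert_self _ _
          · rw [Bool.not_true, litElt_false, hx1]; exact Finset.mem_insert_self _ _
          · rw [Bool.not_true, litElt_false] at hz'
            rw [Finset.mem_insert, not_or, hx1]
            exact ⟨hz', hfree z hz⟩
        refine hwon True hx2 (fun _ => ?_) (fun _ => Or.inl trivial)
        simp only [Finset.mem_insert, not_or]
        exact ⟨⟨fun h => hx0 h.symm, hfree _ (by omega)⟩,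
          ⟨fun h => hx1 h.symm, hfree _ (by omega)⟩⟩
    · -- Maker and Breaker own one literal each
      rw [List.cons.injEq] at h1
      obtain ⟨rfl, rfl⟩ := h1
      by_cases hx2 : x = 4 * a.length + 2
      · have h3' : 4 * a.length + 3 ∉ M := h4 _ (by omega) (fun h => litElt_ne _ _ _ h.symm)
        have hy : 4 * a.length + 3 ∉ insert x M := by
          rw [Finset.mem_insert, not_or]
          exact ⟨by omega, h3'⟩
        refine ⟨4 * a.length + 3, hy, ih _ hcard (a ++ [b]) Q _ _ rfl (hdrop' b) (hlen' b)
          (disj_insert hd hxB hy) ?_ (Or.inl ⟨fun z hz => ?_, hT⟩)⟩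
        · refine (hp.other hxa _).snoc ?_ (Finset.mem_insert_of_mem h2)
            (fun _ => Finset.mem_insert_self _ _) (fun h => ?_)
          · rw [hx2]; exact Finset.mem_insert_self _ _
          · exact absurd h hy
        · rw [List.length_append, List.length_singleton] at hz
          rw [Finset.mem_insert, not_or]
          refine ⟨by omega, h4 z (by omega) ?_⟩
          have := litElt_lt (!b) (Nat.lt_succ_self a.length)
          omega
      · refine hwon False hx2 (fun h => h.elim) (fun _ => ?_)
        cases b
        · rw [litElt_false] at h2; exact Or.inr (Or.inr h2)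
        · rw [litElt_true] at h2; exact Or.inr (Or.inl h2)

theorem breaker_of_true (φ : Formula) (_hφ : φ.Closed) (h : Truth φ.2 [] φ.1) :
    BW (mbOf φ).1 (mbOf φ).2 ∅ ∅ := by
  refine breaker_state φ _ [] φ.1 ∅ ∅ rfl rfl (by simp) (by simp) ?_ (Or.inl ⟨by simp, h⟩)
  intro j b hj
  simp at hj

end Breaker

end Pool.Agent.Lib.MP_8607b9_lc
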