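import Pool.Agent.Lib.MP_8607b9_lc.Build

/-!
# Node Blocking on acyclic digraphs reduces to quantified Boolean formulas

In a turn of a player all edges are offered to him, one after the other; one bit says whether he
wants to move along the edge. The positions are encoded by bits, which are quantified existentially
after all moves.
-/

namespace Pool.Agent.Lib.MP_8607b9_lc

open Pool.Agent.Lib.MP_0f8b55_lc Pool.Agent.Lib.PolyTime

/-! ### Clauses from truth tables -/

/-- All words of length `k`. -/
def words : ℕ → List (List Bool)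
  | 0 => [[]]
  | k + 1 => (words k).flatMap (fun l => [false :: l, true :: l])

theorem mem_words (k : ℕ) (l : List Bool) : l ∈ words k ↔ l.length = k := by
  induction k generalizing l with
  | zero => simp [words]
  | succ t ih =>
    simp only [words, List.mem_flatMap, ih, List.mem_cons, List.not_mem_nil, or_false]
    constructor
    · rintro ⟨l', h, rfl | rfl⟩ <;> simp [h]
    · intro h
      rcases l with _ | ⟨b, l⟩
      · simp at h
      · refine ⟨l, by simpa using h, ?_⟩
        cases b <;> simp

/-- The assignment satisfies all clauses. -/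
def Sat (M : List (List (ℕ × Bool))) (val : ℕ → Bool) : Prop := ∀ C ∈ M, ∃ l ∈ C, val l.1 = l.2

theorem sat_append {M M' : List (List (ℕ × Bool))} {val : ℕ → Bool} :
    Sat (M ++ M') val ↔ Sat M val ∧ Sat M' val := by
  simp only [Sat, List.mem_append, or_imp, forall_and]

theorem sat_flatMap {β : Type} {L : List β} {f : β → List (List (ℕ × Bool))} {val : ℕ → Bool} :
    Sat (L.flatMap f) val ↔ ∀ b ∈ L, Sat (f b) val := by
  simp only [Sat, List.mem_flatMap]
  constructor
  · intro h b hb C hC
    exact h C ⟨b, hb, hC⟩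
  · rintro h C ⟨b, hb, hC⟩
    exact h b hb C hC

/-- The literals saying that the word of the variables `ys` is not `τ`. -/
def diffLits (ys : List ℕ) (τ : List Bool) : List (ℕ × Bool) :=
  List.zipWith (fun y b => (y, !b)) ys τ

theorem diffLits_iff (val : ℕ → Bool) (ys : List ℕ) : ∀ (τ : List Bool), τ.length = ys.length →
    ((∃ l ∈ diffLits ys τ, val l.1 = l.2) ↔ ys.map val ≠ τ) := by
  induction ys with
  | nil =>
    intro τ h
    have : τ = [] := List.length_eq_zero_iff.1 h
    subst this
    simp [diffLits]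
  | cons y ys ih =>
    intro τ h
    rcases τ with _ | ⟨b, τ⟩
    · simp at h
    · have h' : τ.length = ys.length := by simpa using h
      have ih' := ih τ h'
      simp only [diffLits, List.zipWith_cons_cons, List.mem_cons, List.map_cons, ne_eq,
        List.cons.injEq, not_and_or] at ih' ⊢
      rw [← ih']
      constructor
      · rintro ⟨l, rfl | hl, hv⟩
        · left
          simp only at hv
          rw [hv]
          cases b <;> simp
        · exact Or.inr ⟨l, hl, hv⟩
      · rintro (h1 | ⟨l, hl, hv⟩)
        · refine ⟨(y, !b), Or.inl rfl, ?_⟩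
          simp only
          cases b <;> cases hv : val y <;> simp_all
        · exact ⟨l, Or.inr hl, hv⟩

/-- Clauses saying that the variable `z` has the value `g` of the word of the variables `ys`. -/
def tab (k : ℕ) (g : List Bool → Bool) (z : ℕ) (ys : List ℕ) : List (List (ℕ × Bool)) :=
  (words k).map (fun τ => (z, g τ) :: diffLits ys τ)

theorem sat_tab {k : ℕ} {g : List Bool → Bool} {z : ℕ} {ys : List ℕ} {val : ℕ → Bool}
    (h : ys.length = k) : Sat (tab k g z ys) val ↔ val z = g (ys.map val) := by
  have e : Sat (tab k g z ys) val ↔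
      ∀ τ : List Bool, τ.length = k → (val z = g τ ∨ ys.map val ≠ τ) := by
    simp only [Sat, tab, List.mem_map, mem_words]
    constructor
    · intro h1 τ hτ
      obtain ⟨l, hl, hv⟩ := h1 _ ⟨τ, hτ, rfl⟩
      rcases List.mem_cons.1 hl with rfl | hl
      · exact Or.inl hv
      · exact Or.inr ((diffLits_iff val ys τ (hτ.trans h.symm)).1 ⟨l, hl, hv⟩)
    · rintro h1 C ⟨τ, hτ, rfl⟩
      rcases h1 τ hτ with h2 | h2
      · exact ⟨_, List.mem_cons_self, h2⟩
      · obtain ⟨l, hl, hv⟩ := (diffLits_iff val ys τ (hτ.trans h.symm)).2 h2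
        exact ⟨l, List.mem_cons_of_mem _ hl, hv⟩
  rw [e]
  constructor
  · intro h1
    exact (h1 (ys.map val) (by simp [h])).resolve_right (fun h2 => h2 rfl)
  · intro h1 τ _
    by_cases h2 : ys.map val = τ
    · left; rw [h1, h2]
    · exact Or.inr h2

theorem tab_lt {k : ℕ} {g : List Bool → Bool} {z : ℕ} {ys : List ℕ} {N : ℕ} (hz : z < N)
    (hy : ∀ y ∈ ys, y < N) : ∀ C ∈ tab k g z ys, ∀ l ∈ C, l.1 < N := by
  simp only [tab, List.mem_map]
  rintro C ⟨τ, _, rfl⟩ l hl
  rcases List.mem_cons.1 hl with rfl | hl
  · exact hz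
  · have : ∀ (ys : List ℕ) (τ : List Bool), l ∈ diffLits ys τ → l.1 ∈ ys := by
      intro ys
      induction ys with
      | nil => intro τ h; simp [diffLits] at h
      | cons y ys ih =>
        intro τ h
        rcases τ with _ | ⟨b, τ⟩
        · simp [diffLits] at h
        · simp only [diffLits, List.zipWith_cons_cons, List.mem_cons] at h
          rcases h with rfl | h
          · simp
          · exact List.mem_cons_of_mem _ (ih τ h)
    exact hy _ (this ys τ hl)

/-! ### The steps of the game on bits -/

/-- One step: the quantifier (`true` for the player who is to move in the instance), the colour of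
the tokens of the player, the edge offered to him (`none`: end of the turn). -/
abbrev Stp : Type := Bool × (Bool × Option (ℕ × ℕ))

/-- The bit for a token of the player `c` on the vertex `w`. -/
def own (c : Bool) (w : ℕ) : ℕ := 2 * w + (if c then 0 else 1)

/-- Does the player move? -/
def trig (x m a b d : Bool) : Bool := x && !m && a && !b && !d

/-- The bits after a step. -/
def bstep (n : ℕ) (st : Stp) (x : Bool) (B : ℕ → Bool) (i : ℕ) : Bool :=
  match st.2.2 with
  | some e =>
    if i = own st.2.1 e.2 then B (own st.2.1 e.2) || trig x (B (2 * n)) (B (own st.2.1 e.1))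
      (B (own st.2.1 e.2)) (B (own (!st.2.1) e.2))
    else if i = own st.2.1 e.1 then B (own st.2.1 e.1) && !trig x (B (2 * n))
      (B (own st.2.1 e.1)) (B (own st.2.1 e.2)) (B (own (!st.2.1) e.2))
    else if i = 2 * n then B (2 * n) || trig x (B (2 * n)) (B (own st.2.1 e.1))
      (B (own st.2.1 e.2)) (B (own (!st.2.1) e.2))
    else B i
  | none =>
    if i = 2 * n then false
    else if i = 2 * n + 1 + (if st.1 then 0 else 1) then
      B (2 * n + 1 + (if st.1 then 0 else 1)) ||
        (!B (2 * n) && !B (2 * n + 1 + (if st.1 then 1 else 0)))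
    else B i

def gV : List Bool → Bool
  | [x, m, a, b, d] => b || trig x m a b d
  | _ => false

def gU : List Bool → Bool
  | [x, m, a, b, d] => a && !trig x m a b d
  | _ => false

def gM : List Bool → Bool
  | [x, m, a, b, d] => m || trig x m a b d
  | _ => false

def gC : List Bool → Bool
  | [b] => b
  | _ => false

def gL : List Bool → Bool
  | [m, l, o] => l || (!m && !o)
  | _ => false

/-- The variable of the bit `k` at time `j`. -/
def vr (J m j k : ℕ) : ℕ := J + j * m + k

/-- The clauses for the bit `i` at time `j + 1`. -/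
def cls (J m n j : ℕ) (st : Stp) (i : ℕ) : List (List (ℕ × Bool)) :=
  match st.2.2 with
  | some e =>
    if i = own st.2.1 e.2 then tab 5 gV (vr J m (j + 1) i) [j, vr J m j (2 * n),
      vr J m j (own st.2.1 e.1), vr J m j (own st.2.1 e.2), vr J m j (own (!st.2.1) e.2)]
    else if i = own st.2.1 e.1 then tab 5 gU (vr J m (j + 1) i) [j, vr J m j (2 * n),
      vr J m j (own st.2.1 e.1), vr J m j (own st.2.1 e.2), vr J m j (own (!st.2.1) e.2)]
    else if i = 2 * n then tab 5 gM (vr J m (j + 1) i) [j, vr J m j (2 * n),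
      vr J m j (own st.2.1 e.1), vr J m j (own st.2.1 e.2), vr J m j (own (!st.2.1) e.2)]
    else tab 1 gC (vr J m (j + 1) i) [vr J m j i]
  | none =>
    if i = 2 * n then tab 0 (fun _ => false) (vr J m (j + 1) i) []
    else if i = 2 * n + 1 + (if st.1 then 0 else 1) then
      tab 3 gL (vr J m (j + 1) i) [vr J m j (2 * n), vr J m j (2 * n + 1 + (if st.1 then 0 else 1)),
        vr J m j (2 * n + 1 + (if st.1 then 1 else 0))]
    else tab 1 gC (vr J m (j + 1) i) [vr J m j i]

theorem sat_cls (J m n j : ℕ) (st : Stp) (i : ℕ) (val : ℕ → Bool) :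
    Sat (cls J m n j st i) val ↔
      val (vr J m (j + 1) i) = bstep n st (val j) (fun k => val (vr J m j k)) i := by
  obtain ⟨r, c, _ | ⟨u, v⟩⟩ := st
  · simp only [cls, bstep]
    split_ifs <;> exact sat_tab rfl
  · simp only [cls, bstep]
    split_ifs <;> exact sat_tab rfl

/-- The step uses only the bits below `m`. -/
def StpOk (m n : ℕ) (st : Stp) : Prop :=
  2 * n + 2 < m ∧ ∀ e : ℕ × ℕ, st.2.2 = some e → e.1 < n ∧ e.2 < n

theorem own_lt {c : Bool} {w n : ℕ} (h : w < n) : own c w < 2 * n := by
  unfold own
  split_ifs <;> omega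

theorem bstep_congr {m n : ℕ} {st : Stp} (h : StpOk m n st) (x : Bool) {B B' : ℕ → Bool}
    (hB : ∀ i < m, B i = B' i) {i : ℕ} (hi : i < m) : bstep n st x B i = bstep n st x B' i := by
  obtain ⟨h1, h2⟩ := h
  obtain ⟨r, c, _ | ⟨u, v⟩⟩ := st
  · have e1 : B (2 * n) = B' (2 * n) := hB _ (by omega)
    have e2 : ∀ b : Bool, B (2 * n + 1 + (if b then 0 else 1)) =
        B' (2 * n + 1 + (if b then 0 else 1)) := fun b => hB _ (by split_ifs <;> omega)
    have e3 : ∀ b : Bool, B (2 * n + 1 + (if b then 1 else 0)) =
        B' (2 * n + 1 + (if b then 1 else 0)) := fun b => hB _ (by split_ifs <;> omega)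
    simp only [bstep, e1, e2, e3, hB i hi]
  · obtain ⟨hu, hv⟩ : u < n ∧ v < n := h2 (u, v) rfl
    have e1 : B (2 * n) = B' (2 * n) := hB _ (by omega)
    have e2 : B (own c u) = B' (own c u) := hB _ (by have := own_lt (c := c) hu; omega)
    have e3 : B (own c v) = B' (own c v) := hB _ (by have := own_lt (c := c) hv; omega)
    have e4 : B (own (!c) v) = B' (own (!c) v) := hB _ (by have := own_lt (c := !c) hv; omega)
    simp only [bstep, e1, e2, e3, e4, hB i hi]

/-! ### The run of the bits and the clauses -/

/-- The bits at time `j`. -/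
def bitsAt (n : ℕ) (steps : List Stp) (B0 : ℕ → Bool) (x : ℕ → Bool) : ℕ → ℕ → Bool
  | 0 => B0
  | j + 1 => bstep n (steps.getD j (true, true, none)) (x j) (bitsAt n steps B0 x j)

theorem bitsAt_congr {n : ℕ} {steps : List Stp} {B0 : ℕ → Bool} {x y : ℕ → Bool} {j : ℕ}
    (h : ∀ i < j, x i = y i) : bitsAt n steps B0 x j = bitsAt n steps B0 y j := by
  induction j with
  | zero => rfl
  | succ j ih =>
    rw [bitsAt, bitsAt, ih (fun i hi => h i (by omega)), h j (by omega)]

/-- The clauses for all steps. -/
def stepCls (J m n : ℕ) (steps : List Stp) : List (List (ℕ × Bool)) :=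
  steps.zipIdx.flatMap (fun sj => (List.range m).flatMap (fun i => cls J m n sj.2 sj.1 i))

/-- All clauses. -/
def allCls (J m n : ℕ) (steps : List Stp) (ini : List (List (ℕ × Bool))) (out : ℕ) :
    List (List (ℕ × Bool)) :=
  ini ++ (stepCls J m n steps ++ [[(vr J m J out, true)]])

theorem sat_stepCls {J m n : ℕ} {steps : List Stp} {val : ℕ → Bool} :
    Sat (stepCls J m n steps) val ↔ ∀ j (hj : j < steps.length), ∀ i < m,
      val (vr J m (j + 1) i) = bstep n steps[j] (val j) (fun k => val (vr J m j k)) i := by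
  simp only [stepCls, sat_flatMap, List.mem_range, sat_cls]
  constructor
  · intro h j hj i hi
    exact h (steps[j], j) (List.mk_mem_zipIdx_iff_getElem?.2 (List.getElem?_eq_getElem hj)) i hi
  · rintro h ⟨s, j⟩ hs i hi
    obtain ⟨hj, rfl⟩ := List.getElem?_eq_some_iff.1 (List.mk_mem_zipIdx_iff_getElem?.1 hs)
    exact h j hj i hi

theorem bits_of_sat {J m n : ℕ} {steps : List Stp} (hJ : steps.length = J)
    (hok : ∀ st ∈ steps, StpOk m n st) {B0 : ℕ → Bool} {val : ℕ → Bool}
    (h0 : ∀ i < m, val (vr J m 0 i) = B0 i) (h : Sat (stepCls J m n steps) val) :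
    ∀ j ≤ J, ∀ i < m, val (vr J m j i) = bitsAt n steps B0 val j i := by
  intro j
  induction j with
  | zero => intro _ i hi; exact h0 i hi
  | succ j ih =>
    intro hj i hi
    have hj' : j < steps.length := by omega
    rw [sat_stepCls.1 h j hj' i hi, bitsAt, List.getD_eq_getElem?_getD,
      List.getElem?_eq_getElem hj', Option.getD_some]
    exact bstep_congr (hok _ (List.getElem_mem hj')) _ (ih (by omega)) hi

theorem vr_div {J m j i : ℕ} (hi : i < m) : (vr J m j i - J) / m = j ∧ (vr J m j i - J) % m = i := by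
  have h : vr J m j i - J = i + m * j := by
    unfold vr
    rw [Nat.mul_comm]
    omega
  rw [h]
  exact ⟨by rw [Nat.add_mul_div_left _ _ (by omega), Nat.div_eq_of_lt hi, Nat.zero_add],
    by rw [Nat.add_mul_mod_self_left, Nat.mod_eq_of_lt hi]⟩

theorem exists_sat {J m n : ℕ} {steps : List Stp} (hJ : steps.length = J)
    (hok : ∀ st ∈ steps, StpOk m n st) (B0 : ℕ → Bool)
    (x : ℕ → Bool) (ini : List (List (ℕ × Bool))) (out : ℕ) (hout : out < m)
    (hini : ∀ val : ℕ → Bool, Sat ini val ↔ ∀ i < m, val (vr J m 0 i) = B0 i)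
    (hacc : bitsAt n steps B0 x J out = true) :
    ∃ val : ℕ → Bool, (∀ j < J, val j = x j) ∧ Sat (allCls J m n steps ini out) val := by
  let val : ℕ → Bool := fun k => if k < J then x k else
    bitsAt n steps B0 x ((k - J) / m) ((k - J) % m)
  have hx : ∀ j < J, val j = x j := fun j hj => if_pos hj
  have hv : ∀ j i, i < m → val (vr J m j i) = bitsAt n steps B0 x j i := by
    intro j i hi
    have h1 : ¬ vr J m j i < J := by unfold vr; omega
    obtain ⟨h2, h3⟩ := vr_div (J := J) (j := j) hi
    show (if vr J m j i < J then _ else _) = _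
    rw [if_neg h1, h2, h3]
  refine ⟨val, hx, ?_⟩
  rw [allCls, sat_append, sat_append, hini, sat_stepCls]
  refine ⟨fun i hi => hv 0 i hi, fun j hj i hi => ?_, ?_⟩
  · rw [hv _ _ hi, bitsAt, List.getD_eq_getElem?_getD, List.getElem?_eq_getElem hj,
      Option.getD_some, hx j (hJ ▸ hj)]
    refine bstep_congr (hok _ (List.getElem_mem hj)) _ (fun k hk => (hv j k hk).symm) hi
  · intro C hC
    rw [List.mem_singleton] at hC
    subst hC
    exact ⟨_, List.mem_singleton_self _, (hv J out hout).trans hacc⟩

theorem exists_sat_iff {J m n : ℕ} {steps : List Stp} (hJ : steps.length = J)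
    (hok : ∀ st ∈ steps, StpOk m n st) (B0 : ℕ → Bool)
    (x : ℕ → Bool) (ini : List (List (ℕ × Bool))) (out : ℕ) (hout : out < m)
    (hini : ∀ val : ℕ → Bool, Sat ini val ↔ ∀ i < m, val (vr J m 0 i) = B0 i) :
    (∃ val : ℕ → Bool, (∀ j < J, val j = x j) ∧ Sat (allCls J m n steps ini out) val) ↔
      bitsAt n steps B0 x J out = true := by
  constructor
  · rintro ⟨val, hx, h⟩
    rw [allCls, sat_append, sat_append, hini] at h
    obtain ⟨h1, h2, h3⟩ := h
    have h4 := bits_of_sat hJ hok h1 h2 J le_rfl out hout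
    obtain ⟨l, hl, hv⟩ := h3 _ (List.mem_singleton_self _)
    rw [List.mem_singleton] at hl
    subst hl
    rw [← bitsAt_congr hx, ← h4]
    exact hv
  · exact exists_sat hJ hok B0 x ini out hout hini

/-! ### Truth of the formula -/

/-- The value of the game on bits. -/
def Val (n : ℕ) (acc : (ℕ → Bool) → Prop) : List Stp → (ℕ → Bool) → Prop
  | [], B => acc B
  | st :: L, B => if st.1 then ∃ b, Val n acc L (bstep n st b B) else
      ∀ b, Val n acc L (bstep n st b B)

theorem truth_replicate (M : List (List (ℕ × Bool))) (K : ℕ) (a : List Bool) :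
    Truth M a (List.replicate K true) ↔ ∃ w : List Bool, w.length = K ∧ Truth M (a ++ w) [] := by
  induction K generalizing a with
  | zero =>
    constructor
    · intro h
      exact ⟨[], rfl, by rw [List.append_nil]; exact h⟩
    · rintro ⟨w, hw, h⟩
      rw [List.length_eq_zero_iff.1 hw, List.append_nil] at h
      exact h
  | succ K ih =>
    rw [List.replicate_succ]
    show (∃ b, Truth M (a ++ [b]) (List.replicate K true)) ↔ _
    constructor
    · rintro ⟨b, h⟩
      obtain ⟨w, hw, h⟩ := (ih _).1 h
      refine ⟨b :: w, by simp [hw], ?_⟩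
      rw [List.append_assoc] at h
      exact h
    · rintro ⟨w, hw, h⟩
      rcases w with _ | ⟨b, w⟩
      · simp at hw
      · refine ⟨b, (ih _).2 ⟨w, by simpa using hw, ?_⟩⟩
        rw [List.append_assoc]
        exact h

theorem truth_nil_iff (M : List (List (ℕ × Bool))) (a : List Bool)
    (hM : ∀ C ∈ M, ∀ l ∈ C, l.1 < a.length) :
    Truth M a [] ↔ Sat M (fun i => a.getD i false) := by
  show (∀ C ∈ M, ∃ l ∈ C, a[l.1]? = some l.2) ↔ _
  constructor
  · intro h C hC
    obtain ⟨l, hl, hv⟩ := h C hC
    refine ⟨l, hl, ?_⟩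
    simp only [List.getD_eq_getElem?_getD, hv, Option.getD_some]
  · intro h C hC
    obtain ⟨l, hl, hv⟩ := h C hC
    refine ⟨l, hl, ?_⟩
    have h1 := List.getElem?_eq_getElem (hM C hC l hl)
    rw [h1]
    simp only [List.getD_eq_getElem?_getD, h1, Option.getD_some] at hv
    rw [hv]

theorem exists_word_iff (M : List (List (ℕ × Bool))) (a : List Bool) (K : ℕ)
    (hM : ∀ C ∈ M, ∀ l ∈ C, l.1 < a.length + K) :
    (∃ w : List Bool, w.length = K ∧ Truth M (a ++ w) []) ↔
      ∃ val : ℕ → Bool, (∀ j < a.length, val j = a.getD j false) ∧ Sat M val := by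
  constructor
  · rintro ⟨w, hw, h⟩
    refine ⟨fun i => (a ++ w).getD i false, fun j hj => ?_, (truth_nil_iff M _ (fun C hC l hl => by
      rw [List.length_append, hw]; exact hM C hC l hl)).1 h⟩
    simp only [List.getD_eq_getElem?_getD, List.getElem?_append_left hj]
  · rintro ⟨val, hv, h⟩
    refine ⟨(List.range K).map (fun k => val (a.length + k)), by simp, ?_⟩
    rw [truth_nil_iff M _ (fun C hC l hl => by
      rw [List.length_append, List.length_map, List.length_range]; exact hM C hC l hl)]
    intro C hC
    obtain ⟨l, hl, hv'⟩ := h C hC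
    refine ⟨l, hl, ?_⟩
    have hlt := hM C hC l hl
    rw [← hv']
    simp only [List.getD_eq_getElem?_getD]
    by_cases hl' : l.1 < a.length
    · rw [List.getElem?_append_left hl', hv _ hl', List.getD_eq_getElem?_getD]
    · rw [List.getElem?_append_right (by omega)]
      have : l.1 - a.length < K := by omega
      simp only [List.getElem?_map, List.getElem?_range this, Option.map_some, Option.getD_some]
      congr 1
      omega

theorem truth_val {n : ℕ} {M : List (List (ℕ × Bool))} {K : ℕ} {steps : List Stp}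
    {B0 : ℕ → Bool} {acc : (ℕ → Bool) → Prop}
    (h : ∀ a : List Bool, a.length = steps.length →
      ((∃ w : List Bool, w.length = K ∧ Truth M (a ++ w) []) ↔
        acc (bitsAt n steps B0 (fun i => a.getD i false) steps.length))) :
    ∀ (rest done : List Stp) (a : List Bool), steps = done ++ rest → a.length = done.length →
      (Truth M a (rest.map (fun s => s.1) ++ List.replicate K true) ↔
        Val n acc rest (bitsAt n steps B0 (fun i => a.getD i false) done.length)) := by
  intro rest
  induction rest with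
  | nil =>
    intro done a h1 h2
    rw [List.append_nil] at h1
    rw [List.map_nil, List.nil_append, truth_replicate, h a (by rw [h1]; exact h2), Val, h1]
  | cons st rest ih =>
    intro done a h1 h2
    have key : ∀ b : Bool, (Truth M (a ++ [b]) (rest.map (fun s => s.1) ++
        List.replicate K true) ↔ Val n acc rest (bstep n st b
          (bitsAt n steps B0 (fun i => a.getD i false) done.length))) := by
      intro b
      rw [ih (done ++ [st]) (a ++ [b]) (by rw [h1]; simp) (by simp [h2])]
      have e1 : (done ++ [st]).length = done.length + 1 := by simp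
      have e2 : steps.getD done.length (true, true, none) = st := by
        rw [h1, List.getD_eq_getElem?_getD]
        simp
      have e3 : (a ++ [b]).getD done.length false = b := by
        rw [← h2, List.getD_eq_getElem?_getD]
        simp
      rw [e1, bitsAt, e2, e3]
      have e4 : bitsAt n steps B0 (fun i => (a ++ [b]).getD i false) done.length =
          bitsAt n steps B0 (fun i => a.getD i false) done.length := by
        refine bitsAt_congr (fun i hi => ?_)
        simp only [List.getD_eq_getElem?_getD]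
        rw [List.getElem?_append_left (by omega)]
      rw [e4]
    rw [List.map_cons, List.cons_append, Val]
    cases hst : st.1
    · simp only [Bool.false_eq_true, if_false]
      exact forall_congr' key
    · simp only [if_true]
      exact exists_congr key

/-! ### Positions as bits -/

/-- The bits of a position; `mv`: the player has moved in this turn; `lE`, `lU`: the first player
(the second player) has lost. -/
def encB (n : ℕ) (p : Pos ℕ) (mv lE lU : Bool) (i : ℕ) : Bool :=
  if i < 2 * n then decide (p (i / 2) = some (decide (i % 2 = 0)))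
  else if i = 2 * n then mv
  else if i = 2 * n + 1 then lE
  else if i = 2 * n + 2 then lU
  else false

theorem own_div (c : Bool) (w : ℕ) : own c w / 2 = w ∧ decide (own c w % 2 = 0) = c := by
  unfold own
  cases c
  · simp only [Bool.false_eq_true, if_false, decide_eq_false_iff_not]
    omega
  · simp only [if_true, decide_eq_true_eq]
    omega

theorem encB_own {n : ℕ} (p : Pos ℕ) (mv lE lU : Bool) (c : Bool) {w : ℕ} (h : w < n) :
    encB n p mv lE lU (own c w) = decide (p w = some c) := by
  rw [encB, if_pos (own_lt h), (own_div c w).1, (own_div c w).2]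

theorem encB_mv {n : ℕ} (p : Pos ℕ) (mv lE lU : Bool) : encB n p mv lE lU (2 * n) = mv := by
  rw [encB, if_neg (lt_irrefl _), if_pos rfl]

theorem encB_E {n : ℕ} (p : Pos ℕ) (mv lE lU : Bool) : encB n p mv lE lU (2 * n + 1) = lE := by
  rw [encB, if_neg (by omega), if_neg (by omega), if_pos rfl]

theorem encB_U {n : ℕ} (p : Pos ℕ) (mv lE lU : Bool) : encB n p mv lE lU (2 * n + 2) = lU := by
  rw [encB, if_neg (by omega), if_neg (by omega), if_neg (by omega), if_pos rfl]

theorem eq_own (i : ℕ) : i = own (decide (i % 2 = 0)) (i / 2) := by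
  unfold own
  by_cases h : i % 2 = 0
  · simp only [h, decide_true, if_true]; omega
  · simp only [h, decide_false, Bool.false_eq_true, if_false]; omega

theorem own_inj {c c' : Bool} {w w' : ℕ} : own c w = own c' w' ↔ c = c' ∧ w = w' := by
  unfold own
  cases c <;> cases c' <;> simp <;> omega

theorem bstep_edge {n : ℕ} (r c : Bool) {u v : ℕ} (hu : u < n) (hv : v < n) (huv : u ≠ v)
    (x : Bool) (p : Pos ℕ) (mv lE lU : Bool) :
    bstep n (r, c, some (u, v)) x (encB n p mv lE lU) =
      if x = true ∧ mv = false ∧ p u = some c ∧ p v = none then encB n (step c p u v) true lE lU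
      else encB n p mv lE lU := by
  have ht : trig x (encB n p mv lE lU (2 * n)) (encB n p mv lE lU (own c u))
      (encB n p mv lE lU (own c v)) (encB n p mv lE lU (own (!c) v)) =
      decide (x = true ∧ mv = false ∧ p u = some c ∧ p v = none) := by
    rw [encB_mv, encB_own _ _ _ _ _ hu, encB_own _ _ _ _ _ hv, encB_own _ _ _ _ _ hv, trig]
    cases x <;> cases mv <;> simp
    by_cases h1 : p u = some c
    · simp only [h1, decide_true, Bool.true_and, true_and]
      rcases h2 : p v with _ | d
      · simp
      · cases c <;> cases d <;> simp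
    · simp [h1]
  funext i
  simp only [bstep]
  rw [ht]
  by_cases hc : x = true ∧ mv = false ∧ p u = some c ∧ p v = none
  · rw [if_pos hc, decide_eq_true hc]
    obtain ⟨hx, hmv, hpu, hpv⟩ := hc
    simp only [Bool.or_true, Bool.not_true, Bool.and_false]
    split_ifs with h1 h2 h3
    · rw [h1, encB_own _ _ _ _ _ hv, step, if_pos rfl, decide_eq_true rfl]
    · rw [h2, encB_own _ _ _ _ _ hu, step, if_neg huv, if_pos rfl]
      simp
    · rw [h3, encB_mv]
    · by_cases hi : i < 2 * n
      · have e := eq_own i
        have hw : i / 2 < n := by omega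
        rw [e] at h1 h2 ⊢
        rw [encB_own _ _ _ _ _ hw, encB_own _ _ _ _ _ hw, step]
        rw [own_inj] at h1 h2
        split_ifs with h4 h5
        · rw [h4, hpv]
          have h6 : decide (i % 2 = 0) ≠ c := fun h => h1 ⟨h, h4⟩
          simp only [reduceCtorEq, decide_false, Option.some.injEq]
          exact (decide_eq_false (fun h => h6 h.symm)).symm
        · rw [h5, hpu]
          have h6 : decide (i % 2 = 0) ≠ c := fun h => h2 ⟨h, h5⟩
          simp only [reduceCtorEq, decide_false, Option.some.injEq]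
          exact decide_eq_false (fun h => h6 h.symm)
        · rfl
      · simp only [encB, if_neg hi, if_neg h3]
  · rw [if_neg hc, decide_eq_false hc]
    simp only [Bool.or_false, Bool.not_false, Bool.and_true]
    split_ifs with h1 h2 h3
    · rw [h1]
    · rw [h2]
    · rw [h3]
    · rfl

theorem bstep_end {n : ℕ} (r c x : Bool) (p : Pos ℕ) (mv lE lU : Bool) :
    bstep n (r, c, none) x (encB n p mv lE lU) =
      encB n p false (if r then lE || (!mv && !lU) else lE)
        (if r then lU else lU || (!mv && !lE)) := by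
  funext i
  cases r
  · simp only [bstep, Bool.false_eq_true, if_false, Nat.add_zero]
    rw [encB_mv, encB_U, encB_E]
    split_ifs with h1 h2
    · rw [h1, encB_mv]
    · rw [h2, encB_U]
    · simp only [encB]
      split_ifs <;> rfl
  · simp only [bstep, if_true, Nat.add_zero]
    rw [encB_mv, encB_U, encB_E]
    split_ifs with h1 h2
    · rw [h1, encB_mv]
    · rw [h2, encB_E]
    · simp only [encB]
      split_ifs <;> rfl

/-! ### The value of the game on bits -/

/-- The second player has lost. -/
def accB (n : ℕ) (B : ℕ → Bool) : Prop := B (2 * n + 2) = true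

/-- The steps of a turn. -/
def turn (r c : Bool) (E : List (ℕ × ℕ)) : List Stp :=
  E.map (fun e => (r, c, some e)) ++ [(r, c, none)]

/-- The edges are admissible. -/
def EOk (n : ℕ) (E : List (ℕ × ℕ)) : Prop := ∀ e ∈ E, e.1 < n ∧ e.2 < n ∧ e.1 ≠ e.2

/-- The step is admissible. -/
def SOk (n : ℕ) (st : Stp) : Prop := ∀ e, st.2.2 = some e → e.1 < n ∧ e.2 < n ∧ e.1 ≠ e.2

theorem val_lost {n : ℕ} {L : List Stp} (hL : ∀ st ∈ L, SOk n st) :
    ∀ (p : Pos ℕ) (mv : Bool), ¬ Val n (accB n) L (encB n p mv true false) := by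
  induction L with
  | nil =>
    intro p mv h
    rw [Val, accB, encB_U] at h
    exact Bool.false_ne_true h
  | cons st L ih =>
    intro p mv h
    have ih' := ih (fun s hs => hL s (List.mem_cons_of_mem _ hs))
    have key : ∀ b, ¬ Val n (accB n) L (bstep n st b (encB n p mv true false)) := by
      intro b
      obtain ⟨r, c, _ | ⟨u, v⟩⟩ := st
      · rw [bstep_end]
        cases r <;> simp <;> exact ih' _ _
      · obtain ⟨hu, hv, huv⟩ : u < n ∧ v < n ∧ u ≠ v := hL _ List.mem_cons_self (u, v) rfl
        rw [bstep_edge r c hu hv huv]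
        split_ifs
        · exact ih' _ _
        · exact ih' _ _
    rw [Val] at h
    split_ifs at h
    · obtain ⟨b, hb⟩ := h
      exact key b hb
    · exact key true (h true)

theorem val_won {n : ℕ} {L : List Stp} (hL : ∀ st ∈ L, SOk n st) :
    ∀ (p : Pos ℕ) (mv : Bool), Val n (accB n) L (encB n p mv false true) := by
  induction L with
  | nil =>
    intro p mv
    rw [Val, accB, encB_U]
  | cons st L ih =>
    intro p mv
    have ih' := ih (fun s hs => hL s (List.mem_cons_of_mem _ hs))
    have key : ∀ b, Val n (accB n) L (bstep n st b (encB n p mv false true)) := by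
      intro b
      obtain ⟨r, c, _ | ⟨u, v⟩⟩ := st
      · rw [bstep_end]
        cases r <;> simp <;> exact ih' _ _
      · obtain ⟨hu, hv, huv⟩ : u < n ∧ v < n ∧ u ≠ v := hL _ List.mem_cons_self (u, v) rfl
        rw [bstep_edge r c hu hv huv]
        split_ifs
        · exact ih' _ _
        · exact ih' _ _
    rw [Val]
    split_ifs
    · exact ⟨true, key true⟩
    · exact fun b => key b

theorem turn_moved {n : ℕ} {E : List (ℕ × ℕ)} (hE : EOk n E) (r c : Bool) (L : List Stp)
    (acc : (ℕ → Bool) → Prop) (p : Pos ℕ) (lE lU : Bool) :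
    Val n acc (turn r c E ++ L) (encB n p true lE lU) ↔ Val n acc L (encB n p false lE lU) := by
  induction E with
  | nil =>
    simp only [turn, List.map_nil, List.nil_append, List.cons_append, Val, bstep_end]
    cases r <;> simp
  | cons e E ih =>
    obtain ⟨u, v⟩ := e
    obtain ⟨hu, hv, huv⟩ : u < n ∧ v < n ∧ u ≠ v := hE (u, v) List.mem_cons_self
    have ih' := ih (fun e he => hE e (List.mem_cons_of_mem _ he))
    have e1 : turn r c ((u, v) :: E) ++ L = (r, c, some (u, v)) :: (turn r c E ++ L) := rfl
    rw [e1, Val, ← ih']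
    simp only [bstep_edge r c hu hv huv, Bool.true_eq_false, false_and, and_false, if_false]
    cases r <;> simp

theorem turn_exists {n : ℕ} {E : List (ℕ × ℕ)} (hE : EOk n E) (c : Bool) (L : List Stp)
    (acc : (ℕ → Bool) → Prop) (p : Pos ℕ) :
    Val n acc (turn true c E ++ L) (encB n p false false false) ↔
      (∃ e ∈ E, p e.1 = some c ∧ p e.2 = none ∧
        Val n acc L (encB n (step c p e.1 e.2) false false false)) ∨
      Val n acc L (encB n p false true false) := by
  induction E with
  | nil =>
    simp only [turn, List.map_nil, List.nil_append, List.cons_append, Val, bstep_end]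
    simp
  | cons e E ih =>
    obtain ⟨u, v⟩ := e
    obtain ⟨hu, hv, huv⟩ : u < n ∧ v < n ∧ u ≠ v := hE (u, v) List.mem_cons_self
    have hE' : EOk n E := fun e he => hE e (List.mem_cons_of_mem _ he)
    have ih' := ih hE'
    have e1 : turn true c ((u, v) :: E) ++ L = (true, c, some (u, v)) :: (turn true c E ++ L) := rfl
    rw [e1, Val]
    simp only [if_true, bstep_edge true c hu hv huv, Bool.exists_bool, Bool.false_eq_true,
      false_and, if_false, true_and]
    rw [ih']
    simp only [List.mem_cons, exists_eq_or_imp]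
    split_ifs with h
    · rw [turn_moved hE']
      obtain ⟨h1, h2⟩ := h
      simp only [h1, h2, true_and]
      rw [or_comm, or_assoc]
    · rw [ih']
      have : ¬ (p u = some c ∧ p v = none ∧
          Val n acc L (encB n (step c p u v) false false false)) := fun h' => h ⟨h'.1, h'.2.1⟩
      simp only [this, false_or, or_self]

theorem turn_forall {n : ℕ} {E : List (ℕ × ℕ)} (hE : EOk n E) (c : Bool) (L : List Stp)
    (acc : (ℕ → Bool) → Prop) (p : Pos ℕ) :
    Val n acc (turn false c E ++ L) (encB n p false false false) ↔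
      (∀ e ∈ E, p e.1 = some c → p e.2 = none →
        Val n acc L (encB n (step c p e.1 e.2) false false false)) ∧
      Val n acc L (encB n p false false true) := by
  induction E with
  | nil =>
    simp only [turn, List.map_nil, List.nil_append, List.cons_append, Val, bstep_end]
    simp
  | cons e E ih =>
    obtain ⟨u, v⟩ := e
    obtain ⟨hu, hv, huv⟩ : u < n ∧ v < n ∧ u ≠ v := hE (u, v) List.mem_cons_self
    have hE' : EOk n E := fun e he => hE e (List.mem_cons_of_mem _ he)
    have ih' := ih hE'
    have e1 : turn false c ((u, v) :: E) ++ L =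
      (false, c, some (u, v)) :: (turn false c E ++ L) := rfl
    rw [e1, Val]
    simp only [Bool.false_eq_true, if_false, bstep_edge false c hu hv huv, Bool.forall_bool,
      false_and, true_and]
    rw [ih']
    simp only [List.mem_cons, forall_eq_or_imp]
    split_ifs with h
    · rw [turn_moved hE']
      obtain ⟨h1, h2⟩ := h
      simp only [h1, h2, forall_const]
      rw [and_comm, and_assoc]
    · rw [ih']
      have : p u = some c → p v = none →
          Val n acc L (encB n (step c p u v) false false false) :=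
        fun h1 h2 => absurd ⟨h1, h2⟩ h
      simp only [and_self]
      exact ⟨fun h' => ⟨⟨this, h'.1⟩, h'.2⟩, fun h' => ⟨h'.1.2, h'.2⟩⟩

/-- The steps of `T` rounds. -/
def rounds (c : Bool) (E : List (ℕ × ℕ)) (T : ℕ) : List Stp :=
  (List.range T).flatMap (fun _ => turn true c E ++ turn false (!c) E)

theorem rounds_succ (c : Bool) (E : List (ℕ × ℕ)) (T : ℕ) :
    rounds c E (T + 1) = turn true c E ++ (turn false (!c) E ++ rounds c E T) := by
  simp only [rounds, List.range_succ_eq_map, List.flatMap_cons, List.append_assoc,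
    List.flatMap_map]

theorem sOk_turn {n : ℕ} {E : List (ℕ × ℕ)} (hE : EOk n E) (r c : Bool) :
    ∀ st ∈ turn r c E, SOk n st := by
  intro st hst e he
  simp only [turn, List.mem_append, List.mem_map, List.mem_singleton] at hst
  rcases hst with ⟨e', he', rfl⟩ | rfl
  · simp only [Option.some.injEq] at he
    subst he
    exact hE _ he'
  · simp at he

theorem sOk_rounds {n : ℕ} {E : List (ℕ × ℕ)} (hE : EOk n E) (c : Bool) (T : ℕ) :
    ∀ st ∈ rounds c E T, SOk n st := by
  intro st hst
  simp only [rounds, List.mem_flatMap, List.mem_append] at hst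
  obtain ⟨_, _, h | h⟩ := hst
  · exact sOk_turn hE _ _ _ h
  · exact sOk_turn hE _ _ _ h

/-- The first player wins within `T` rounds. -/
def Wk (E : ℕ → ℕ → Prop) (c : Bool) : ℕ → Pos ℕ → Prop
  | 0, _ => False
  | T + 1, p => ∃ p', Move E c p p' ∧ ∀ p'', Move E (!c) p' p'' → Wk E c T p''

theorem move_iff {E : List (ℕ × ℕ)} {c : Bool} {p p' : Pos ℕ} :
    Move (fun u v => (u, v) ∈ E) c p p' ↔
      ∃ e ∈ E, p e.1 = some c ∧ p e.2 = none ∧ p' = step c p e.1 e.2 := by
  constructor
  · rintro ⟨u, v, h1, h2, h3, h4⟩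
    exact ⟨(u, v), h1, h2, h3, h4⟩
  · rintro ⟨⟨u, v⟩, h1, h2, h3, h4⟩
    exact ⟨u, v, h1, h2, h3, h4⟩

theorem val_rounds {n : ℕ} {E : List (ℕ × ℕ)} (hE : EOk n E) (c : Bool) (T : ℕ) :
    ∀ p : Pos ℕ, Val n (accB n) (rounds c E T) (encB n p false false false) ↔
      Wk (fun u v => (u, v) ∈ E) c T p := by
  induction T with
  | zero =>
    intro p
    show accB n _ ↔ False
    rw [accB, encB_U]
    simp
  | succ T ih =>
    intro p
    rw [rounds_succ, turn_exists hE]
    have hL : ∀ st ∈ turn false (!c) E ++ rounds c E T, SOk n st := by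
      intro st hst
      rcases List.mem_append.1 hst with h | h
      · exact sOk_turn hE _ _ _ h
      · exact sOk_rounds hE _ _ _ h
    have h1 := val_lost hL p false
    simp only [h1, or_false, Wk]
    have h2 := fun q => val_won (sOk_rounds hE c T) q false
    simp only [turn_forall hE, h2, and_true, ih]
    constructor
    · rintro ⟨e, he, h3, h4, h5⟩
      refine ⟨step c p e.1 e.2, move_iff.2 ⟨e, he, h3, h4, rfl⟩, fun p'' h6 => ?_⟩
      obtain ⟨e', he', h7, h8, rfl⟩ := move_iff.1 h6
      exact h5 e' he' h7 h8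
    · rintro ⟨p', h3, h4⟩
      obtain ⟨e, he, h5, h6, rfl⟩ := move_iff.1 h3
      exact ⟨e, he, h5, h6, fun e' he' h7 h8 => h4 _ (move_iff.2 ⟨e', he', h7, h8, rfl⟩)⟩

/-! ### The length of the play -/

section length

variable {n : ℕ} {R : ℕ → ℕ → Prop}

open Classical in
/-- The number of the vertices behind `v`. -/
noncomputable def rk (n : ℕ) (R : ℕ → ℕ → Prop) (v : ℕ) : ℕ :=
  ((Finset.range n).filter (fun w => Relation.TransGen R v w)).card

theorem rk_le (v : ℕ) : rk n R v ≤ n := by
  classical
  unfold rk
  exact (Finset.card_filter_le _ _).trans (by simp)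

theorem rk_lt (hac : ∀ v, ¬ Relation.TransGen R v v) {u v : ℕ} (hv : v < n) (h : R u v) :
    rk n R v < rk n R u := by
  classical
  unfold rk
  apply Finset.card_lt_card
  rw [Finset.ssubset_iff_of_subset]
  · refine ⟨v, ?_, ?_⟩
    · rw [Finset.mem_filter, Finset.mem_range]
      exact ⟨hv, Relation.TransGen.single h⟩
    · rw [Finset.mem_filter]
      exact fun h' => hac v h'.2
  · intro w hw
    rw [Finset.mem_filter] at hw ⊢
    exact ⟨hw.1, Relation.TransGen.head h hw.2⟩

/-- The sum of the ranks of the tokens. -/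
noncomputable def pot (n : ℕ) (R : ℕ → ℕ → Prop) (p : Pos ℕ) : ℕ :=
  ∑ w ∈ Finset.range n, if p w = none then 0 else rk n R w

theorem pot_le (p : Pos ℕ) : pot n R p ≤ n * n := by
  unfold pot
  calc _ ≤ ∑ _w ∈ Finset.range n, n := Finset.sum_le_sum (fun w _ => by
        split_ifs
        · exact Nat.zero_le _
        · exact rk_le w)
    _ = n * n := by rw [Finset.sum_const, Finset.card_range, smul_eq_mul]

theorem pot_lt (hR : ∀ u v, R u v → u < n ∧ v < n) (hac : ∀ v, ¬ Relation.TransGen R v v)
    {c : Bool} {p p' : Pos ℕ} (h : Move R c p p') : pot n R p' < pot n R p := by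
  obtain ⟨u, v, h1, h2, h3, rfl⟩ := h
  obtain ⟨hu, hv⟩ := hR u v h1
  have huv : u ≠ v := by
    rintro rfl
    exact hac u (Relation.TransGen.single h1)
  have key : pot n R (step c p u v) + rk n R u = pot n R p + rk n R v := by
    unfold pot
    have e1 : rk n R u = ∑ w ∈ Finset.range n, if w = u then rk n R u else 0 := by
      rw [Finset.sum_ite_eq' (Finset.range n) u (fun _ => rk n R u),
        if_pos (Finset.mem_range.2 hu)]
    have e2 : rk n R v = ∑ w ∈ Finset.range n, if w = v then rk n R v else 0 := by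
      rw [Finset.sum_ite_eq' (Finset.range n) v (fun _ => rk n R v),
        if_pos (Finset.mem_range.2 hv)]
    rw [e1, e2, ← Finset.sum_add_distrib, ← Finset.sum_add_distrib]
    refine Finset.sum_congr rfl (fun w _ => ?_)
    by_cases hwv : w = v
    · subst hwv
      simp [step, h3, Ne.symm huv]
    · by_cases hwu : w = u
      · subst hwu
        simp [step, h2, hwv]
      · simp [step, hwv, hwu]
  have := rk_lt hac hv h1
  omega

theorem wins_iff_wk (hR : ∀ u v, R u v → u < n ∧ v < n) (hac : ∀ v, ¬ Relation.TransGen R v v)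
    (c : Bool) : ∀ (T : ℕ) (p : Pos ℕ), pot n R p < T → (Wins R c p ↔ Wk R c T p) := by
  intro T
  induction T with
  | zero => intro p h; exact absurd h (Nat.not_lt_zero _)
  | succ T ih =>
    intro p h
    have hstep : ∀ p' p'', Move R c p p' → Move R (!c) p' p'' → pot n R p'' < T := by
      intro p' p'' h1 h2
      have h3 := pot_lt hR hac h1
      have h4 := pot_lt hR hac h2
      omega
    constructor
    · intro hw
      cases hw with
      | mk _ p' hm hall => exact ⟨p', hm, fun p'' h2 => (ih p'' (hstep p' p'' hm h2)).1 (hall p'' h2)⟩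
    · rintro ⟨p', hm, hall⟩
      exact .mk p p' hm (fun p'' h2 => (ih p'' (hstep p' p'' hm h2)).2 (hall p'' h2))

end length

/-! ### The formula -/

/-- The bits of the given position. -/
def iniBit (I : NBData) (i : ℕ) : Bool :=
  I.left.any (fun w => decide (i = 2 * w)) || I.right.any (fun w => decide (i = 2 * w + 1))

theorem iniBit_eq {I : NBData} (hI : I.Valid) (i : ℕ) :
    iniBit I i = encB I.1 I.pos false false false i := by
  have h1 : I.left.any (fun w => decide (i = 2 * w)) = decide (∃ w ∈ I.left, i = 2 * w) := by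
    rw [Bool.eq_iff_iff, List.any_eq_true]
    simp
  have h2 : I.right.any (fun w => decide (i = 2 * w + 1)) =
      decide (∃ w ∈ I.right, i = 2 * w + 1) := by
    rw [Bool.eq_iff_iff, List.any_eq_true]
    simp
  rw [iniBit, h1, h2]
  by_cases hi : i < 2 * I.1
  · have hw : i / 2 < I.1 := by omega
    rw [encB, if_pos hi, NBData.pos, Bool.eq_iff_iff]
    simp only [Bool.or_eq_true, decide_eq_true_eq]
    by_cases hL : i / 2 ∈ I.left
    · rw [if_pos hL]
      have hnR : i / 2 ∉ I.right := hI.disjoint _ hL
      by_cases hpar : i % 2 = 0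
      · simp only [hpar, decide_true, iff_true]
        exact Or.inl ⟨i / 2, hL, by omega⟩
      · simp only [hpar, decide_false, Option.some.injEq, Bool.true_eq_false, iff_false]
        rintro (⟨w, _, hw'⟩ | ⟨w, hwR, hw'⟩)
        · omega
        · have : w = i / 2 := by omega
          exact hnR (this ▸ hwR)
    · rw [if_neg hL]
      by_cases hR : i / 2 ∈ I.right
      · rw [if_pos hR]
        by_cases hpar : i % 2 = 0
        · simp only [hpar, decide_true, Option.some.injEq, Bool.false_eq_true, iff_false]
          rintro (⟨w, hwL, hw'⟩ | ⟨w, _, hw'⟩)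
          · have : w = i / 2 := by omega
            exact hL (this ▸ hwL)
          · omega
        · simp only [hpar, decide_false, iff_true]
          exact Or.inr ⟨i / 2, hR, by omega⟩
      · rw [if_neg hR]
        simp only [reduceCtorEq, iff_false]
        rintro (⟨w, hwL, hw'⟩ | ⟨w, hwR, hw'⟩)
        · have : w = i / 2 := by omega
          exact hL (this ▸ hwL)
        · have : w = i / 2 := by omega
          exact hR (this ▸ hwR)
  · have e1 : encB I.1 I.pos false false false i = false := by
      simp only [encB, if_neg hi]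
      split_ifs <;> rfl
    rw [e1, Bool.or_eq_false_iff, decide_eq_false_iff_not, decide_eq_false_iff_not]
    constructor
    · rintro ⟨w, hwL, hw'⟩
      have := hI.left_lt w hwL
      omega
    · rintro ⟨w, hwR, hw'⟩
      have := hI.right_lt w hwR
      omega

/-- The clauses for the given position. -/
def iniCls (J m : ℕ) (I : NBData) : List (List (ℕ × Bool)) :=
  (List.range m).map (fun i => [(vr J m 0 i, iniBit I i)])

theorem sat_iniCls {J m : ℕ} {I : NBData} (hI : I.Valid) (val : ℕ → Bool) :
    Sat (iniCls J m I) val ↔ ∀ i < m, val (vr J m 0 i) = encB I.1 I.pos false false false i := by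
  simp only [Sat, iniCls, List.mem_map, List.mem_range]
  constructor
  · intro h i hi
    obtain ⟨l, hl, hv⟩ := h _ ⟨i, hi, rfl⟩
    rw [List.mem_singleton] at hl
    subst hl
    rw [← iniBit_eq hI]
    exact hv
  · rintro h C ⟨i, hi, rfl⟩
    exact ⟨_, List.mem_singleton_self _, (h i hi).trans (iniBit_eq hI i).symm⟩

/-- The steps. -/
def upSteps (I : NBData) : List Stp := rounds I.mover I.edges (I.1 * I.1 + 1)

/-- The formula of an instance of Node Blocking. -/
def upForm (I : NBData) : Formula :=
  ((upSteps I).map (fun s => s.1) ++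
    List.replicate (((upSteps I).length + 1) * (2 * I.1 + 3)) true,
   allCls (upSteps I).length (2 * I.1 + 3) I.1 (upSteps I)
    (iniCls (upSteps I).length (2 * I.1 + 3) I) (2 * I.1 + 2))

theorem vr_lt {J m j i : ℕ} (hj : j ≤ J) (hi : i < m) : vr J m j i < J + (J + 1) * m := by
  unfold vr
  have : j * m ≤ J * m := Nat.mul_le_mul_right m hj
  rw [Nat.add_mul, Nat.one_mul]
  omega

theorem cls_lt {J m n j : ℕ} {st : Stp} (hst : StpOk m n st) (hj : j < J) {i : ℕ} (hi : i < m) :
    ∀ C ∈ cls J m n j st i, ∀ l ∈ C, l.1 < J + (J + 1) * m := by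
  obtain ⟨h1, h2⟩ := hst
  have hjj : j < J + (J + 1) * m := by omega
  have hz := vr_lt (J := J) (m := m) (j := j + 1) (by omega) hi
  have hy : ∀ k < m, vr J m j k < J + (J + 1) * m := fun k hk => vr_lt (by omega) hk
  obtain ⟨r, c, _ | ⟨u, v⟩⟩ := st
  · have hy2 := hy (2 * n) (by omega)
    have hy3 : ∀ b : Bool, vr J m j (2 * n + 1 + (if b then 0 else 1)) < J + (J + 1) * m :=
      fun b => hy _ (by split_ifs <;> omega)
    have hy4 : ∀ b : Bool, vr J m j (2 * n + 1 + (if b then 1 else 0)) < J + (J + 1) * m :=
      fun b => hy _ (by split_ifs <;> omega)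
    have hyi := hy i hi
    simp only [cls]
    split_ifs
    all_goals
      refine tab_lt hz ?_
      intro y hy'
      simp only [List.mem_cons, List.not_mem_nil, or_false] at hy'
    · rcases hy' with rfl | rfl | rfl
      · exact hy2
      · exact hy _ (by omega)
      · exact hy _ (by omega)
    · subst hy'; exact hyi
    · rcases hy' with rfl | rfl | rfl
      · exact hy2
      · exact hy _ (by omega)
      · exact hy _ (by omega)
    · subst hy'; exact hyi
  · obtain ⟨hu, hv⟩ : u < n ∧ v < n := h2 (u, v) rfl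
    have hy2 := hy (2 * n) (by omega)
    have hy3 := hy (own c u) (by have := own_lt (c := c) hu; omega)
    have hy4 := hy (own c v) (by have := own_lt (c := c) hv; omega)
    have hy5 := hy (own (!c) v) (by have := own_lt (c := !c) hv; omega)
    have hyi := hy i hi
    simp only [cls]
    split_ifs
    all_goals
      refine tab_lt hz ?_
      intro y hy'
      simp only [List.mem_cons, List.not_mem_nil, or_false] at hy'
    · rcases hy' with rfl | rfl | rfl | rfl | rfl <;> assumption
    · rcases hy' with rfl | rfl | rfl | rfl | rfl <;> assumption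
    · rcases hy' with rfl | rfl | rfl | rfl | rfl <;> assumption
    · subst hy'; exact hyi

theorem allCls_lt {J m n : ℕ} {steps : List Stp} {ini : List (List (ℕ × Bool))} {out : ℕ}
    (hJ : steps.length = J) (hok : ∀ st ∈ steps, StpOk m n st) (hout : out < m)
    (hini : ∀ C ∈ ini, ∀ l ∈ C, l.1 < J + (J + 1) * m) :
    ∀ C ∈ allCls J m n steps ini out, ∀ l ∈ C, l.1 < J + (J + 1) * m := by
  intro C hC l hl
  simp only [allCls, stepCls, List.mem_append, List.mem_flatMap, List.mem_singleton] at hC
  rcases hC with hC | ⟨⟨s, j⟩, hs, i, hi, hC⟩ | rfl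
  · exact hini C hC l hl
  · obtain ⟨hj, rfl⟩ := List.getElem?_eq_some_iff.1 (List.mk_mem_zipIdx_iff_getElem?.1 hs)
    exact cls_lt (hok _ (List.getElem_mem hj)) (by omega) (List.mem_range.1 hi) C hC l hl
  · rw [List.mem_singleton] at hl
    subst hl
    exact vr_lt le_rfl hout

section valid

variable {I : NBData} (hI : I.Valid)

include hI

theorem eOk : EOk I.1 I.edges := by
  intro e he
  refine ⟨(hI.edges_lt e he).1, (hI.edges_lt e he).2, fun h => ?_⟩
  refine hI.acyclic e.1 (Relation.TransGen.single ?_)
  show (e.1, e.1) ∈ I.edges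
  have : (e.1, e.1) = e := by rw [Prod.ext_iff]; exact ⟨rfl, h⟩
  rw [this]
  exact he

theorem stpOk : ∀ st ∈ upSteps I, StpOk (2 * I.1 + 3) I.1 st := by
  intro st hst
  refine ⟨by omega, fun e he => ?_⟩
  have := sOk_rounds (eOk hI) _ _ st hst e he
  exact ⟨this.1, this.2.1⟩

theorem upForm_closed : (upForm I).Closed := by
  intro C hC l hl
  have h := allCls_lt rfl (stpOk hI) (by omega : 2 * I.1 + 2 < 2 * I.1 + 3) (fun C hC l hl => by
    simp only [iniCls, List.mem_map, List.mem_range] at hC
    obtain ⟨i, hi, rfl⟩ := hC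
    rw [List.mem_singleton] at hl
    subst hl
    exact vr_lt (Nat.zero_le _) hi) C hC l hl
  have h2 : (upForm I).1.length = (upSteps I).length +
      ((upSteps I).length + 1) * (2 * I.1 + 3) := by
    simp [upForm]
  rw [h2]
  exact h

theorem upForm_truth : Truth (upForm I).2 [] (upForm I).1 ↔
    Wins (fun u v => (u, v) ∈ I.edges) I.mover I.pos := by
  have hok := stpOk hI
  have h1 := truth_val (n := I.1) (M := (upForm I).2)
    (K := ((upSteps I).length + 1) * (2 * I.1 + 3)) (steps := upSteps I)
    (B0 := encB I.1 I.pos false false false) (acc := accB I.1) (fun a ha => by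
      rw [exists_word_iff, ha]
      · rw [accB]
        exact exists_sat_iff rfl hok _ _ _ _ (by omega) (sat_iniCls hI)
      · rw [ha]
        exact allCls_lt rfl hok (by omega) (fun C hC l hl => by
          simp only [iniCls, List.mem_map, List.mem_range] at hC
          obtain ⟨i, hi, rfl⟩ := hC
          rw [List.mem_singleton] at hl
          subst hl
          exact vr_lt (Nat.zero_le _) hi)) (upSteps I) [] [] rfl rfl
  have h2 : Truth (upForm I).2 [] (upForm I).1 ↔ Val I.1 (accB I.1) (upSteps I)
      (encB I.1 I.pos false false false) := h1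
  rw [h2, upSteps, val_rounds (eOk hI)]
  refine (wins_iff_wk (n := I.1) (fun u v h => hI.edges_lt (u, v) h) hI.acyclic I.mover _ _ ?_).symm
  exact Nat.lt_succ_of_le (pot_le _)

end valid

/-! ### Polynomial time -/

section pt

variable {α : Type} [Enc α]

theorem PT.diffLits {ys : α → List ℕ} (hy : PT ys) (τ : List Bool) :
    PT (fun a => diffLits (ys a) τ) := by
  have h : ∀ (τ : List Bool) {ys : α → List ℕ}, PT ys →
      PT (fun a => List.zipWith (fun y b => (y, !b)) (ys a) τ) := by
    intro τ
    induction τ with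
    | nil =>
      intro ys _
      exact (PT.const []).congr (fun a => by simp)
    | cons b τ ih =>
      intro ys hy
      refine (PT.append (PT.map (PT.toList (PT.head? hy)) (g := fun _ y => (y, !b))
        (PT.snd.pair (PT.const (!b)))) (ih (PT.tail hy))).congr (fun a => ?_)
      cases ys a <;> rfl
  exact h τ hy

theorem PT.tab {z : α → ℕ} {ys : α → List ℕ} (hz : PT z) (hy : PT ys) (k : ℕ)
    (g : List Bool → Bool) : PT (fun a => tab k g (z a) (ys a)) :=
  PT.mapConst (words k) (f := fun τ a => (z a, g τ) :: MP_8607b9_lc.diffLits (ys a) τ)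
    (fun τ _ => PT.cons (hz.pair (PT.const (g τ))) (PT.diffLits hy τ))

theorem PT.vr {J m j k : α → ℕ} (hJ : PT J) (hm : PT m) (hj : PT j) (hk : PT k) :
    PT (fun a => vr (J a) (m a) (j a) (k a)) := (hJ.add (hj.mul hm)).add hk

theorem PT.bcase {b : α → Bool} (hb : PT b) (m n : ℕ) : PT (fun a => if b a then m else n) :=
  PT.ite (c := fun a => b a = true) (hb.congr (fun a => by simp)) (PT.const m) (PT.const n)

theorem PT.own {c : α → Bool} {w : α → ℕ} (hc : PT c) (hw : PT w) :
    PT (fun a => own (c a) (w a)) := (hw.mulConst 2).add (PT.bcase hc 0 1)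

theorem PT.cls {J m n j : α → ℕ} {st : α → Stp} {i : α → ℕ} (hJ : PT J) (hm : PT m) (hn : PT n)
    (hj : PT j) (hst : PT st) (hi : PT i) :
    PT (fun a => cls (J a) (m a) (n a) (j a) (st a) (i a)) := by
  have two : ∀ {β : Type} [Enc β] {f : β → ℕ}, PT f → PT (fun a => 2 * f a) :=
    fun hf => hf.mulConst 2
  refine (PT.optCases (f := fun a => (st a).2.2)
    (g := fun a => if i a = 2 * n a then MP_8607b9_lc.tab 0 (fun _ => false)
        (MP_8607b9_lc.vr (J a) (m a) (j a + 1) (i a)) []
      else if i a = 2 * n a + 1 + (if (st a).1 then 0 else 1) then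
        MP_8607b9_lc.tab 3 gL (MP_8607b9_lc.vr (J a) (m a) (j a + 1) (i a))
          [MP_8607b9_lc.vr (J a) (m a) (j a) (2 * n a),
           MP_8607b9_lc.vr (J a) (m a) (j a) (2 * n a + 1 + (if (st a).1 then 0 else 1)),
           MP_8607b9_lc.vr (J a) (m a) (j a) (2 * n a + 1 + (if (st a).1 then 1 else 0))]
      else MP_8607b9_lc.tab 1 gC (MP_8607b9_lc.vr (J a) (m a) (j a + 1) (i a))
        [MP_8607b9_lc.vr (J a) (m a) (j a) (i a)])
    (h := fun a e => if i a = MP_8607b9_lc.own (st a).2.1 e.2 then
        MP_8607b9_lc.tab 5 gV (MP_8607b9_lc.vr (J a) (m a) (j a + 1) (i a))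
          [j a, MP_8607b9_lc.vr (J a) (m a) (j a) (2 * n a),
            MP_8607b9_lc.vr (J a) (m a) (j a) (MP_8607b9_lc.own (st a).2.1 e.1),
            MP_8607b9_lc.vr (J a) (m a) (j a) (MP_8607b9_lc.own (st a).2.1 e.2),
            MP_8607b9_lc.vr (J a) (m a) (j a) (MP_8607b9_lc.own (!(st a).2.1) e.2)]
      else if i a = MP_8607b9_lc.own (st a).2.1 e.1 then
        MP_8607b9_lc.tab 5 gU (MP_8607b9_lc.vr (J a) (m a) (j a + 1) (i a))
          [j a, MP_8607b9_lc.vr (J a) (m a) (j a) (2 * n a),
            MP_8607b9_lc.vr (J a) (m a) (j a) (MP_8607b9_lc.own (st a).2.1 e.1),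
            MP_8607b9_lc.vr (J a) (m a) (j a) (MP_8607b9_lc.own (st a).2.1 e.2),
            MP_8607b9_lc.vr (J a) (m a) (j a) (MP_8607b9_lc.own (!(st a).2.1) e.2)]
      else if i a = 2 * n a then
        MP_8607b9_lc.tab 5 gM (MP_8607b9_lc.vr (J a) (m a) (j a + 1) (i a))
          [j a, MP_8607b9_lc.vr (J a) (m a) (j a) (2 * n a),
            MP_8607b9_lc.vr (J a) (m a) (j a) (MP_8607b9_lc.own (st a).2.1 e.1),
            MP_8607b9_lc.vr (J a) (m a) (j a) (MP_8607b9_lc.own (st a).2.1 e.2),
            MP_8607b9_lc.vr (J a) (m a) (j a) (MP_8607b9_lc.own (!(st a).2.1) e.2)]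
      else MP_8607b9_lc.tab 1 gC (MP_8607b9_lc.vr (J a) (m a) (j a + 1) (i a))
        [MP_8607b9_lc.vr (J a) (m a) (j a) (i a)])
    hst.snd'.snd' ?_ ?_).congr ?_
  · have z := PT.vr hJ hm (hj.addConst 1) hi
    have y0 := PT.vr hJ hm hj (two hn)
    have y1 := PT.vr hJ hm hj (((two hn).addConst 1).add (PT.bcase hst.fst' 0 1))
    have y2 := PT.vr hJ hm hj (((two hn).addConst 1).add (PT.bcase hst.fst' 1 0))
    exact PT.ite (PT.eq hi (two hn)) (PT.tab z (PT.const []) 0 _)
      (PT.ite (PT.eq hi (((two hn).addConst 1).add (PT.bcase hst.fst' 0 1)))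
        (PT.tab z (PT.cons y0 (PT.cons y1 (PT.cons y2 (PT.const [])))) 3 gL)
        (PT.tab z (PT.list1 (PT.vr hJ hm hj hi)) 1 gC))
  · have hJ' : PT (fun x : α × (ℕ × ℕ) => J x.1) := hJ.comp PT.fst
    have hm' : PT (fun x : α × (ℕ × ℕ) => m x.1) := hm.comp PT.fst
    have hn' : PT (fun x : α × (ℕ × ℕ) => n x.1) := hn.comp PT.fst
    have hj' : PT (fun x : α × (ℕ × ℕ) => j x.1) := hj.comp PT.fst
    have hi' : PT (fun x : α × (ℕ × ℕ) => i x.1) := hi.comp PT.fst
    have hc' : PT (fun x : α × (ℕ × ℕ) => (st x.1).2.1) := hst.snd'.fst'.comp PT.fst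
    have hu : PT (fun x : α × (ℕ × ℕ) => x.2.1) := PT.snd.fst'
    have hv : PT (fun x : α × (ℕ × ℕ) => x.2.2) := PT.snd.snd'
    have z := PT.vr hJ' hm' (hj'.addConst 1) hi'
    have y0 := PT.vr hJ' hm' hj' (two hn')
    have y1 := PT.vr hJ' hm' hj' (PT.own hc' hu)
    have y2 := PT.vr hJ' hm' hj' (PT.own hc' hv)
    have y3 := PT.vr hJ' hm' hj' (PT.own hc'.not hv)
    have l := PT.cons hj' (PT.cons y0 (PT.cons y1 (PT.cons y2 (PT.cons y3 (PT.const [])))))
    exact PT.ite (PT.eq hi' (PT.own hc' hv)) (PT.tab z l 5 gV)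
      (PT.ite (PT.eq hi' (PT.own hc' hu)) (PT.tab z l 5 gU)
        (PT.ite (PT.eq hi' (two hn')) (PT.tab z l 5 gM)
          (PT.tab z (PT.list1 (PT.vr hJ' hm' hj' hi')) 1 gC)))
  · intro a
    simp only [MP_8607b9_lc.cls]
    cases (st a).2.2 <;> rfl

theorem PT.stepCls {J m n : α → ℕ} {L : α → List Stp} (hJ : PT J) (hm : PT m) (hn : PT n)
    (hL : PT L) : PT (fun a => stepCls (J a) (m a) (n a) (L a)) := by
  refine PT.flatMap (PT.zipIdx hL) (g := fun a (sj : Stp × ℕ) => (List.range (m a)).flatMap
    (fun i => MP_8607b9_lc.cls (J a) (m a) (n a) sj.2 sj.1 i)) ?_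
  refine PT.flatMap (f := fun x : α × (Stp × ℕ) => List.range (m x.1)) (PT.range (hm.comp PT.fst))
    (g := fun (x : α × (Stp × ℕ)) i =>
      MP_8607b9_lc.cls (J x.1) (m x.1) (n x.1) x.2.2 x.2.1 i) ?_
  exact PT.cls (hJ.comp PT.fst.fst') (hm.comp PT.fst.fst') (hn.comp PT.fst.fst')
    PT.fst.snd'.snd' PT.fst.snd'.fst' PT.snd

theorem PT.turn (r : Bool) {c : α → Bool} {E : α → List (ℕ × ℕ)} (hc : PT c) (hE : PT E) :
    PT (fun a => turn r (c a) (E a)) := by
  refine PT.append (PT.map hE (g := fun a e => (r, c a, some e)) ?_)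
    (PT.list1 ((PT.const r).pair (hc.pair (PT.const none))))
  exact (PT.const r).pair ((hc.comp PT.fst).pair PT.snd.some)

theorem PT.rounds {c : α → Bool} {E : α → List (ℕ × ℕ)} {T : α → ℕ} (hc : PT c) (hE : PT E)
    (hT : PT T) : PT (fun a => rounds (c a) (E a) (T a)) := by
  refine PT.flatMap (PT.range hT) (g := fun a _ => MP_8607b9_lc.turn true (c a) (E a) ++
    MP_8607b9_lc.turn false (!c a) (E a)) ?_
  exact ((PT.turn true hc hE).append (PT.turn false hc.not hE)).comp PT.fst

theorem PT.upSteps {I : α → NBData} (hI : PT I) : PT (fun a => upSteps (I a)) :=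
  PT.rounds hI.snd'.snd'.snd'.snd' hI.snd'.fst' ((hI.fst'.mul hI.fst').addConst 1)

theorem PT.iniCls {J m : α → ℕ} {I : α → NBData} (hJ : PT J) (hm : PT m) (hI : PT I) :
    PT (fun a => iniCls (J a) (m a) (I a)) := by
  refine PT.map (PT.range hm) (g := fun a i => [(MP_8607b9_lc.vr (J a) (m a) 0 i,
    iniBit (I a) i)]) ?_
  refine PT.list1 ((PT.vr (hJ.comp PT.fst) (hm.comp PT.fst) (PT.const 0) PT.snd).pair ?_)
  refine PT.or (PT.any (f := fun x : α × ℕ => (I x.1).left) (hI.snd'.snd'.fst'.comp PT.fst)
    (p := fun (x : α × ℕ) w => decide (x.2 = 2 * w)) (PT.eq PT.fst.snd' (PT.snd.mulConst 2)))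
    (PT.any (f := fun x : α × ℕ => (I x.1).right) (hI.snd'.snd'.snd'.fst'.comp PT.fst)
    (p := fun (x : α × ℕ) w => decide (x.2 = 2 * w + 1))
      (PT.eq PT.fst.snd' ((PT.snd.mulConst 2).addConst 1)))

theorem PT.replicateTrue {f : α → ℕ} (hf : PT f) : PT (fun a => List.replicate (f a) true) :=
  (PT.map (PT.range hf) (g := fun _ _ => true) (PT.const true)).congr (fun a => by
    rw [List.map_const', List.length_range])

theorem PT.upForm {I : α → NBData} (hI : PT I) : PT (fun a => upForm (I a)) := by
  have hs := PT.upSteps hI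
  have hJ := hs.length
  have hm : PT (fun a => 2 * (I a).1 + 3) := (hI.fst'.mulConst 2).addConst 3
  refine PT.pair ((PT.map hs (g := fun _ (s : Stp) => s.1) PT.snd.fst').append
    (PT.replicateTrue ((hJ.addConst 1).mul hm))) ?_
  exact (PT.iniCls hJ hm hI).append ((PT.stepCls hJ hm hI.fst' hs).append
    (PT.list1 (PT.list1 ((PT.vr hJ hm hJ ((hI.fst'.mulConst 2).addConst 2)).pair
      (PT.const true)))))

end pt

/-- **Node Blocking on acyclic digraphs reduces to quantified Boolean formulas.** -/
theorem nbdag_reduces : Reduces NBDAG TQBF := by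
  have hpt : PT (fun I : {I : NBData // I.Valid} =>
      (⟨upForm I.1, upForm_closed I.2⟩ : {φ : Formula // φ.Closed})) :=
    PT.congr_enc (PT.upForm (PT.val (p := NBData.Valid))) (fun _ => rfl)
  refine ⟨fun I => ⟨upForm I.1, upForm_closed I.2⟩, ?_, fun I => ?_⟩
  · have e1 : TQBF.enc = (code : {φ : Formula // φ.Closed} → List Bool) := funext code_tqbf
    have e2 : NBDAG.enc = (code : {I : NBData // I.Valid} → List Bool) := funext code_nbdag
    rw [e1, e2]
    exact hpt.computable
  · exact (upForm_truth I.2).symm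

end Pool.Agent.Lib.MP_8607b9_lc
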